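import Pool.Agent.Lib.MP_9053f7_an.Uniform

namespace Pool.Agent.Lib.MP_9053f7_an

open Filter Topology
open scoped ENNReal

namespace Tower

variable (T : Tower)

noncomputable def emb (N n : ℕ) (h : N ≤ n) : T.A N →ₐ[ℂ] T.A n :=
  Nat.leRec (motive := fun n _ => T.A N →ₐ[ℂ] T.A n) (AlgHom.id ℂ _)
    (fun n _ f => (T.e n).ι.comp f) h

lemma emb_self (N : ℕ) (a : T.A N) : T.emb N N le_rfl a = a := by
  rw [emb, Nat.leRec_self]; rfl

lemma emb_succ {N n : ℕ} (h : N ≤ n) (a : T.A N) :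
    T.emb N (n + 1) (h.trans (Nat.le_succ n)) a = (T.e n).ι (T.emb N n h a) := by
  rw [emb, Nat.leRec_succ _ _ h]; rfl

lemma norm_emb {N n : ℕ} (h : N ≤ n) (a : T.A N) : ‖T.emb N n h a‖ = ‖a‖ := by
  induction n, h using Nat.le_induction with
  | base => rw [emb_self]
  | succ n h ih => rw [emb_succ T h, Ext.norm_ι, ih]

lemma emb_coh {N : ℕ} {x : ∀ n, T.A n} (hx : ∀ n ≥ N, x (n + 1) = (T.e n).ι (x n)) {n : ℕ}
    (h : N ≤ n) : T.emb N n h (x N) = x n := by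
  induction n, h using Nat.le_induction with
  | base => rw [emb_self]
  | succ n h ih => rw [emb_succ T h, ih, hx n h]

abbrev P := lp (fun n => (T.C n : Type)) ∞

def Coh (x : ∀ n, T.A n) : Prop := ∀ᶠ n in atTop, x (n + 1) = (T.e n).ι (x n)

def sub : Subalgebra ℂ T.P where
  carrier := {b | (∀ n, b n ∈ invSub (T.C n)) ∧
    ∀ ε > 0, ∃ x, T.Coh x ∧ ∀ᶠ n in atTop, ‖b n - (T.k n).ι (x n)‖ ≤ ε}
  mul_mem' := by
    rintro b b' ⟨h1, h2⟩ ⟨h1', h2'⟩
    refine ⟨fun n => Subalgebra.mul_mem _ (h1 n) (h1' n), fun ε hε => ?_⟩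
    set δ := min 1 (ε / (‖b‖ + ‖b'‖ + 1)) with hδ
    have hδ0 : 0 < δ := by positivity
    obtain ⟨x, hx, hx'⟩ := h2 δ hδ0
    obtain ⟨y, hy, hy'⟩ := h2' δ hδ0
    refine ⟨x * y, ?_, ?_⟩
    · filter_upwards [hx, hy] with n a1 a2
      simp [a1, a2]
    · filter_upwards [hx', hy'] with n a1 a2
      have e : (b * b') n - (T.k n).ι ((x * y) n) = b n * (b' n - (T.k n).ι (y n)) +
          (b n - (T.k n).ι (x n)) * b' n -
          (b n - (T.k n).ι (x n)) * (b' n - (T.k n).ι (y n)) := by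
        simp only [lp.infty_coeFn_mul, Pi.mul_apply, map_mul]; ring
      have b1 := lp.norm_apply_le_norm ENNReal.top_ne_zero b n
      have b2 := lp.norm_apply_le_norm ENNReal.top_ne_zero b' n
      have b3 : δ ≤ 1 := min_le_left _ _
      have b4 : δ * (‖b‖ + ‖b'‖ + 1) ≤ ε := by
        rw [← le_div_iff₀ (by positivity)]; exact min_le_right _ _
      rw [e]
      calc _ ≤ ‖b‖ * δ + δ * ‖b'‖ + δ * 1 := by
            refine (norm_sub_le _ _).trans (add_le_add ((norm_add_le _ _).trans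
              (add_le_add ?_ ?_)) ?_) <;> refine (norm_mul_le _ _).trans ?_ <;> gcongr
            exact a2.trans b3
        _ ≤ ε := by linarith
  add_mem' := by
    rintro b b' ⟨h1, h2⟩ ⟨h1', h2'⟩
    refine ⟨fun n => Subalgebra.add_mem _ (h1 n) (h1' n), fun ε hε => ?_⟩
    obtain ⟨x, hx, hx'⟩ := h2 _ (half_pos hε)
    obtain ⟨y, hy, hy'⟩ := h2' _ (half_pos hε)
    refine ⟨x + y, ?_, ?_⟩
    · filter_upwards [hx, hy] with n a1 a2
      simp [a1, a2]
    · filter_upwards [hx', hy'] with n a1 a2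
      have e : (b + b') n - (T.k n).ι ((x + y) n) =
          (b n - (T.k n).ι (x n)) + (b' n - (T.k n).ι (y n)) := by
        simp only [lp.coeFn_add, Pi.add_apply, map_add]; ring
      rw [e]
      linarith [norm_add_le (b n - (T.k n).ι (x n)) (b' n - (T.k n).ι (y n))]
  algebraMap_mem' := fun c => ⟨fun n => Subalgebra.algebraMap_mem _ c, fun ε hε =>
    ⟨fun n => algebraMap ℂ _ c, Eventually.of_forall fun n => by simp,
      Eventually.of_forall fun n => by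
        have : (algebraMap ℂ T.P c) n = algebraMap ℂ _ c := rfl
        simp [this, hε.le]⟩⟩

lemma isClosed_sub : IsClosed (T.sub : Set T.P) := by
  refine isClosed_of_closure_subset fun b hb => ⟨fun n => ?_, fun ε hε => ?_⟩
  · have h1 : IsClosed (invSub (T.C n) : Set (T.C n)) :=
      (invSub (T.C n)).toSubmodule.closed_of_finiteDimensional
    have h2 : Continuous fun b : T.P => b n :=
      (lp.evalCLM ℂ (fun n => (T.C n : Type)) ∞ n).continuous
    exact h1.closure_subset (map_mem_closure h2 hb fun c hc => hc.1 n)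
  · obtain ⟨c, hc, hbc⟩ := Metric.mem_closure_iff.1 hb _ (half_pos hε)
    obtain ⟨x, hx, hx'⟩ := hc.2 _ (half_pos hε)
    refine ⟨x, hx, ?_⟩
    filter_upwards [hx'] with n hn
    have h1 : ‖b n - c n‖ ≤ ‖b - c‖ := lp.norm_apply_le_norm ENNReal.top_ne_zero (b - c) n
    rw [dist_eq_norm] at hbc
    linarith [norm_sub_le_norm_sub_add_norm_sub (b n) (c n) ((T.k n).ι (x n))]

/-- The counterexample. -/
def Alg : Type := T.sub

noncomputable instance : NormedCommRing T.Alg := inferInstanceAs (NormedCommRing T.sub)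
noncomputable instance : NormedAlgebra ℂ T.Alg := inferInstanceAs (NormedAlgebra ℂ T.sub)
instance : CompleteSpace T.Alg := T.isClosed_sub.completeSpace_coe
instance : NormOneClass T.Alg := ⟨norm_one (α := T.P)⟩

noncomputable def co (n : ℕ) : T.Alg →ₐ[ℂ] T.C n where
  toFun b := (Subtype.val (p := (· ∈ T.sub)) b) n
  map_one' := rfl
  map_mul' _ _ := rfl
  map_zero' := rfl
  map_add' _ _ := rfl
  commutes' _ := rfl

variable {T}

lemma norm_co_le (n : ℕ) (b : T.Alg) : ‖T.co n b‖ ≤ ‖b‖ :=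
  lp.norm_apply_le_norm ENNReal.top_ne_zero (Subtype.val (p := (· ∈ T.sub)) b) n

lemma norm_le_of_co {b : T.Alg} {c : ℝ} (h : ∀ n, ‖T.co n b‖ ≤ c) : ‖b‖ ≤ c :=
  lp.norm_le_of_forall_le' (f := Subtype.val (p := (· ∈ T.sub)) b) c h

lemma ext_co {b b' : T.Alg} (h : ∀ n, T.co n b = T.co n b') : b = b' :=
  Subtype.ext (lp.ext (funext h))

lemma co_mem (n : ℕ) (b : T.Alg) : T.co n b ∈ invSub (T.C n) :=
  (Subtype.property (p := (· ∈ T.sub)) b).1 n

lemma co_approx (b : T.Alg) {ε : ℝ} (hε : 0 < ε) : ∃ (x : ∀ n, T.A n) (N : ℕ),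
    (∀ n ≥ N, x (n + 1) = (T.e n).ι (x n)) ∧ ∀ n ≥ N, ‖T.co n b - (T.k n).ι (x n)‖ ≤ ε := by
  obtain ⟨x, h1, h2⟩ := (Subtype.property (p := (· ∈ T.sub)) b).2 ε hε
  obtain ⟨N, hN⟩ := eventually_atTop.1 (h1.and h2)
  exact ⟨x, N, fun n hn => (hN n hn).1, fun n hn => (hN n hn).2⟩

noncomputable def mkEl (β : ∀ n, T.C n) (h1 : ∀ n, β n ∈ invSub (T.C n)) {c : ℝ}
    (h2 : ∀ n, ‖β n‖ ≤ c)
    (h3 : ∀ ε > 0, ∃ x, T.Coh x ∧ ∀ᶠ n in atTop, ‖β n - (T.k n).ι (x n)‖ ≤ ε) : T.Alg :=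
  (⟨⟨β, memℓp_infty ⟨c, by rintro _ ⟨n, rfl⟩; exact h2 n⟩⟩, h1, h3⟩ : T.sub)

lemma co_mk (β : ∀ n, T.C n) (h1) {c : ℝ} (h2 : ∀ n, ‖β n‖ ≤ c) (h3) (n : ℕ) :
    T.co n (mkEl β h1 h2 h3) = β n := rfl

lemma norm_φ_le (n : ℕ) (a : T.A n) : ‖T.φ n a‖ ≤ 2 * ‖a‖ := by
  have h1 := T.φ_close n a
  have h2 : 1 / (n + 2 : ℝ) * ‖a‖ ≤ 1 * ‖a‖ := by
    gcongr
    rw [div_le_one (by positivity)]; linarith [Nat.cast_nonneg (α := ℝ) n]
  have h3 := norm_le_norm_add_norm_sub' (T.φ n a) ((T.k n).ι a)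
  rw [Ext.norm_ι] at h3
  linarith

lemma tendsto_eps : Tendsto (fun n : ℕ => 1 / (n + 2 : ℝ)) atTop (𝓝 0) :=
  tendsto_const_nhds.div_atTop (tendsto_atTop_add_const_right _ _ tendsto_natCast_atTop_atTop)

lemma eventually_eps_mul_le (c : ℝ) {ε : ℝ} (hε : 0 < ε) :
    ∀ᶠ n : ℕ in atTop, 1 / (n + 2 : ℝ) * c ≤ ε := by
  have := tendsto_eps.mul_const c
  rw [zero_mul] at this
  exact (this.eventually (eventually_lt_nhds hε)).mono fun n hn => hn.le

lemma eps_anti {N n : ℕ} (h : N ≤ n) : 1 / (n + 2 : ℝ) ≤ 1 / (N + 2 : ℝ) := by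
  gcongr

variable (T) in
noncomputable def sig (N : ℕ) : T.A N →ₗ[ℂ] T.Alg where
  toFun a := mkEl (fun n => if h : N ≤ n then T.φ n (T.emb N n h a) else 0)
    (fun n => by split_ifs; exacts [T.φ_mem _ _, Subalgebra.zero_mem _]) (c := 2 * ‖a‖)
    (fun n => by
      split_ifs with h
      · rw [← T.norm_emb h a]; exact norm_φ_le _ _
      · simp)
    (fun ε hε => ⟨fun n => if h : N ≤ n then T.emb N n h a else 0, by
      filter_upwards [eventually_ge_atTop N] with n hn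
      rw [dif_pos hn, dif_pos (hn.trans (Nat.le_succ n)), T.emb_succ hn], by
      filter_upwards [eventually_ge_atTop N, eventually_eps_mul_le ‖a‖ hε] with n hn hn'
      rw [dif_pos hn, dif_pos hn]
      refine (T.φ_close _ _).trans ?_
      rwa [T.norm_emb]⟩)
  map_add' a b := ext_co fun n => by
    simp only [map_add, co_mk]; split_ifs <;> simp
  map_smul' c a := ext_co fun n => by
    simp only [map_smul, co_mk, RingHom.id_apply]; split_ifs <;> simp

lemma co_sig_of_le {N n : ℕ} (h : N ≤ n) (a : T.A N) :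
    T.co n (T.sig N a) = T.φ n (T.emb N n h a) := dif_pos h

lemma co_sig_of_lt {N n : ℕ} (h : n < N) (a : T.A N) : T.co n (T.sig N a) = 0 :=
  dif_neg (not_le.2 h)

lemma norm_sig_le (N : ℕ) (a : T.A N) : ‖T.sig N a‖ ≤ 2 * ‖a‖ := by
  refine norm_le_of_co fun n => ?_
  rcases lt_or_ge n N with h | h
  · simp [co_sig_of_lt h]
  · rw [co_sig_of_le h, ← T.norm_emb h a]; exact norm_φ_le _ _

lemma norm_φ_mul_le (n : ℕ) (u v : T.A n) :
    ‖T.φ n (u * v) - T.φ n u * T.φ n v‖ ≤ 4 * (1 / (n + 2 : ℝ)) * (‖u‖ * ‖v‖) := by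
  have e : T.φ n (u * v) - T.φ n u * T.φ n v = (T.φ n (u * v) - (T.k n).ι (u * v)) -
      (T.φ n u - (T.k n).ι u) * (T.k n).ι v - T.φ n u * (T.φ n v - (T.k n).ι v) := by
    rw [map_mul (T.k n).ι]; ring
  rw [e]
  have h1 : ‖T.φ n (u * v) - (T.k n).ι (u * v)‖ ≤ 1 / (n + 2 : ℝ) * (‖u‖ * ‖v‖) :=
    (T.φ_close _ _).trans (by gcongr; exact norm_mul_le _ _)
  have h2 : ‖(T.φ n u - (T.k n).ι u) * (T.k n).ι v‖ ≤ 1 / (n + 2 : ℝ) * ‖u‖ * ‖v‖ :=
    (norm_mul_le _ _).trans (by gcongr; exacts [T.φ_close _ _, (T.k n).norm_ι_le _])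
  have h3 : ‖T.φ n u * (T.φ n v - (T.k n).ι v)‖ ≤ 2 * ‖u‖ * (1 / (n + 2 : ℝ) * ‖v‖) :=
    (norm_mul_le _ _).trans (by gcongr; exacts [norm_φ_le _ _, T.φ_close _ _])
  calc _ ≤ _ := (norm_sub_le _ _).trans (add_le_add ((norm_sub_le _ _).trans (add_le_add h1 h2)) h3)
    _ = _ := by ring

lemma norm_co_sig_mul_le {N n : ℕ} (h : N ≤ n) (u v : T.A N) :
    ‖T.co n (T.sig N (u * v) - T.sig N u * T.sig N v)‖ ≤
      4 * (1 / (n + 2 : ℝ)) * (‖u‖ * ‖v‖) := by
  rw [map_sub, map_mul (T.co n), co_sig_of_le h, co_sig_of_le h, co_sig_of_le h,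
    map_mul (T.emb N n h),
    ← T.norm_emb h u, ← T.norm_emb h v]
  exact norm_φ_mul_le _ _ _

lemma norm_sig_mul_le (N : ℕ) (u v : T.A N) :
    ‖T.sig N (u * v) - T.sig N u * T.sig N v‖ ≤ 4 * (1 / (N + 2 : ℝ)) * (‖u‖ * ‖v‖) := by
  refine norm_le_of_co fun n => ?_
  rcases lt_or_ge n N with h | h
  · simp only [map_sub, map_mul, co_sig_of_lt h, mul_zero, sub_zero, norm_zero]; positivity
  · exact (norm_co_sig_mul_le h u v).trans (by gcongr)

variable (T) in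
noncomputable def sing (n : ℕ) : invSub (T.C n) →ₗ[ℂ] T.Alg where
  toFun β := mkEl (Pi.single n β.1) (fun m => by
      rcases eq_or_ne m n with rfl | h
      · simp
      · simp [Pi.single_eq_of_ne h]) (c := ‖β.1‖) (fun m => by
      rcases eq_or_ne m n with rfl | h
      · simp
      · simp [Pi.single_eq_of_ne h])
    (fun ε hε => ⟨0, Eventually.of_forall fun n => by simp, by
      filter_upwards [eventually_gt_atTop n] with m hm
      simp [Pi.single_eq_of_ne hm.ne', hε.le]⟩)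
  map_add' a b := ext_co fun m => by
    simp only [map_add, co_mk, Subalgebra.coe_add, Pi.single_add, Pi.add_apply]
  map_smul' c a := ext_co fun m => by
    simp only [map_smul, co_mk, RingHom.id_apply, Subalgebra.coe_smul, Pi.single_smul,
      Pi.smul_apply]

lemma co_sing_self (n : ℕ) (β : invSub (T.C n)) : T.co n (T.sing n β) = β :=
  Pi.single_eq_same (M := fun n => T.C n) n β.1

lemma co_sing_ne {n m : ℕ} (h : m ≠ n) (β : invSub (T.C n)) : T.co m (T.sing n β) = 0 :=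
  Pi.single_eq_of_ne (M := fun n => T.C n) h β.1

lemma mul_sing (b : T.Alg) (n : ℕ) (β : invSub (T.C n)) :
    b * T.sing n β = T.sing n (⟨T.co n b, co_mem n b⟩ * β) := by
  refine ext_co fun m => ?_
  rcases eq_or_ne m n with rfl | h
  · simp [co_sing_self]
  · simp [co_sing_ne h]

variable (T) in
noncomputable def cut (N : ℕ) : T.Alg := ∑ n ∈ Finset.range N, T.sing n 1

lemma co_cut (N n : ℕ) : T.co n (T.cut N) = if n < N then 1 else 0 := by
  rw [cut, map_sum]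
  split_ifs with h
  · rw [Finset.sum_eq_single n (fun m _ hm => co_sing_ne hm.symm _) (by simp [h]), co_sing_self]
    rfl
  · refine Finset.sum_eq_zero fun m hm => co_sing_ne ?_ _
    rintro rfl
    exact h (Finset.mem_range.1 hm)

lemma norm_cut_le (N : ℕ) : ‖T.cut N‖ ≤ 1 :=
  norm_le_of_co fun n => by rw [co_cut]; split_ifs <;> simp

lemma cut_mul_cut (N : ℕ) : T.cut N * T.cut N = T.cut N :=
  ext_co fun n => by rw [map_mul, co_cut]; split_ifs <;> simp

lemma cut_mul_sig (N : ℕ) (a : T.A N) : T.cut N * T.sig N a = 0 :=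
  ext_co fun n => by
    rw [map_mul, co_cut]
    split_ifs with h
    · simp [co_sig_of_lt h]
    · simp

lemma norm_tail_sub_sig {b : T.Alg} {x : ∀ n, T.A n} {N : ℕ} {ε : ℝ}
    (hx : ∀ n ≥ N, x (n + 1) = (T.e n).ι (x n))
    (hb : ∀ n ≥ N, ‖T.co n b - (T.k n).ι (x n)‖ ≤ ε) :
    ‖b * (1 - T.cut N) - T.sig N (x N)‖ ≤ ε + 1 / (N + 2 : ℝ) * ‖x N‖ ∧ ‖x N‖ ≤ ‖b‖ + ε := by
  have hε : 0 ≤ ε := (norm_nonneg _).trans (hb N le_rfl)
  constructor
  · refine norm_le_of_co fun n => ?_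
    rw [map_sub, map_mul, map_sub, co_cut]
    rcases lt_or_ge n N with h | h
    · simp only [h, if_true, co_sig_of_lt h, map_one, sub_self, mul_zero, norm_zero]; positivity
    · rw [if_neg (not_lt.2 h), co_sig_of_le h, T.emb_coh hx h, map_one, sub_zero, mul_one]
      have h1 := T.φ_close n (x n)
      have h2 : ‖x n‖ = ‖x N‖ := by rw [← T.emb_coh hx h, T.norm_emb]
      have h3 : 1 / (n + 2 : ℝ) * ‖x n‖ ≤ 1 / (N + 2 : ℝ) * ‖x N‖ := by rw [h2]; gcongr
      rw [norm_sub_rev] at h1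
      linarith [norm_sub_le_norm_sub_add_norm_sub (T.co n b) ((T.k n).ι (x n)) (T.φ n (x n)),
        hb n h]
  · have h1 := norm_le_norm_add_norm_sub (T.co N b) ((T.k N).ι (x N))
    rw [Ext.norm_ι] at h1
    linarith [norm_co_le N b, hb N le_rfl]

end Tower

end Pool.Agent.Lib.MP_9053f7_an
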