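import Pool.Agent.Lib.MP_9053f7_an.PTensor

namespace Pool.Agent.Lib.MP_9053f7_an

open scoped TensorProduct
open Filter Topology PT

lemma exists_weak_limit {X : Type*} [NormedAddCommGroup X] [NormedSpace ℂ X]
    (u : ℕ → X →L[ℂ] ℂ) {C : ℝ} (hC : ∀ k, ‖u k‖ ≤ C) :
    ∃ f : X →L[ℂ] ℂ, ∀ x, Tendsto (fun k => u k x) (hyperfilter ℕ) (𝓝 (f x)) := by
  have hK := WeakDual.isCompact_closedBall (𝕜 := ℂ) (0 : StrongDual ℂ X) C
  let v : ℕ → WeakDual ℂ X := fun k => StrongDual.toWeakDual (u k)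
  obtain ⟨f, -, hf⟩ := hK.ultrafilter_le_nhds ((hyperfilter ℕ).map v) (by
    rw [Filter.le_principal_iff, Ultrafilter.coe_map, Filter.mem_map]
    refine Filter.univ_mem' fun k => ?_
    simpa [v] using hC k)
  refine ⟨WeakDual.toStrongDual f, fun x => ?_⟩
  exact ((WeakDual.eval_continuous x).tendsto f).comp hf

theorem inner_of_diag {A : Type*} [NormedCommRing A] [NormedAlgebra ℂ A] [CompleteSpace A]
    (m : ℕ → A ⊗[ℂ] A) {C : ℝ} (hC : ∀ k, ‖m k‖ ≤ C)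
    (hπ : Tendsto (fun k => Algebra.TensorProduct.lmul' ℂ (m k)) atTop (𝓝 1))
    (hd : ∀ b : A, Tendsto (fun k => ‖(b ⊗ₜ[ℂ] 1 - 1 ⊗ₜ[ℂ] b) * m k‖) atTop (𝓝 0))
    {X : Type*} [NormedAddCommGroup X] [NormedSpace ℂ X] (l r : A →L[ℂ] X →L[ℂ] X)
    (hr : ∀ a b x, r (a * b) x = r b (r a x)) (hlr : ∀ a b x, l a (r b x) = r b (l a x))
    (D : A →L[ℂ] X →L[ℂ] ℂ) (hD : ∀ a b x, D (a * b) x = D b (r a x) + D a (l b x)) :
    ∃ f : X →L[ℂ] ℂ, ∀ a x, D a x = f (r a x) - f (l a x) := by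
  let Φ : A ⊗[ℂ] A →ₗ[ℂ] X →L[ℂ] ℂ := TensorProduct.lift
    (LinearMap.mk₂ ℂ (fun a b => (D b).comp (r a)) (by intros; ext; simp) (by intros; ext; simp)
      (by intros; ext; simp) (by intros; ext; simp))
  have hΦ : ∀ a b x, Φ (a ⊗ₜ[ℂ] b) x = D b (r a x) := fun a b x => by simp [Φ]
  have hΦn : ∀ t, ‖Φ t‖ ≤ (‖D‖ * ‖r‖) * ‖t‖ := by
    apply norm_map_le Φ (by positivity)
    intro a b
    apply ContinuousLinearMap.opNorm_le_bound _ (by positivity)
    intro x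
    rw [hΦ]
    calc ‖D b (r a x)‖ ≤ ‖D‖ * ‖b‖ * ‖r a x‖ := D.le_opNorm₂ _ _
      _ ≤ ‖D‖ * ‖b‖ * (‖r‖ * ‖a‖ * ‖x‖) := by gcongr; exact r.le_opNorm₂ _ _
      _ = _ := by ring
  have h1 : ∀ c x t, Φ ((c ⊗ₜ[ℂ] 1) * t) x = Φ t (r c x) := by
    intro c x t
    induction t using TensorProduct.induction_on with
    | zero => simp
    | tmul a b => simp [Algebra.TensorProduct.tmul_mul_tmul, hΦ, hr]
    | add s t hs ht => simp [mul_add, hs, ht]
  have h2 : ∀ c x t, Φ ((1 ⊗ₜ[ℂ] c) * t) x =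
      D c (r (Algebra.TensorProduct.lmul' ℂ t) x) + Φ t (l c x) := by
    intro c x t
    induction t using TensorProduct.induction_on with
    | zero => simp
    | tmul a b =>
      rw [Algebra.TensorProduct.tmul_mul_tmul, one_mul, mul_comm c b, hΦ, hΦ, hD, hlr,
        Algebra.TensorProduct.lmul'_apply_tmul, hr]
    | add s t hs ht => simp only [mul_add, map_add, add_apply, hs, ht]; ring
  obtain ⟨f, hf⟩ := exists_weak_limit (fun k => Φ (m k)) (C := (‖D‖ * ‖r‖) * C)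
    (fun k => (hΦn _).trans (by gcongr; exact hC k))
  have hU : (hyperfilter ℕ : Filter ℕ) ≤ atTop := by
    rw [← Nat.cofinite_eq_atTop]; exact hyperfilter_le_cofinite
  have h3 : ∀ c x, f (r c x) - f (l c x) = D c (r 1 x) := by
    intro c x
    have a1 := (hf (r c x)).sub (hf (l c x))
    have a2 : Tendsto (fun k => Φ ((c ⊗ₜ[ℂ] 1 - 1 ⊗ₜ[ℂ] c) * m k) x) atTop (𝓝 0) := by
      rw [tendsto_zero_iff_norm_tendsto_zero]
      have := ((hd c).const_mul (‖D‖ * ‖r‖)).mul_const ‖x‖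
      simp only [mul_zero, zero_mul] at this
      refine squeeze_zero (fun k => norm_nonneg _) (fun k => ?_) this
      exact (ContinuousLinearMap.le_opNorm _ _).trans (by gcongr; exact hΦn _)
    have a3 : Tendsto (fun k => D c (r (Algebra.TensorProduct.lmul' ℂ (m k)) x)) atTop
        (𝓝 (D c (r 1 x))) := by
      have : Continuous fun a : A => D c (r a x) := by fun_prop
      exact (this.tendsto 1).comp hπ
    have a4 := (a2.add a3).mono_left hU
    rw [zero_add] at a4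
    refine tendsto_nhds_unique a1 (a4.congr fun k => ?_)
    rw [sub_mul, map_sub, sub_apply, h1, h2]
    ring
  let g : X →L[ℂ] ℂ := (D 1).comp (ContinuousLinearMap.id ℂ X - r 1)
  have hg : ∀ x, g x = D 1 (x - r 1 x) := fun x => by simp [g]
  refine ⟨f - g, fun c x => ?_⟩
  have b1 : g (r c x) = 0 := by rw [hg, ← hr, mul_one, sub_self, map_zero]
  have b2 : D c (x - r 1 x) = g (l c x) := by
    have := hD 1 c (x - r 1 x)
    rw [one_mul, map_sub (r 1), ← hr, mul_one, sub_self, map_zero, zero_add, map_sub (l c),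
      hlr] at this
    rw [this, hg]
  simp only [sub_apply]
  rw [b1, ← b2, map_sub]
  linear_combination (-1 : ℂ) * h3 c x

theorem amenable_of_diag {A : Type*} [NormedCommRing A] [NormedAlgebra ℂ A] [CompleteSpace A]
    (m : ℕ → A ⊗[ℂ] A) {C : ℝ} (hC : ∀ k, ‖m k‖ ≤ C)
    (hπ : Tendsto (fun k => Algebra.TensorProduct.lmul' ℂ (m k)) atTop (𝓝 1))
    (hd : ∀ b : A, Tendsto (fun k => ‖(b ⊗ₜ[ℂ] 1 - 1 ⊗ₜ[ℂ] b) * m k‖) atTop (𝓝 0)) :
    IsAmenableBA A := by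
  rintro X _ _ _ l r ⟨hl, hr, -, h2, h3⟩ D ⟨hD, h4⟩
  exact inner_of_diag m hC hπ hd hl.toContinuousLinearMap hr.toContinuousLinearMap h2 h3
    hD.toContinuousLinearMap h4

end Pool.Agent.Lib.MP_9053f7_an
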