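import Mathlib

namespace Pool.Agent.Lib.MP_9053f7_an

open Filter Topology Metric
open scoped ENNReal

variable {E : Type*} [NormedAddCommGroup E] [NormedSpace ℂ E] [CompleteSpace E] {I : Type*}

lemma second_order_bound {f : ℂ → E} {c : ℂ} {r C : ℝ} (hd : DifferentiableOn ℂ f (ball c r))
    (hb : ∀ s ∈ ball c r, ‖f s‖ ≤ C) {z : ℂ} (hz : z ∈ ball c r) :
    ‖deriv f c‖ ≤ 2 * C / r ∧
      ‖f z - f c - (z - c) • deriv f c‖ ≤ 4 * C / r / r * ‖z - c‖ * ‖z - c‖ := by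
  have hr : 0 < r := pos_of_mem_ball hz
  have hc : c ∈ ball c r := mem_ball_self hr
  have h1 : ∀ s ∈ ball c r, ‖dslope f c s‖ ≤ 2 * C / r := fun s hs =>
    Complex.norm_dslope_le_div_of_mapsTo_ball hd (fun u hu => by
      rw [mem_closedBall, dist_eq_norm]
      linarith [norm_sub_le (f u) (f c), hb u hu, hb c hc]) hs
  have h2 : DifferentiableOn ℂ (dslope f c) (ball c r) :=
    (Complex.differentiableOn_dslope (isOpen_ball.mem_nhds hc)).2 hd
  have h3 : ‖dslope (dslope f c) c z‖ ≤ 4 * C / r / r :=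
    Complex.norm_dslope_le_div_of_mapsTo_ball h2 (fun u hu => by
      rw [mem_closedBall, dist_eq_norm]
      have := norm_sub_le (dslope f c u) (dslope f c c)
      have e : 4 * C / r = 2 * C / r + 2 * C / r := by ring
      linarith [h1 u hu, h1 c hc]) hz
  refine ⟨by simpa using h1 c hc, ?_⟩
  have e1 : f z - f c = (z - c) • dslope f c z := (sub_smul_dslope f c z).symm
  have e2 : dslope f c z - deriv f c = (z - c) • dslope (dslope f c) c z := by
    rw [sub_smul_dslope, dslope_same]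
  rw [e1, ← smul_sub, e2, norm_smul, norm_smul]
  calc _ ≤ ‖z - c‖ * (‖z - c‖ * (4 * C / r / r)) := by gcongr
    _ = _ := by ring

lemma differentiableOn_lp {F : ℂ → lp (fun _ : I => E) ∞} {U : Set ℂ} (hU : IsOpen U) {C : ℝ}
    (hb : ∀ s ∈ U, ‖F s‖ ≤ C) (hd : ∀ i, DifferentiableOn ℂ (fun s => F s i) U) :
    DifferentiableOn ℂ F U := by
  intro c hc
  obtain ⟨r, hr, hrU⟩ := Metric.isOpen_iff.1 hU c hc
  have hC : 0 ≤ C := (norm_nonneg _).trans (hb c hc)
  have key : ∀ i, ∀ z ∈ ball c r, ‖deriv (fun s => F s i) c‖ ≤ 2 * C / r ∧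
      ‖F z i - F c i - (z - c) • deriv (fun s => F s i) c‖ ≤ 4 * C / r / r * ‖z - c‖ * ‖z - c‖ :=
    fun i z hz => second_order_bound ((hd i).mono hrU)
      (fun s hs => (lp.norm_apply_le_norm ENNReal.top_ne_zero (F s) i).trans (hb s (hrU hs))) hz
  let D : lp (fun _ : I => E) ∞ := ⟨fun i => deriv (fun s => F s i) c, memℓp_infty ⟨2 * C / r, by
    rintro _ ⟨i, rfl⟩; exact (key i c (mem_ball_self hr)).1⟩⟩
  refine (HasDerivAt.differentiableAt (f' := D) ?_).differentiableWithinAt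
  rw [hasDerivAt_iff_isLittleO, Asymptotics.isLittleO_iff]
  intro ε hε
  have hK : 0 ≤ 4 * C / r / r := by positivity
  have hev : ∀ᶠ z in 𝓝 c, 4 * C / r / r * ‖z - c‖ < ε := by
    have : Continuous fun z : ℂ => 4 * C / r / r * ‖z - c‖ := by fun_prop
    exact this.continuousAt.eventually_lt continuousAt_const (by simpa using hε)
  filter_upwards [hev, isOpen_ball.mem_nhds (mem_ball_self hr)] with z hz1 hz2
  refine lp.norm_le_of_forall_le (by positivity) fun i => ?_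
  refine le_trans (le_of_eq ?_) ((key i z hz2).2.trans (by gcongr))
  rfl

lemma iteratedDeriv_clm {G : Type*} [NormedAddCommGroup G] [NormedSpace ℂ G] (L : E →L[ℂ] G)
    {f : ℂ → E} {c : ℂ} (hf : AnalyticAt ℂ f c) (m : ℕ) :
    iteratedDeriv m (fun s => L (f s)) c = L (iteratedDeriv m f c) := by
  rw [iteratedDeriv_eq_iteratedFDeriv, iteratedDeriv_eq_iteratedFDeriv]
  have := L.iteratedFDeriv_comp_left (hf.contDiffAt (n := m)) (i := m) le_rfl
  change iteratedFDeriv ℂ m (L ∘ f) c _ = _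
  rw [this]
  rfl

theorem approx_by_jets_aux {U : Set ℂ} (hU : IsOpen U) (hU' : IsPreconnected U) (h0 : 0 ∈ U)
    (h1 : 1 ∈ U) (f : I → ℂ → E) (hd : ∀ i, DifferentiableOn ℂ (f i) U) {C : ℝ} (hC : 0 ≤ C)
    (hb : ∀ i, ∀ s ∈ U, ‖f i s‖ ≤ C) (W : Submodule ℂ (I → E))
    (hW : ∀ m, (fun i => iteratedDeriv m (f i) 0) ∈ W) {η : ℝ} (hη : 0 < η) :
    ∃ t ∈ W, ∀ i, ‖t i - f i 1‖ ≤ η := by
  classical
  let F : ℂ → lp (fun _ : I => E) ∞ := fun s => if hs : s ∈ U then
    ⟨fun i => f i s, memℓp_infty ⟨C, by rintro _ ⟨i, rfl⟩; exact hb i s hs⟩⟩ else 0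
  have hF : ∀ s ∈ U, ∀ i, F s i = f i s := fun s hs i => by simp only [F, dif_pos hs]
  have hFd : DifferentiableOn ℂ F U := differentiableOn_lp hU (C := C)
    (fun s hs => lp.norm_le_of_forall_le hC fun i => by rw [hF s hs]; exact hb i s hs)
    (fun i => (hd i).congr fun s hs => hF s hs i)
  have hFa : AnalyticOnNhd ℂ F U := hFd.analyticOnNhd hU
  let W₀ : Submodule ℂ (lp (fun _ : I => E) ∞) :=
    { carrier := {u | (fun i => u i) ∈ W}
      add_mem' := fun {a b} ha hb => W.add_mem ha hb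
      zero_mem' := W.zero_mem
      smul_mem' := fun c a ha => W.smul_mem c ha }
  let W₁ := W₀.topologicalClosure
  have hcl : IsClosed (W₁ : Set (lp (fun _ : I => E) ∞)) := W₀.isClosed_topologicalClosure
  have hjet : ∀ m, iteratedDeriv m F 0 ∈ W₀ := by
    intro m
    change (fun i => iteratedDeriv m F 0 i) ∈ W
    convert hW m using 2 with i
    have := iteratedDeriv_clm (lp.evalCLM ℂ (fun _ : I => E) ∞ i) (hFa 0 h0) m
    change _ = iteratedDeriv m F 0 i at this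
    rw [← this]
    apply Filter.EventuallyEq.iteratedDeriv_eq
    filter_upwards [hU.mem_nhds h0] with s hs
    exact hF s hs i
  obtain ⟨r, hr, hrU⟩ := Metric.isOpen_iff.1 hU 0 h0
  have hnear : ∀ z ∈ ball (0 : ℂ) r, F z ∈ W₁ := by
    intro z hz
    have hs := Complex.hasSum_taylorSeries_on_ball (hFd.mono hrU) hz
    rw [← hs.tsum_eq]
    exact tsum_mem hcl fun m =>
      W₁.smul_mem _ (W₁.smul_mem _ (W₀.le_topologicalClosure (hjet m)))
  have hG : AnalyticOnNhd ℂ (fun s => W₁.mkQL (F s)) U := W₁.mkQL.comp_analyticOnNhd hFa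
  have hG0 := hG.eqOn_zero_of_preconnected_of_eventuallyEq_zero hU' h0 (by
    filter_upwards [isOpen_ball.mem_nhds (mem_ball_self hr)] with z hz
    exact (Submodule.Quotient.mk_eq_zero W₁).2 (hnear z hz)) h1
  have hF1 : F 1 ∈ closure (W₀ : Set _) := (Submodule.Quotient.mk_eq_zero W₁).1 hG0
  obtain ⟨u, hu, hu'⟩ := Metric.mem_closure_iff.1 hF1 η hη
  refine ⟨fun i => u i, hu, fun i => ?_⟩
  rw [← hF 1 h1, dist_comm, dist_eq_norm] at *
  exact (lp.norm_apply_le_norm ENNReal.top_ne_zero (u - F 1) i).trans hu'.le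

theorem approx_by_jets {U : Set ℂ} (hU : IsOpen U) (hU' : IsPreconnected U) (h0 : 0 ∈ U)
    (h1 : 1 ∈ U) (f : I → ℂ → E) (hd : ∀ i, DifferentiableOn ℂ (f i) U) {C : ℝ} (hC : 0 ≤ C)
    (ω : I → ℝ) (hω : ∀ i, 0 < ω i)
    (hb : ∀ i, ∀ s ∈ U, ‖f i s‖ ≤ C * ω i) (W : Submodule ℂ (I → E))
    (hW : ∀ m, (fun i => iteratedDeriv m (f i) 0) ∈ W) {η : ℝ} (hη : 0 < η) :
    ∃ t ∈ W, ∀ i, ‖t i - f i 1‖ ≤ η * ω i := by
  let M : (I → E) →ₗ[ℂ] (I → E) :=
    { toFun := fun u i => (ω i : ℂ) • u i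
      map_add' := fun u v => by ext i; simp
      map_smul' := fun c u => by ext i; simp [smul_comm c] }
  have hω' : ∀ i, (ω i : ℂ) ≠ 0 := fun i => by exact_mod_cast (hω i).ne'
  obtain ⟨t, ht, ht'⟩ := approx_by_jets_aux hU hU' h0 h1 (fun i s => (ω i : ℂ)⁻¹ • f i s)
    (fun i => (hd i).const_smul _) hC (fun i s hs => by
      rw [norm_smul, norm_inv, Complex.norm_real, Real.norm_of_nonneg (hω i).le,
        inv_mul_le_iff₀ (hω i), mul_comm]
      exact hb i s hs) (W.comap M) (fun m => by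
      rw [Submodule.mem_comap]
      convert hW m using 1
      ext i
      change (ω i : ℂ) • iteratedDeriv m (fun s => (ω i : ℂ)⁻¹ • f i s) 0 = _
      rw [iteratedDeriv_fun_const_smul_field, smul_smul, mul_inv_cancel₀ (hω' i), one_smul]) hη
  refine ⟨M t, ht, fun i => ?_⟩
  have e : M t i - f i 1 = (ω i : ℂ) • (t i - (ω i : ℂ)⁻¹ • f i 1) := by
    rw [smul_sub, smul_smul, mul_inv_cancel₀ (hω' i), one_smul]; rfl
  rw [e, norm_smul, Complex.norm_real, Real.norm_of_nonneg (hω i).le, mul_comm]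
  exact mul_le_mul_of_nonneg_right (ht' i) (hω i).le

end Pool.Agent.Lib.MP_9053f7_an
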