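import Mathlib

namespace Pool.Agent.Lib.MP_9053f7_an

open Complex Real

variable {d : ℕ}

abbrev Ix (d : ℕ) := Option (Fin d)
abbrev Mon (d : ℕ) := (Ix d → ℤ) × ℕ

instance : AddMonoid.FG (Mon d) := by
  have : AddMonoid.FG (Ix d → ℤ) := AddGroup.fg_iff_addMonoid_fg.1
    (Module.Finite.iff_addGroup_fg.1 inferInstance)
  infer_instance

def ell (α : Ix d → Bool) (j : Ix d → ℤ) : ℤ := ∑ i, if α i then j i else 0

lemma ell_add (α : Ix d → Bool) (j j' : Ix d → ℤ) : ell α (j + j') = ell α j + ell α j' := by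
  simp only [ell, ← Finset.sum_add_distrib]
  exact Finset.sum_congr rfl fun i _ => by split_ifs <;> simp

lemma ell_single (α : Ix d → Bool) (i : Ix d) :
    ell α (Pi.single i 1) = if α i then 1 else 0 := by
  unfold ell
  rw [Finset.sum_eq_single i (fun k _ hk => by simp [Pi.single_eq_of_ne hk]) (by simp)]
  simp

lemma abs_ell_le (α : Ix d → Bool) (j : Ix d → ℤ) : |(ell α j : ℝ)| ≤ ∑ i, |(j i : ℝ)| := by
  unfold ell
  push_cast
  refine (Finset.abs_sum_le_sum_abs _ _).trans (Finset.sum_le_sum fun i _ => ?_)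
  split_ifs <;> simp

noncomputable def chi (α : Ix d → Bool) (s : ℂ) (j : Ix d → ℤ) : ℂ :=
  Complex.exp (π * I * s * ell α j)

lemma chi_add (α : Ix d → Bool) (s : ℂ) (j j' : Ix d → ℤ) :
    chi α s (j + j') = chi α s j * chi α s j' := by
  simp [chi, ell_add, mul_add, Complex.exp_add]

lemma chi_zero (α : Ix d → Bool) (s : ℂ) : chi α s 0 = 1 := by simp [chi, ell]

lemma chi_at_zero (α : Ix d → Bool) (j : Ix d → ℤ) : chi α 0 j = 1 := by simp [chi]

lemma chi_single (α : Ix d → Bool) (s : ℂ) (i : Ix d) :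
    chi α s (Pi.single i 1) = if α i then Complex.exp (π * I * s) else 1 := by
  rw [chi, ell_single]; split_ifs <;> simp

lemma chi_one_single (α : Ix d → Bool) (i : Ix d) :
    chi α 1 (Pi.single i 1) = if α i then -1 else 1 := by
  rw [chi_single, mul_one, Complex.exp_pi_mul_I]

lemma chi_one (α : Ix d → Bool) (j : Ix d → ℤ) :
    chi α 1 j = ∏ i, if α i then (-1) ^ (j i) else 1 := by
  rw [chi, ell]
  push_cast
  rw [Finset.mul_sum, Complex.exp_sum]
  refine Finset.prod_congr rfl fun i _ => ?_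
  split_ifs
  · rw [mul_one, mul_comm, Complex.exp_int_mul, Complex.exp_pi_mul_I]
  · simp

lemma differentiable_chi (α : Ix d → Bool) (j : Ix d → ℤ) :
    Differentiable ℂ fun s => chi α s j := by
  unfold chi; fun_prop

lemma norm_chi_le (α : Ix d → Bool) {s : ℂ} {c : ℝ} (hs : π * |s.im| ≤ c) (j : Ix d → ℤ) :
    ‖chi α s j‖ ≤ Real.exp (c * ∑ i, |(j i : ℝ)|) := by
  rw [chi, Complex.norm_exp]
  apply Real.exp_le_exp.2
  have e : (π * I * s * ell α j).re = -(π * s.im * ell α j) := by simp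
  rw [e]
  refine (neg_le_abs _).trans ?_
  rw [abs_mul, abs_mul, abs_of_pos Real.pi_pos]
  have hc : 0 ≤ c := le_trans (by positivity) hs
  exact mul_le_mul hs (abs_ell_le α j) (abs_nonneg _) hc

noncomputable def ca : Ix d → ℂ
  | none => 0
  | some _ => 1 / 2

noncomputable def cb : Ix d → ℂ
  | none => 1
  | some _ => I / 2

noncomputable def ca' : Ix d → ℂ
  | none => 0
  | some _ => 1

noncomputable def cb' : Ix d → ℂ
  | none => 1
  | some _ => -I

lemma norm_ca_le (i : Ix d) : ‖ca i‖ ≤ 1 := by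
  cases i <;> simp [ca]; norm_num

lemma norm_cb_le (i : Ix d) : ‖cb i‖ ≤ 1 := by
  cases i <;> simp [cb]; norm_num

noncomputable def pp (α : Ix d → Bool) (s : ℂ) : ℂ :=
  ∏ i, (ca i + cb i * chi α s (Pi.single i 1))

noncomputable def qq (α : Ix d → Bool) : ℂ :=
  ∏ i, (ca' i + cb' i * chi α 1 (Pi.single i 1))

lemma differentiable_pp (α : Ix d → Bool) : Differentiable ℂ (pp α) := by
  unfold pp
  have := fun i => differentiable_chi α (Pi.single i 1)
  fun_prop

lemma qq_mul_pp (α : Ix d → Bool) : qq α * pp α 1 = 1 := by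
  rw [qq, pp, ← Finset.prod_mul_distrib]
  refine Finset.prod_eq_one fun i _ => ?_
  rw [chi_one_single]
  cases i with
  | none => split_ifs <;> simp [ca, cb, ca', cb']
  | some i =>
    simp only [ca, cb, ca', cb']
    split_ifs
    · linear_combination (-1 / 2 : ℂ) * Complex.I_mul_I
    · linear_combination (-1 / 2 : ℂ) * Complex.I_mul_I

noncomputable def cc (d : ℕ) : ℂ := ∏ _i : Ix d, (1 / 2 : ℂ)

lemma sum_cc_prod (h : Ix d → Bool → ℂ) :
    ∑ α : Ix d → Bool, cc d * ∏ i, h i (α i) = ∏ i, (h i true + h i false) / 2 := by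
  have := Finset.prod_univ_sum (fun _ : Ix d => (Finset.univ : Finset Bool))
    (fun i b => (1 / 2 : ℂ) * h i b)
  simp only [Fintype.piFinset_univ, Finset.prod_mul_distrib] at this
  rw [cc, ← this]
  refine Finset.prod_congr rfl fun i _ => ?_
  simp; ring

lemma sum_norm_cc : ∑ _α : Ix d → Bool, ‖cc d‖ = 1 := by
  have h := sum_cc_prod (d := d) (fun _ _ => 1)
  simp only [Finset.prod_const_one, mul_one, add_self_div_two] at h
  have h2 : cc d = ((1 / 2 : ℝ) ^ Fintype.card (Ix d) : ℝ) := by simp [cc]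
  have h3 : (‖cc d‖ : ℂ) = cc d := by
    rw [h2, Complex.norm_real, Real.norm_of_nonneg (by positivity)]
  have : ((∑ _α : Ix d → Bool, ‖cc d‖ : ℝ) : ℂ) = 1 := by
    push_cast
    rw [h3, h]
  exact_mod_cast this

lemma avg_chi (j : Ix d → ℤ) :
    ∑ α : Ix d → Bool, cc d * chi α 1 j = ∏ i, ((-1) ^ (j i) + 1) / 2 := by
  simp only [chi_one]
  simpa using sum_cc_prod (fun i b => if b then (-1 : ℂ) ^ (j i) else 1)

lemma avg_chi_qq (j : Ix d → ℤ) :
    ∑ α : Ix d → Bool, cc d * (chi α 1 j * qq α) =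
      ∏ i, ((-1) ^ (j i) * (ca' i - cb' i) + (ca' i + cb' i)) / 2 := by
  simp only [qq, chi_one_single]
  simp only [chi_one, ← Finset.prod_mul_distrib]
  simpa [sub_eq_add_neg] using sum_cc_prod (fun i b => (if b then (-1 : ℂ) ^ (j i) else 1) *
    (ca' i + cb' i * if b then -1 else 1))

lemma neg_one_zpow_cases (m : ℤ) : (-1 : ℂ) ^ m = 1 ∨ (-1 : ℂ) ^ m = -1 := by
  rcases Int.even_or_odd m with h | h
  · exact Or.inl h.neg_one_zpow
  · exact Or.inr h.neg_one_zpow

lemma norm_avg_le (j : Ix d → ℤ) : ‖∑ α : Ix d → Bool, cc d * chi α 1 j‖ +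
    ‖∑ α : Ix d → Bool, cc d * (chi α 1 j * qq α)‖ ≤ 1 := by
  rw [avg_chi, avg_chi_qq, Fintype.prod_option, Fintype.prod_option, norm_mul, norm_mul,
    norm_prod, norm_prod]
  have h1 : ∏ i : Fin d, ‖((-1 : ℂ) ^ (j (some i)) + 1) / 2‖ ≤ 1 :=
    Finset.prod_le_one (fun i _ => norm_nonneg _) fun i _ => by
      rcases neg_one_zpow_cases (j (some i)) with h | h <;> simp [h]
  have h2 : ∏ i : Fin d, ‖((-1 : ℂ) ^ (j (some i)) * (ca' (some i) - cb' (some i)) +
      (ca' (some i) + cb' (some i))) / 2‖ ≤ 1 :=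
    Finset.prod_le_one (fun i _ => norm_nonneg _) fun i _ => by
      rcases neg_one_zpow_cases (j (some i)) with h | h
      · have : ((-1 : ℂ) ^ (j (some i)) * (ca' (some i) - cb' (some i)) +
          (ca' (some i) + cb' (some i))) / 2 = 1 := by rw [h]; simp only [ca', cb']; ring
        rw [this]; simp
      · have : ((-1 : ℂ) ^ (j (some i)) * (ca' (some i) - cb' (some i)) +
          (ca' (some i) + cb' (some i))) / 2 = -I := by rw [h]; simp only [ca', cb']; ring
        rw [this]; simp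
  rcases neg_one_zpow_cases (j none) with h | h
  · simpa [h, ca', cb'] using h1
  · simpa [h, ca', cb'] using h2

lemma avg_chi_zero : ∑ α : Ix d → Bool, cc d * chi α 1 0 = 1 := by
  rw [avg_chi]; simp

lemma avg_chi_qq_zero : ∑ α : Ix d → Bool, cc d * (chi α 1 0 * qq α) = 0 := by
  rw [avg_chi_qq, Fintype.prod_option]; simp [ca', cb']

lemma exists_strip {c : ℝ} (hc : 0 < c) : ∃ U : Set ℂ, IsOpen U ∧ IsPreconnected U ∧ 0 ∈ U ∧
    1 ∈ U ∧ ∀ s ∈ U, π * |s.im| ≤ c ∧ ‖Complex.exp (π * I * s)‖ ≤ 2 ∧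
      ‖1 / 2 + I / 2 * Complex.exp (π * I * s)‖ ≤ 3 / 4 := by
  let V : Set ℂ := {s | π * |s.im| < c ∧ ‖Complex.exp (π * I * s)‖ < 2 ∧
      ‖1 / 2 + I / 2 * Complex.exp (π * I * s)‖ < 3 / 4}
  have hV : IsOpen V := by
    have a1 : IsOpen {s : ℂ | π * |s.im| < c} := isOpen_lt (by fun_prop) (by fun_prop)
    have a2 : IsOpen {s : ℂ | ‖Complex.exp (π * I * s)‖ < 2} :=
      isOpen_lt (by fun_prop) (by fun_prop)
    have a3 : IsOpen {s : ℂ | ‖1 / 2 + I / 2 * Complex.exp (π * I * s)‖ < 3 / 4} :=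
      isOpen_lt (by fun_prop) (by fun_prop)
    exact a1.inter (a2.inter a3)
  have hK : IsCompact (segment ℝ (0 : ℂ) 1) := by
    rw [segment_eq_image]; exact isCompact_Icc.image (by fun_prop)
  have hKV : segment ℝ (0 : ℂ) 1 ⊆ V := by
    rw [segment_eq_image]
    rintro _ ⟨x, ⟨hx0, hx1⟩, rfl⟩
    have e : ((1 - x) • (0 : ℂ) + x • (1 : ℂ)) = (x : ℂ) := by simp
    have e2 : (π * I * x : ℂ) = (π * x : ℝ) * I := by push_cast; ring
    simp only [V, Set.mem_ofPred_eq, e, e2]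
    refine ⟨by simpa using hc, by rw [Complex.norm_exp_ofReal_mul_I]; norm_num, ?_⟩
    have hs : 0 ≤ Real.sin (π * x) := Real.sin_nonneg_of_nonneg_of_le_pi (by positivity)
      (by nlinarith [Real.pi_pos])
    have h2 := Real.sin_sq_add_cos_sq (π * x)
    rw [Complex.exp_mul_I, ← Complex.ofReal_cos, ← Complex.ofReal_sin]
    generalize Real.sin (π * x) = a at hs h2
    generalize Real.cos (π * x) = b at h2
    have e3 : (1 / 2 + I / 2 * (b + a * I) : ℂ) = ((1 - a) / 2 : ℝ) + (b / 2 : ℝ) * I := by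
      push_cast; linear_combination (a / 2 : ℂ) * Complex.I_mul_I
    rw [e3, Complex.norm_add_mul_I, Real.sqrt_lt' (by norm_num)]
    nlinarith
  obtain ⟨ρ, hρ, hρV⟩ := hK.exists_thickening_subset_open hV hKV
  refine ⟨Metric.thickening ρ (segment ℝ (0 : ℂ) 1), Metric.isOpen_thickening,
    ((convex_segment _ _).thickening ρ).isPreconnected,
    Metric.self_subset_thickening hρ _ (left_mem_segment _ _ _),
    Metric.self_subset_thickening hρ _ (right_mem_segment _ _ _), fun s hs => ?_⟩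
  obtain ⟨h1, h2, h3⟩ := hρV hs
  exact ⟨h1.le, h2.le, h3.le⟩

lemma norm_pp_le (α : Ix d → Bool) {s : ℂ} (h2 : ‖Complex.exp (π * I * s)‖ ≤ 2)
    (h3 : ‖1 / 2 + I / 2 * Complex.exp (π * I * s)‖ ≤ 3 / 4) : ‖pp α s‖ ≤ 2 * (3 / 4) ^ d := by
  rw [pp, Fintype.prod_option, norm_mul, norm_prod]
  have h4 : ‖(1 / 2 + I / 2 : ℂ)‖ ≤ 3 / 4 := by
    have e3 : (1 / 2 + I / 2 : ℂ) = ((1 / 2 : ℝ) : ℂ) + (1 / 2 : ℝ) * I := by push_cast; ring
    rw [e3, Complex.norm_add_mul_I, Real.sqrt_le_left (by norm_num)]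
    norm_num
  gcongr
  · rw [chi_single]; split_ifs
    · simpa [ca, cb] using h2
    · simp [ca, cb]
  · refine (Finset.prod_le_prod (g := fun _ => (3 / 4 : ℝ)) (fun i _ => norm_nonneg _)
      fun i _ => ?_).trans (by simp [div_pow])
    rw [chi_single]; split_ifs
    · exact h3
    · simpa [ca, cb] using h4

end Pool.Agent.Lib.MP_9053f7_an
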