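import Pool.Agent.Lib.MP_9053f7_an.FDAlg
import Pool.Agent.Lib.MP_9053f7_an.Scalars
import Pool.Agent.Lib.MP_9053f7_an.Analytic

namespace Pool.Agent.Lib.MP_9053f7_an

open AddMonoidAlgebra Complex Filter Topology

section TTl

variable {A : Type} [NormedCommRing A] {S : Type}

noncomputable def TTl (q : AddMonoidAlgebra A S) : (S → A) →ₗ[A] A where
  toFun t := TT t q
  map_add' t t' := by
    induction q using AddMonoidAlgebra.induction_linear with
    | zero => simp
    | add f g hf hg => simp only [map_add, hf, hg]; ring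
    | single s a => simp [mul_add]
  map_smul' c t := by
    induction q using AddMonoidAlgebra.induction_linear with
    | zero => simp
    | add f g hf hg => simp only [map_add, hf, hg, smul_add]
    | single s a => simp [mul_left_comm]

lemma TTl_apply (q : AddMonoidAlgebra A S) (t : S → A) : TTl q t = TT t q := rfl

end TTl

variable {A : FDAlg} (w : A) (ε : ℝ) {d : ℕ}

noncomputable def zz (α : Ix d → Bool) (s : ℂ) : A :=
  (ε : ℂ)⁻¹ • (w - algebraMap ℂ A (pp α s))

noncomputable def ff (α : Ix d → Bool) (x : Mon d) (s : ℂ) : A :=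
  chi α s x.1 • zz w ε α s ^ x.2

noncomputable def evH (α : Ix d → Bool) (s : ℂ) : AddMonoidAlgebra A (Mon d) →ₐ[A] A :=
  AddMonoidAlgebra.lift A A (Mon d)
    { toFun := fun x => ff w ε α x.toAdd s
      map_one' := by simp [ff, chi_zero]
      map_mul' := fun x y => by
        simp only [ff, toAdd_mul, Prod.fst_add, Prod.snd_add, chi_add, pow_add, smul_mul_smul_comm] }

lemma evH_single (α : Ix d → Bool) (s : ℂ) (x : Mon d) (a : A) :
    evH w ε α s (single x a) = a * ff w ε α x s := by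
  simp [evH]

lemma TT_ff (α : Ix d → Bool) (s : ℂ) (q : AddMonoidAlgebra A (Mon d)) :
    TT (fun x => ff w ε α x s) q = evH w ε α s q := by
  induction q using AddMonoidAlgebra.induction_linear with
  | zero => simp
  | add f g hf hg => simp only [map_add, hf, hg]
  | single x a => rw [TT_single, evH_single]

variable (A) in
noncomputable def gg (i : Ix d) : AddMonoidAlgebra A (Mon d) := single (Pi.single i 1, 0) 1

variable (A) in
noncomputable def gi (i : Ix d) : AddMonoidAlgebra A (Mon d) := single (-Pi.single i 1, 0) 1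

variable (A d) in
noncomputable def ZZ : AddMonoidAlgebra A (Mon d) := single (0, 1) 1

variable (A d) in
noncomputable def PP : AddMonoidAlgebra A (Mon d) :=
  ∏ i : Ix d, (algebraMap ℂ _ (ca i) + algebraMap ℂ _ (cb i) * gg A i)

variable (d) in
noncomputable def X0 : AddMonoidAlgebra A (Mon d) := (ε : ℂ) • ZZ A d - single 0 w + PP A d

lemma gg_mul_gi (i : Ix d) : gg A i * gi A i = 1 := by
  simp [gg, gi, single_mul_single, one_def, Prod.mk_zero_zero]

lemma evH_algebraMap (α : Ix d → Bool) (s : ℂ) (c : ℂ) :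
    evH w ε α s (algebraMap ℂ _ c) = algebraMap ℂ A c :=
  ((evH w ε α s).restrictScalars ℂ).commutes c

lemma evH_gg (α : Ix d → Bool) (s : ℂ) (i : Ix d) :
    evH w ε α s (gg A i) = algebraMap ℂ A (chi α s (Pi.single i 1)) := by
  simp [gg, evH_single, ff, Algebra.algebraMap_eq_smul_one]

lemma evH_X0 (hε : ε ≠ 0) (α : Ix d → Bool) (s : ℂ) : evH w ε α s (X0 w ε d) = 0 := by
  have h1 : evH w ε α s (PP A d) = algebraMap ℂ A (pp α s) := by
    simp only [PP, pp, map_prod, map_add, map_mul, evH_algebraMap, evH_gg]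
  have h2 : evH w ε α s ((ε : ℂ) • ZZ A d) = w - algebraMap ℂ A (pp α s) := by
    have hε' : (ε : ℂ) ≠ 0 := by exact_mod_cast hε
    rw [Algebra.smul_def, map_mul, evH_algebraMap, ZZ, evH_single, ← Algebra.smul_def]
    simp [ff, chi_zero, zz, smul_smul, hε']
  rw [X0, map_add, map_sub, h1, h2, evH_single]
  simp [ff, chi_zero]

lemma differentiable_ff (α : Ix d → Bool) (x : Mon d) : Differentiable ℂ (ff w ε α x) := by
  have h1 := differentiable_chi α x.1
  have h2 := differentiable_pp α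
  have h3 : Differentiable ℂ (zz w ε α) := by
    unfold zz
    simp only [Algebra.algebraMap_eq_smul_one]
    fun_prop
  unfold ff
  fun_prop

lemma differentiable_evH (α : Ix d → Bool) (q : AddMonoidAlgebra A (Mon d)) :
    Differentiable ℂ fun s => evH w ε α s q := by
  induction q using AddMonoidAlgebra.induction_linear with
  | zero => simp
  | add f g hf hg => simp only [map_add]; exact hf.fun_add hg
  | single x a =>
    simp only [evH_single]
    exact (differentiable_ff w ε α x).const_mul a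

lemma TT_jet (α : Ix d → Bool) (m : ℕ) (q : AddMonoidAlgebra A (Mon d)) :
    TT (fun x => iteratedDeriv m (ff w ε α x) 0) q =
      iteratedDeriv m (fun s => evH w ε α s q) 0 := by
  induction q using AddMonoidAlgebra.induction_linear with
  | zero => simp
  | add f g hf hg =>
    simp only [map_add, hf, hg]
    rw [iteratedDeriv_fun_add ((differentiable_evH w ε α f).contDiff.contDiffAt)
      ((differentiable_evH w ε α g).contDiff.contDiffAt)]
  | single x a =>
    simp only [evH_single, TT_single]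
    exact (iteratedDeriv_clm (ContinuousLinearMap.mul ℂ A a)
      ((differentiable_ff w ε α x).analyticAt 0) m).symm

variable (d) in
def WW : Submodule A (Mon d → A) where
  carrier := {t | (∀ q, TT t (X0 w ε d * q) = 0) ∧
    ∃ M, ∀ m ≥ M, ∀ i q, TT t ((gg A i - 1) ^ m * q) = 0}
  add_mem' := by
    rintro t t' ⟨h1, M, h2⟩ ⟨h1', M', h2'⟩
    refine ⟨fun q => ?_, max M M', fun m hm i q => ?_⟩
    · rw [← TTl_apply, map_add, TTl_apply, TTl_apply, h1, h1', add_zero]
    · rw [← TTl_apply, map_add, TTl_apply, TTl_apply, h2 m (le_of_max_le_left hm),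
        h2' m (le_of_max_le_right hm), add_zero]
  zero_mem' := ⟨fun q => by rw [← TTl_apply, map_zero], 0, fun m _ i q => by
    rw [← TTl_apply, map_zero]⟩
  smul_mem' := by
    rintro c t ⟨h1, M, h2⟩
    refine ⟨fun q => ?_, M, fun m hm i q => ?_⟩
    · rw [← TTl_apply, map_smul, TTl_apply, h1, smul_zero]
    · rw [← TTl_apply, map_smul, TTl_apply, h2 m hm, smul_zero]

lemma jet_mem_WW (hε : ε ≠ 0) (α : Ix d → Bool) (m : ℕ) :
    (fun x => iteratedDeriv m (ff w ε α x) 0) ∈ WW w ε d := by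
  refine ⟨fun q => ?_, m + 1, fun M hM i q => ?_⟩
  · rw [TT_jet]
    simp [evH_X0 w ε hε]
  · rw [TT_jet]
    have a1 : AnalyticAt ℂ (fun s => chi α s (Pi.single i 1) - 1) 0 :=
      ((differentiable_chi α _).sub_const 1).analyticAt 0
    obtain ⟨h, hh, hh'⟩ := (natCast_le_analyticOrderAt a1 (n := 1)).1
      ((natCast_le_analyticOrderAt_iff_iteratedDeriv_eq_zero a1).2 fun k hk => by
        have : k = 0 := by omega
        subst this
        simp [chi_at_zero])
    have a2 := (differentiable_evH w ε α ((gg A i - 1) ^ M * q)).analyticAt 0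
    refine (natCast_le_analyticOrderAt_iff_iteratedDeriv_eq_zero a2 (n := M)).1 ?_ m (by omega)
    rw [natCast_le_analyticOrderAt a2]
    refine ⟨fun s => h s ^ M • evH w ε α s q,
      (hh.pow M).smul ((differentiable_evH w ε α q).analyticAt 0), ?_⟩
    filter_upwards [hh'] with s hs
    rw [map_mul, map_pow, map_sub, evH_gg, map_one, ← map_one (algebraMap ℂ A), ← map_sub, hs,
      ← map_pow, ← Algebra.smul_def, smul_smul]
    simp [mul_pow]

variable {w ε}

lemma sub_pow_succ (hw : w * w = 0) (μ : ℂ) (k : ℕ) : (w - algebraMap ℂ A μ) ^ (k + 1) =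
    algebraMap ℂ A ((-μ) ^ (k + 1)) + (((k + 1 : ℕ) : ℂ) * (-μ) ^ k) • w := by
  induction k with
  | zero => simp [sub_eq_neg_add]
  | succ k ih =>
    rw [pow_succ, ih]
    simp only [Algebra.smul_def, map_mul, map_pow, map_neg, map_natCast]
    push_cast
    linear_combination ((k + 1 : A) * (-algebraMap ℂ A μ) ^ k) * hw

lemma norm_zz_pow_le (hw : w * w = 0) (hw1 : ‖w‖ ≤ 1) (hε : 0 < ε) {α : Ix d → Bool} {s : ℂ}
    (hp : ‖pp α s‖ ≤ ε / 2) (k : ℕ) : ‖zz w ε α s ^ k‖ ≤ 1 + 1 / ε := by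
  rcases k with _ | k
  · simp [hε.le]
  · rw [zz, smul_pow, sub_pow_succ hw, norm_smul, norm_pow, norm_inv, Complex.norm_real,
      Real.norm_of_nonneg hε.le, inv_pow, inv_mul_le_iff₀ (by positivity)]
    refine (norm_add_le _ _).trans ?_
    rw [norm_algebraMap', norm_smul, norm_mul, norm_pow, norm_pow, norm_neg, Complex.norm_natCast]
    have h1 : ‖pp α s‖ ^ (k + 1) ≤ ε ^ (k + 1) := by gcongr; linarith
    have h2 : ((k + 1 : ℕ) : ℝ) ≤ 2 ^ k := by exact_mod_cast Nat.lt_two_pow_self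
    have h3 : ((k + 1 : ℕ) : ℝ) * ‖pp α s‖ ^ k * ‖w‖ ≤ 2 ^ k * (ε / 2) ^ k * 1 := by gcongr
    have h4 : (2 : ℝ) ^ k * (ε / 2) ^ k * 1 = ε ^ (k + 1) * (1 / ε) := by
      rw [← mul_pow]; field_simp; ring
    linarith

variable (w ε) in
noncomputable def KK (α : Ix d → Bool) : A := cc d • (1 + qq α • w)

variable (w ε d) in
noncomputable def T0 : Mon d → A := ∑ α : Ix d → Bool, KK w α • fun x => ff w ε α x 1

lemma T0_apply (x : Mon d) : T0 w ε d x = ∑ α : Ix d → Bool, KK w α * ff w ε α x 1 := by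
  simp [T0]

lemma TT_T0 (q : AddMonoidAlgebra A (Mon d)) :
    TT (T0 w ε d) q = ∑ α : Ix d → Bool, KK w α * evH w ε α 1 q := by
  rw [← TTl_apply, T0, map_sum]
  simp only [map_smul, TTl_apply, TT_ff, smul_eq_mul]

lemma T0_fst (j : Ix d → ℤ) : T0 w ε d (j, 0) =
    (∑ α : Ix d → Bool, cc d * chi α 1 j) • (1 : A) +
      (∑ α : Ix d → Bool, cc d * (chi α 1 j * qq α)) • w := by
  rw [T0_apply, Finset.sum_smul, Finset.sum_smul, ← Finset.sum_add_distrib]
  refine Finset.sum_congr rfl fun α _ => ?_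
  simp only [KK, ff, pow_zero, Algebra.smul_def, map_mul]
  ring

lemma T0_zero : T0 w ε d 0 = 1 := by
  rw [← Prod.mk_zero_zero, T0_fst, avg_chi_zero, avg_chi_qq_zero]; simp

lemma norm_T0_fst_le (hw1 : ‖w‖ ≤ 1) (j : Ix d → ℤ) : ‖T0 w ε d (j, 0)‖ ≤ 1 := by
  rw [T0_fst]
  refine (norm_add_le _ _).trans (le_trans ?_ (norm_avg_le j))
  rw [norm_smul, norm_smul, norm_one, mul_one]
  gcongr
  exact mul_le_of_le_one_right (norm_nonneg _) hw1

lemma norm_chi_one (α : Ix d → Bool) (j : Ix d → ℤ) : ‖chi α 1 j‖ ≤ 1 := by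
  simpa using norm_chi_le α (s := 1) (c := 0) (by simp) j

lemma norm_T0_succ_le (hw : w * w = 0) (hw1 : ‖w‖ ≤ 1) (hε : 0 < ε)
    (hp : ∀ α : Ix d → Bool, ‖pp α 1‖ ≤ ε / 2 / (1 + 1 / ε)) (j : Ix d → ℤ) (k : ℕ) :
    ‖T0 w ε d (j, k + 1)‖ ≤ 1 / 2 := by
  have hC : 1 ≤ 1 + 1 / ε := le_add_of_nonneg_right (by positivity)
  rw [T0_apply]
  refine (norm_sum_le_of_le (n := fun _ => ‖cc d‖ * (1 / 2)) _ fun α _ => ?_).trans ?_
  · have h1 : (1 + qq α • w) * (w - algebraMap ℂ A (pp α 1)) = -algebraMap ℂ A (pp α 1) := by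
      have h2 : algebraMap ℂ A (qq α) * algebraMap ℂ A (pp α 1) = 1 := by
        rw [← map_mul, qq_mul_pp, map_one]
      rw [Algebra.smul_def]
      linear_combination (algebraMap ℂ A (qq α)) * hw - w * h2
    have h3 : KK w α * ff w ε α (j, k + 1) 1 =
        (cc d * chi α 1 j * (ε : ℂ)⁻¹ * (-pp α 1)) • zz w ε α 1 ^ k := by
      have : (1 + qq α • w) * zz w ε α 1 = ((ε : ℂ)⁻¹ * (-pp α 1)) • (1 : A) := by
        rw [zz, mul_smul_comm, h1, ← map_neg, Algebra.algebraMap_eq_smul_one, smul_smul]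
      simp only [KK, ff, pow_succ', smul_mul_smul_comm]
      rw [← mul_assoc, this, smul_mul_assoc, one_mul, smul_smul]
      congr 1; ring
    rw [h3, norm_smul, norm_mul, norm_mul, norm_mul, norm_neg, norm_inv, Complex.norm_real,
      Real.norm_of_nonneg hε.le]
    have h4 := norm_zz_pow_le hw hw1 hε ((hp α).trans (div_le_self (by positivity) hC)) k
    calc _ ≤ ‖cc d‖ * 1 * ε⁻¹ * (ε / 2 / (1 + 1 / ε)) * (1 + 1 / ε) := by
          gcongr
          · exact norm_chi_one α j
          · exact hp α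
      _ = _ := by field_simp
  · rw [← Finset.sum_mul, sum_norm_cc, one_mul]

lemma exists_dim {δ : ℝ} (hδ : 0 < δ) : ∃ d : ℕ, 2 * (3 / 4 : ℝ) ^ d ≤ δ := by
  obtain ⟨d, hd⟩ := exists_pow_lt_of_lt_one (half_pos hδ) (by norm_num : (3 / 4 : ℝ) < 1)
  exact ⟨d, by linarith⟩

lemma gen_mem {R : Type} [CommRing R] [Algebra ℂ R] (π : AddMonoidAlgebra A (Mon d) →ₐ[ℂ] R)
    (hε : ε ≠ 0) (hX : π (X0 w ε d) = 0) (U : Subalgebra ℂ R) (hw : π (single 0 w) ∈ U)
    (hg : ∀ i, π (gg A i) ∈ U) (hg' : ∀ i, π (gi A i) ∈ U) (x : Mon d) :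
    π (single x 1) ∈ U := by
  obtain ⟨j, k⟩ := x
  have hP : π (PP A d) ∈ U := by
    rw [PP, map_prod]
    refine U.prod_mem fun i _ => ?_
    rw [map_add, map_mul, AlgHom.commutes, AlgHom.commutes]
    exact U.add_mem (U.algebraMap_mem _) (U.mul_mem (U.algebraMap_mem _) (hg i))
  have hZ : π (ZZ A d) ∈ U := by
    have hε' : (ε : ℂ) ≠ 0 := by exact_mod_cast hε
    have : π (ZZ A d) = (ε : ℂ)⁻¹ • (π (single 0 w) - π (PP A d)) := by
      rw [X0, map_add, map_sub, map_smul] at hX
      rw [eq_inv_smul_iff₀ hε']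
      linear_combination hX
    rw [this]
    exact U.smul_mem (U.sub_mem hw hP) _
  have e : (single (j, k) 1 : AddMonoidAlgebra A (Mon d)) = single (j, 0) 1 * ZZ A d ^ k := by
    simp [ZZ, single_pow, single_mul_single]
  rw [e, map_mul, map_pow]
  refine U.mul_mem ?_ (U.pow_mem hZ k)
  have hadd : ∀ j j' : Ix d → ℤ, π (single (j, 0) 1) ∈ U → π (single (j', 0) 1) ∈ U →
      π (single (j + j', 0) 1) ∈ U := by
    intro j j' h h'
    have := U.mul_mem h h'
    rwa [← map_mul, single_mul_single, one_mul] at this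
  have h0 : π (single ((0 : Ix d → ℤ), 0) 1) ∈ U := by
    rw [Prod.mk_zero_zero, ← one_def, map_one]; exact U.one_mem
  refine Pi.single_induction (fun j => π (single (j, 0) 1) ∈ U) j h0 hadd fun i m => ?_
  induction m using Int.induction_on with
  | zero => simpa using h0
  | succ m ih => rw [Pi.single_add]; exact hadd _ _ ih (hg i)
  | pred m ih => rw [sub_eq_add_neg, Pi.single_add, Pi.single_neg i 1]; exact hadd _ _ ih (hg' i)

lemma sub_PP_eq {R : Type} [CommRing R] [Algebra ℂ R] (π : AddMonoidAlgebra A (Mon d) →ₐ[ℂ] R)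
    (hX : π (X0 w ε d) = 0) : π (single 0 w) - π (PP A d) = (ε : ℂ) • π (ZZ A d) := by
  rw [X0, map_add, map_sub, map_smul] at hX
  linear_combination -hX

end Pool.Agent.Lib.MP_9053f7_an
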