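import Mathlib

namespace Pool.Agent.Lib.MP_9053f7_an

open scoped TensorProduct
open WeakDual

universe u

/-- The projective tensor norm on the algebraic tensor product. -/
noncomputable def projNorm {E F : Type*} [NormedAddCommGroup E] [NormedSpace ℂ E]
    [NormedAddCommGroup F] [NormedSpace ℂ F] (t : E ⊗[ℂ] F) : ℝ :=
  sInf {r : ℝ | ∃ (n : ℕ) (a : Fin n → E) (b : Fin n → F),
    t = ∑ i, a i ⊗ₜ[ℂ] b i ∧ r = ∑ i, ‖a i‖ * ‖b i‖}

variable {A B : Type*} [NormedCommRing A] [NormedAlgebra ℂ A] [CompleteSpace A]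
  [NormedCommRing B] [NormedAlgebra ℂ B] [CompleteSpace B]

/-- `j` presents the Banach algebra `B` as the completion of `A ⊗ A` in the projective norm. -/
def IsProjTensor (j : A ⊗[ℂ] A →ₐ[ℂ] B) : Prop :=
  DenseRange j ∧ ∀ t, ‖j t‖ = projNorm t

variable (A) in
/-- The characters separate the points of `A`. -/
def IsSemisimpleBA : Prop :=
  ∀ a : A, (∀ φ : characterSpace ℂ A, φ a = 0) → a = 0

variable (A) in
/-- Regularity on the Gelfand spectrum. -/
def IsRegularBA : Prop :=
  ∀ E : Set (characterSpace ℂ A), IsClosed E → ∀ φ : characterSpace ℂ A, φ ∉ E →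
    ∃ a : A, φ a = 1 ∧ ∀ ψ ∈ E, ψ a = 0

section Bimodule

variable {X : Type*} [NormedAddCommGroup X] [NormedSpace ℂ X]

/-- `X` is a Banach `A`-bimodule with `a • x = l a x` and `x • a = r a x`. -/
def IsBimodule (l r : A → X → X) : Prop :=
  IsBoundedBilinearMap ℂ (fun p : A × X => l p.1 p.2) ∧
    IsBoundedBilinearMap ℂ (fun p : A × X => r p.1 p.2) ∧
    (∀ a b x, l (a * b) x = l a (l b x)) ∧ (∀ a b x, r (a * b) x = r b (r a x)) ∧
    ∀ a b x, l a (r b x) = r b (l a x)

/-- Bounded derivation into the dual bimodule, where `a • f = f ∘ r a` and `f • a = f ∘ l a`. -/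
def IsDerivation (l r : A → X → X) (D : A → X →L[ℂ] ℂ) : Prop :=
  IsBoundedLinearMap ℂ D ∧ ∀ a b x, D (a * b) x = D b (r a x) + D a (l b x)

/-- `D a = a • f - f • a` for some `f` in the dual bimodule. -/
def IsInner (l r : A → X → X) (D : A → X →L[ℂ] ℂ) : Prop :=
  ∃ f : X →L[ℂ] ℂ, ∀ a x, D a x = f (r a x) - f (l a x)

end Bimodule

variable (A) in
/-- Every bounded derivation into the dual of a Banach bimodule is inner. -/
def IsAmenableBA : Prop :=
  ∀ (X : Type u) [NormedAddCommGroup X] [NormedSpace ℂ X] [CompleteSpace X] (l r : A → X → X),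
    IsBimodule l r → ∀ D : A → X →L[ℂ] ℂ, IsDerivation l r D → IsInner l r D

/-- The Gelfand transform. -/
noncomputable def gelfand (u : B) : characterSpace ℂ B → ℂ := fun χ => χ u

variable (B) in
/-- The closure of the elements with support disjoint from `E` is the ideal of all elements
vanishing on `E`. -/
def IsSpectralSet (E : Set (characterSpace ℂ B)) : Prop :=
  closure {u : B | Disjoint (tsupport (gelfand u)) E} = {u : B | ∀ χ ∈ E, gelfand u χ = 0}

/-- The diagonal of the spectrum of the tensor product. -/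
def diagonal (j : A ⊗[ℂ] A →ₐ[ℂ] B) : Set (characterSpace ℂ B) :=
  {χ | ∃ φ : characterSpace ℂ A, ∀ a b : A, χ (j (a ⊗ₜ[ℂ] b)) = φ a * φ b}

end Pool.Agent.Lib.MP_9053f7_an
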