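import Pool.Agent.Lib.MP_9053f7_an.PTensor

namespace Pool.Agent.Lib.MP_9053f7_an

open scoped TensorProduct
open PT Algebra.TensorProduct

variable {R : Type*} [NormedCommRing R] [NormedAlgebra ℂ R]

lemma norm_lmul'_le (t : R ⊗[ℂ] R) : ‖lmul' ℂ t‖ ≤ ‖t‖ := by
  have := norm_map_le (lmul' ℂ (S := R)).toLinearMap zero_le_one (fun a b => by
    simpa using norm_mul_le a b) t
  simpa using this

namespace PT

scoped instance instNormOneClass [NormOneClass R] : NormOneClass (R ⊗[ℂ] R) :=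
  ⟨le_antisymm (by simpa [one_def] using norm_tmul_le (1 : R) (1 : R))
    (by simpa using norm_lmul'_le (1 : R ⊗[ℂ] R))⟩

end PT

noncomputable def dl : R →ₗ[ℂ] R ⊗[ℂ] R where
  toFun x := x ⊗ₜ[ℂ] 1 - 1 ⊗ₜ[ℂ] x
  map_add' x y := by rw [TensorProduct.add_tmul, TensorProduct.tmul_add]; abel
  map_smul' c x := by simp [smul_sub, TensorProduct.smul_tmul']

lemma dl_apply (x : R) : dl x = x ⊗ₜ[ℂ] 1 - 1 ⊗ₜ[ℂ] x := rfl

lemma dl_one : dl (1 : R) = 0 := by simp [dl_apply]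

lemma dl_mul (x y : R) : dl (x * y) = (x ⊗ₜ[ℂ] 1) * dl y + (1 ⊗ₜ[ℂ] y) * dl x := by
  simp only [dl_apply, mul_sub, tmul_mul_tmul, mul_one, one_mul, mul_comm y x]
  abel

lemma map_dl {R' : Type*} [NormedCommRing R'] [NormedAlgebra ℂ R'] (f : R →ₐ[ℂ] R') (x : R) :
    Algebra.TensorProduct.map f f (dl x) = dl (f x) := by
  simp [dl_apply]

lemma lmul'_map {R' : Type*} [NormedCommRing R'] [NormedAlgebra ℂ R'] (f : R →ₐ[ℂ] R')
    (t : R ⊗[ℂ] R) : lmul' ℂ (Algebra.TensorProduct.map f f t) = f (lmul' ℂ t) := by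
  induction t using TensorProduct.induction_on with
  | zero => simp
  | tmul a b => simp
  | add s t hs ht => simp [hs, ht]

lemma norm_algMap_le {R' : Type*} [NormedCommRing R'] [NormedAlgebra ℂ R'] (f : R →ₐ[ℂ] R')
    (hf : ∀ a, ‖f a‖ ≤ ‖a‖) (t : R ⊗[ℂ] R) : ‖Algebra.TensorProduct.map f f t‖ ≤ ‖t‖ := by
  have := norm_map_le (Algebra.TensorProduct.map f f).toLinearMap zero_le_one (fun a b => by
    simp only [AlgHom.toLinearMap_apply, map_tmul, one_mul]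
    exact (norm_tmul_le _ _).trans (by gcongr <;> exact hf _)) t
  rwa [one_mul] at this

variable [NormOneClass R]

lemma norm_dl_le (x : R) : ‖dl x‖ ≤ 2 * ‖x‖ := by
  rw [dl_apply]
  have h1 := norm_tmul_le x (1 : R)
  have h2 := norm_tmul_le (1 : R) x
  simp only [norm_one, mul_one, one_mul] at h1 h2
  linarith [norm_sub_le (x ⊗ₜ[ℂ] (1 : R)) (1 ⊗ₜ[ℂ] x)]

lemma norm_dl_mul_le (x y : R) (d : R ⊗[ℂ] R) :
    ‖dl (x * y) * d‖ ≤ ‖x‖ * ‖dl y * d‖ + ‖y‖ * ‖dl x * d‖ := by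
  rw [dl_mul, add_mul, mul_assoc, mul_assoc]
  refine (norm_add_le _ _).trans (add_le_add ?_ ?_)
  · refine (norm_mul_le _ _).trans ?_
    gcongr
    simpa using norm_tmul_le x (1 : R)
  · refine (norm_mul_le _ _).trans ?_
    gcongr
    simpa using norm_tmul_le (1 : R) y

lemma norm_prod_le_pow {R : Type*} [SeminormedCommRing R] [NormOneClass R] {κ : Type*}
    (F : Finset κ) (x : κ → R) {B : ℝ} (h : ∀ i ∈ F, ‖x i‖ ≤ B) :
    ‖∏ i ∈ F, x i‖ ≤ B ^ F.card := by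
  classical
  induction F using Finset.induction_on with
  | empty => simp
  | insert i F hi ih =>
    rw [Finset.prod_insert hi, Finset.card_insert_of_notMem hi, pow_succ']
    have h1 := ih (fun j hj => h j (Finset.mem_insert_of_mem hj))
    have h2 := h i (Finset.mem_insert_self _ _)
    have h3 : 0 ≤ B := (norm_nonneg _).trans h2
    exact (norm_mul_le _ _).trans (by gcongr)

lemma norm_dl_prod_le {κ : Type*} (F : Finset κ) (x : κ → R) (d : R ⊗[ℂ] R) {B η : ℝ}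
    (hB : 1 ≤ B) (hη : 0 ≤ η) (h : ∀ i ∈ F, ‖x i‖ ≤ B) (h' : ∀ i ∈ F, ‖dl (x i) * d‖ ≤ η) :
    ‖dl (∏ i ∈ F, x i) * d‖ ≤ F.card * B ^ F.card * η := by
  classical
  induction F using Finset.induction_on with
  | empty => simp [dl_one]
  | insert i F hi ih =>
    rw [Finset.prod_insert hi, Finset.card_insert_of_notMem hi]
    have h1 := ih (fun j hj => h j (Finset.mem_insert_of_mem hj))
      (fun j hj => h' j (Finset.mem_insert_of_mem hj))
    have h2 := norm_prod_le_pow F x (fun j hj => h j (Finset.mem_insert_of_mem hj))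
    have h3 := h i (Finset.mem_insert_self _ _)
    have h4 := h' i (Finset.mem_insert_self _ _)
    have hp : 0 ≤ B ^ F.card := by positivity
    refine (norm_dl_mul_le _ _ _).trans ?_
    calc _ ≤ B * (F.card * B ^ F.card * η) + B ^ F.card * η := by gcongr
      _ ≤ B * (F.card * B ^ F.card * η) + B * (B ^ F.card * η) := by
          exact add_le_add le_rfl (le_mul_of_one_le_left (by positivity) hB)
      _ = _ := by push_cast; ring

lemma exists_prod_diag {κ : Type*} [Fintype κ] (x : κ → R) (d : κ → R ⊗[ℂ] R) {B η : ℝ}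
    (hB : 1 ≤ B) (h1 : ∀ i, lmul' ℂ (d i) = 1) (h2 : ∀ i, ‖d i‖ ≤ B)
    (h3 : ∀ i, ‖dl (x i) * d i‖ ≤ η) :
    ∃ D : R ⊗[ℂ] R, lmul' ℂ D = 1 ∧ ‖D‖ ≤ B ^ Fintype.card κ ∧
      ∀ i, ‖dl (x i) * D‖ ≤ η * B ^ Fintype.card κ := by
  classical
  refine ⟨∏ i, d i, by simp [map_prod, h1], norm_prod_le_pow _ _ fun i _ => h2 i, fun i => ?_⟩
  rw [← Finset.mul_prod_erase _ _ (Finset.mem_univ i), ← mul_assoc]
  refine (norm_mul_le _ _).trans ?_
  have hη : 0 ≤ η := (norm_nonneg _).trans (h3 i)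
  have h4 := norm_prod_le_pow (Finset.univ.erase i) d (fun j _ => h2 j)
  have h5 : B ^ (Finset.univ.erase i).card ≤ B ^ Fintype.card κ :=
    pow_le_pow_right₀ hB (Finset.card_le_univ _)
  gcongr
  · exact h3 i
  · exact h4.trans h5

lemma exists_unit_diag (g g' : R) (hg : g * g' = 1) {θ : ℝ} (hθ : 1 ≤ θ) (h1 : ‖g‖ ≤ θ)
    (h2 : ‖g'‖ ≤ θ) {N : ℕ} (hN : 0 < N) :
    ∃ d : R ⊗[ℂ] R, lmul' ℂ d = 1 ∧ ‖d‖ ≤ θ ^ (2 * N) ∧
      ‖dl g * d‖ ≤ 2 * θ * θ ^ (2 * N) / N := by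
  set x : R ⊗[ℂ] R := g ⊗ₜ[ℂ] g' with hx
  have hxn : ‖x‖ ≤ θ ^ 2 := (norm_tmul_le _ _).trans (by rw [pow_two]; gcongr)
  have hxp : ∀ m ≤ N, ‖x ^ m‖ ≤ θ ^ (2 * N) := fun m hm => by
    calc ‖x ^ m‖ ≤ ‖x‖ ^ m := norm_pow_le _ _
      _ ≤ (θ ^ 2) ^ m := by gcongr
      _ ≤ θ ^ (2 * N) := by rw [← pow_mul]; exact pow_le_pow_right₀ hθ (by omega)
  have hN' : (0 : ℝ) < N := by exact_mod_cast hN
  have hNc : (N : ℂ) ≠ 0 := by exact_mod_cast hN.ne'
  refine ⟨(N : ℂ)⁻¹ • ∑ m ∈ Finset.range N, x ^ m, ?_, ?_, ?_⟩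
  · simp only [map_smul, map_sum, map_pow, hx, lmul'_apply_tmul, hg, one_pow, Finset.sum_const,
      Finset.card_range]
    rw [← Nat.cast_smul_eq_nsmul ℂ, smul_smul, inv_mul_cancel₀ hNc, one_smul]
  · rw [norm_smul, norm_inv, Complex.norm_natCast, inv_mul_le_iff₀ hN']
    refine (norm_sum_le_of_le _ fun m hm => hxp m (Finset.mem_range.1 hm).le).trans ?_
    simp
  · have e : dl g = (1 ⊗ₜ[ℂ] g) * (x - 1) := by
      rw [dl_apply, mul_sub, hx, tmul_mul_tmul, hg]; simp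
    rw [mul_smul_comm, e, mul_assoc, mul_geom_sum, norm_smul, norm_inv, Complex.norm_natCast,
      ← div_eq_inv_mul]
    gcongr
    refine (norm_mul_le _ _).trans ?_
    have a1 : ‖(1 : R) ⊗ₜ[ℂ] g‖ ≤ θ := (norm_tmul_le _ _).trans (by simpa using h1)
    have a2 : ‖x ^ N - 1‖ ≤ 2 * θ ^ (2 * N) := by
      have := hxp N le_rfl
      have := hxp 0 (Nat.zero_le _)
      rw [pow_zero] at this
      linarith [norm_sub_le (x ^ N) 1]
    calc _ ≤ θ * (2 * θ ^ (2 * N)) := by gcongr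
      _ = _ := by ring

end Pool.Agent.Lib.MP_9053f7_an
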