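import Pool.Agent.Lib.MP_9053f7_an.L1Ext

namespace Pool.Agent.Lib.MP_9053f7_an

open AddMonoidAlgebra

structure FDAlg where
  carrier : Type
  [ring : NormedCommRing carrier]
  [alg : NormedAlgebra ℂ carrier]
  [one : NormOneClass carrier]
  [fd : FiniteDimensional ℂ carrier]

attribute [instance] FDAlg.ring FDAlg.alg FDAlg.one FDAlg.fd

instance : CoeSort FDAlg Type := ⟨FDAlg.carrier⟩

instance (A : FDAlg) : CompleteSpace A := FiniteDimensional.complete ℂ A

structure Ext (A A' : FDAlg) where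
  ι : A →ₐ[ℂ] A'
  T : A' →ₗ[ℂ] A
  norm_ι_le : ∀ a, ‖ι a‖ ≤ ‖a‖
  norm_T_le : ∀ x, ‖T x‖ ≤ ‖x‖
  T_ι : ∀ a, T (ι a) = a

lemma Ext.norm_ι {A A' : FDAlg} (e : Ext A A') (a : A) : ‖e.ι a‖ = ‖a‖ :=
  le_antisymm (e.norm_ι_le a) (by simpa [e.T_ι] using e.norm_T_le (e.ι a))

noncomputable def Ext.refl (A : FDAlg) : Ext A A :=
  ⟨AlgHom.id ℂ A, LinearMap.id, fun _ => le_rfl, fun _ => le_rfl, fun _ => rfl⟩

noncomputable def Ext.trans {A A' A'' : FDAlg} (e : Ext A A') (e' : Ext A' A'') : Ext A A'' :=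
  ⟨e'.ι.comp e.ι, e.T ∘ₗ e'.T, fun a => (e'.norm_ι_le _).trans (e.norm_ι_le a),
    fun x => (e.norm_T_le _).trans (e'.norm_T_le x), fun a => by simp [e'.T_ι, e.T_ι]⟩

@[simp] lemma Ext.trans_ι {A A' A'' : FDAlg} (e : Ext A A') (e' : Ext A' A'') (a : A) :
    (e.trans e').ι a = e'.ι (e.ι a) := rfl

@[simp] lemma Ext.refl_ι {A : FDAlg} (a : A) : (Ext.refl A).ι a = a := rfl

/-- Elements of the form scalar plus nilpotent. -/
def locSub (R : Type*) [CommRing R] [Algebra ℂ R] : Subalgebra ℂ R where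
  carrier := {x | ∃ c : ℂ, IsNilpotent (x - algebraMap ℂ R c)}
  mul_mem' := by
    rintro x y ⟨c, hc⟩ ⟨d, hd⟩
    refine ⟨c * d, ?_⟩
    have : x * y - algebraMap ℂ R (c * d) =
        (x - algebraMap ℂ R c) * y + algebraMap ℂ R c * (y - algebraMap ℂ R d) := by
      rw [map_mul]; ring
    rw [this]
    exact (Commute.all _ _).isNilpotent_add ((Commute.all _ _).isNilpotent_mul_right hc)
      ((Commute.all _ _).isNilpotent_mul_left hd)
  add_mem' := by
    rintro x y ⟨c, hc⟩ ⟨d, hd⟩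
    refine ⟨c + d, ?_⟩
    have : x + y - algebraMap ℂ R (c + d) = (x - algebraMap ℂ R c) + (y - algebraMap ℂ R d) := by
      rw [map_add]; ring
    rw [this]
    exact (Commute.all _ _).isNilpotent_add hc hd
  algebraMap_mem' := fun c => ⟨c, by simp⟩

def IsLoc (R : Type*) [CommRing R] [Algebra ℂ R] : Prop := ∀ x : R, x ∈ locSub R

lemma mem_locSub_map {R R' : Type*} [CommRing R] [Algebra ℂ R] [CommRing R'] [Algebra ℂ R']
    (f : R →ₐ[ℂ] R') {x : R} (hx : x ∈ locSub R) : f x ∈ locSub R' := by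
  obtain ⟨c, hc⟩ := hx
  exact ⟨c, by simpa using hc.map f⟩

lemma mem_locSub_of_nilpotent {R : Type*} [CommRing R] [Algebra ℂ R] {x : R}
    (hx : IsNilpotent x) : x ∈ locSub R := ⟨0, by simpa using hx⟩

lemma locSub_le_integralClosure (R : Type*) [CommRing R] [Algebra ℂ R] :
    locSub R ≤ integralClosure ℂ R := by
  rintro x ⟨c, n, hn⟩
  have h1 : IsIntegral ℂ (x - algebraMap ℂ R c) :=
    IsIntegral.of_pow (n := n + 1) (Nat.succ_pos n)
      (by rw [pow_succ, hn, zero_mul]; exact isIntegral_zero)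
  have := h1.add (isIntegral_algebraMap (R := ℂ) (A := R) (x := c))
  rw [mem_integralClosure_iff]
  simpa using this

theorem exists_fdext (A : FDAlg) {S : Type} [AddCommMonoid S] [AddMonoid.FG S] (ω : Weight S)
    (t : S → A) (h0 : t 0 = 1) (ht : ∀ s, ‖t s‖ ≤ ω.w s)
    (hint : ∀ (R : Type) [CommRing R] [Algebra ℂ R] (π : AddMonoidAlgebra A S →ₐ[ℂ] R),
      (∀ x, (∀ f, TT t (x * f) = 0) → π x = 0) → ∀ s, IsIntegral ℂ (π (single s 1))) :
    ∃ (A' : FDAlg) (e : Ext A A') (π : AddMonoidAlgebra A S →ₐ[ℂ] A'),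
      (∀ a, π (single 0 a) = e.ι a) ∧ (∀ s, ‖π (single s 1)‖ ≤ ω.w s) ∧
      (∀ x, (∀ f, TT t (x * f) = 0) → π x = 0) ∧
      ∀ U : Subalgebra ℂ A', (∀ a, e.ι a ∈ U) → (∀ s, π (single s 1) ∈ U) → ∀ x, x ∈ U := by
  obtain ⟨A', _, _, π, T, hsurj, hn, hT, hTι, hker⟩ := exists_ext_of_weight ω t h0 ht
  let ι : A →ₐ[ℂ] A' := π.comp singleZeroAlgHom
  have hι : ∀ a, π (single 0 a) = ι a := fun a => rfl
  have hgen : ∀ U : Subalgebra ℂ A', (∀ a, ι a ∈ U) → (∀ s, π (single s 1) ∈ U) → ∀ x, x ∈ U := by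
    intro U h1 h2 x
    obtain ⟨f, rfl⟩ := hsurj x
    induction f using AddMonoidAlgebra.induction_linear with
    | zero => simp
    | add f g hf hg => rw [map_add]; exact U.add_mem hf hg
    | single s a =>
      have : single s a = single 0 a * single s (1 : A) := by simp [single_mul_single]
      rw [this, map_mul]
      exact U.mul_mem (h1 a) (h2 s)
  have hιn : ∀ a, ‖ι a‖ ≤ ‖a‖ := fun a => by simpa [ω.zero, hι] using hn 0 a
  have h1 : NormOneClass A' := ⟨le_antisymm (by simpa using hιn 1) (by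
    have := hT (ι 1)
    rwa [← hι, hTι, hι, map_one, norm_one] at this)⟩
  have h2 : Algebra.FiniteType ℂ (AddMonoidAlgebra A S) :=
    Algebra.FiniteType.trans (S := A) inferInstance inferInstance
  have h3 : Algebra.FiniteType ℂ A' := h2.of_surjective π hsurj
  have h4 : Algebra.IsIntegral ℂ A' := ⟨hgen (integralClosure ℂ A')
    (fun a => (Algebra.IsIntegral.isIntegral a).map ι) (hint A' π hker)⟩
  have h5 : FiniteDimensional ℂ A' := Algebra.IsIntegral.finite
  exact ⟨⟨A'⟩, ⟨ι, T, hιn, hT, hTι⟩, π, hι, fun s => by simpa using hn s 1, hker, hgen⟩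

theorem ext_finset (P : FDAlg → Prop) (Src Good : ∀ A : FDAlg, A → Prop)
    (hSrc : ∀ A A' (e : Ext A A') x, Src A x → Src A' (e.ι x))
    (hGood : ∀ A A' (e : Ext A A') x, Good A x → Good A' (e.ι x))
    (step : ∀ A, P A → ∀ x, Src A x → ∃ (A' : FDAlg) (e : Ext A A'), P A' ∧ Good A' (e.ι x))
    (A : FDAlg) (hA : P A) {κ : Type*} (v : κ → A) (F : Finset κ) (hF : ∀ i ∈ F, Src A (v i)) :
    ∃ (A' : FDAlg) (e : Ext A A'), P A' ∧ ∀ i ∈ F, Good A' (e.ι (v i)) := by
  classical
  induction F using Finset.induction_on with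
  | empty => exact ⟨A, Ext.refl A, hA, by simp⟩
  | insert i F hi ih =>
    obtain ⟨A', e, hA', h⟩ := ih fun j hj => hF j (Finset.mem_insert_of_mem hj)
    obtain ⟨A'', e', hA'', h'⟩ := step A' hA' (e.ι (v i))
      (hSrc _ _ e _ (hF i (Finset.mem_insert_self _ _)))
    refine ⟨A'', e.trans e', hA'', fun j hj => ?_⟩
    rcases Finset.mem_insert.1 hj with rfl | hj
    · exact h'
    · exact hGood _ _ e' _ (h j hj)

theorem ext_nil_step (A : FDAlg) (hA : IsLoc A) (y : A) (n : ℕ) (hy : y ^ (n + 2) = 0) :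
    ∃ (A' : FDAlg) (e : Ext A A') (w : A'), IsLoc A' ∧ w * w = 0 ∧ (e.ι y - w) ^ (n + 1) = 0 := by
  let ω : Weight ℕ := ⟨fun k => ‖y‖ ^ k, fun k => by positivity, by simp, fun s t => by
    rw [pow_add]⟩
  let t : ℕ → A := fun k => if k = 0 then 1 else if k = 1 then ((n + 1 : ℂ)⁻¹) • y else 0
  have hsq : ∀ f, TT t (single 1 1 * single 1 1 * f) = 0 := by
    intro f
    induction f using AddMonoidAlgebra.induction_linear with
    | zero => simp
    | add f g hf hg => rw [mul_add, map_add, hf, hg, add_zero]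
    | single s a =>
      simp only [single_mul_single, TT_single, t]
      rw [if_neg (by omega), if_neg (by omega), mul_zero]
  have hpow : ∀ (R : Type) [CommRing R] [Algebra ℂ R] (π : AddMonoidAlgebra A ℕ →ₐ[ℂ] R),
      (∀ x, (∀ f, TT t (x * f) = 0) → π x = 0) → ∀ s, π (single s 1) ∈ locSub R := by
    intro R _ _ π hπ s
    have h1 : π (single s 1) = π (single 1 1) ^ s := by
      rw [← map_pow, single_pow]; simp
    rw [h1]
    refine Subalgebra.pow_mem _ (mem_locSub_of_nilpotent ⟨2, ?_⟩) s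
    rw [pow_two, ← map_mul]
    exact hπ _ hsq
  obtain ⟨A', e, π, hι, -, hker, hgen⟩ := exists_fdext A ω t (by simp [t]) (fun s => by
    simp only [t, ω]
    split_ifs with h1 h2
    · simp [h1]
    · rw [h2, norm_smul, norm_inv, pow_one]
      have : (1 : ℝ) ≤ ‖(n + 1 : ℂ)‖ := by
        rw [show (n + 1 : ℂ) = ((n + 1 : ℕ) : ℂ) by push_cast; rfl, Complex.norm_natCast]
        exact_mod_cast Nat.succ_pos n
      exact mul_le_of_le_one_left (norm_nonneg _) (inv_le_one_of_one_le₀ this)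
    · simp) (fun R _ _ π hπ s => locSub_le_integralClosure R (hpow R π hπ s))
  have hw : π (single 1 1) * π (single 1 1) = 0 := by rw [← map_mul]; exact hker _ hsq
  refine ⟨A', e, π (single 1 1), hgen _ (fun a => mem_locSub_map _ (hA a)) (hpow A' π hker), hw,
    ?_⟩
  have hexp : ∀ m : ℕ, (e.ι y - π (single 1 1)) ^ (m + 1) =
      e.ι y ^ (m + 1) - (m + 1 : A') * e.ι y ^ m * π (single 1 1) := by
    intro m
    induction m with
    | zero => simp
    | succ m ih =>
      rw [pow_succ, ih]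
      push_cast
      linear_combination ((m + 1 : A') * e.ι y ^ m) * hw
  have hx : e.ι y ^ (n + 1) - (n + 1 : A') * e.ι y ^ n * π (single 1 1) =
      π (single 0 (y ^ (n + 1)) - single 1 ((n + 1 : A) * y ^ n)) := by
    have : single 1 ((n + 1 : A) * y ^ n) = single 0 ((n + 1 : A) * y ^ n) * single 1 (1 : A) := by
      simp [single_mul_single]
    rw [map_sub, this, map_mul, hι, hι]
    simp
  rw [hexp, hx]
  apply hker
  intro f
  induction f using AddMonoidAlgebra.induction_linear with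
  | zero => simp
  | add f g hf hg => rw [mul_add, map_add, hf, hg, add_zero]
  | single s a =>
    have hn : (n + 1 : A) * ((n + 1 : ℂ)⁻¹ • y) = y := by
      have h1 : (n + 1 : A) = algebraMap ℂ A (n + 1) := by simp
      have h2 : (n + 1 : ℂ) ≠ 0 := by exact_mod_cast Nat.succ_ne_zero n
      rw [h1, ← Algebra.smul_def, smul_smul, mul_inv_cancel₀ h2, one_smul]
    simp only [sub_mul, single_mul_single, map_sub, TT_single, zero_add, t]
    rcases s with _ | _ | s
    · simp only [add_zero, if_true, one_ne_zero, if_false]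
      linear_combination (-(y ^ n * a)) * hn
    · simp only [zero_add, one_ne_zero, if_false, if_true]
      rw [if_neg (by omega), if_neg (by omega), mul_smul_comm]
      have : y ^ (n + 1) * a * y = 0 := by linear_combination a * hy
      simp [this]
    · rw [if_neg (by omega), if_neg (by omega), if_neg (by omega), if_neg (by omega)]
      simp

/-- The span of `1` and the square-zero elements. -/
def sqSpan (R : Type*) [CommRing R] [Algebra ℂ R] : Submodule ℂ R :=
  Submodule.span ℂ {w | w = 1 ∨ w * w = 0}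

lemma mem_sqSpan_map {R R' : Type*} [CommRing R] [Algebra ℂ R] [CommRing R'] [Algebra ℂ R']
    (f : R →ₐ[ℂ] R') {x : R} (hx : x ∈ sqSpan R) : f x ∈ sqSpan R' := by
  have := Submodule.apply_mem_span_image_of_mem_span f.toLinearMap hx
  refine Submodule.span_mono ?_ this
  rintro _ ⟨w, hw | hw, rfl⟩
  · left; simp [hw]
  · right; simp [← map_mul, hw]

theorem ext_nil (n : ℕ) : ∀ (A : FDAlg), IsLoc A → ∀ y : A, y ^ (n + 1) = 0 →
    ∃ (A' : FDAlg) (e : Ext A A'), IsLoc A' ∧ e.ι y ∈ sqSpan A' := by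
  induction n with
  | zero =>
    intro A hA y hy
    refine ⟨A, Ext.refl A, hA, ?_⟩
    have : y = 0 := by simpa using hy
    simp [this]
  | succ n ih =>
    intro A hA y hy
    obtain ⟨A', e, w, hA', hw, hy'⟩ := ext_nil_step A hA y n hy
    obtain ⟨A'', e', hA'', h⟩ := ih A' hA' _ hy'
    refine ⟨A'', e.trans e', hA'', ?_⟩
    have h2 : e'.ι w ∈ sqSpan A'' := Submodule.subset_span (Or.inr (by rw [← map_mul, hw, map_zero]))
    have := Submodule.add_mem _ h h2
    simpa using this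

theorem ext_sqSpan (A : FDAlg) (hA : IsLoc A) :
    ∃ (A' : FDAlg) (e : Ext A A'), IsLoc A' ∧ ∀ a, e.ι a ∈ sqSpan A' := by
  let b := Module.finBasis ℂ A
  obtain ⟨A', e, hA', h⟩ := ext_finset (fun A => IsLoc A) (fun _ _ => True)
    (fun A x => x ∈ sqSpan A) (fun _ _ _ _ _ => trivial)
    (fun _ _ e _ hx => mem_sqSpan_map e.ι hx) (fun A hA x _ => by
      obtain ⟨c, n, hn⟩ := hA x
      obtain ⟨A', e, hA', h⟩ := ext_nil n A hA (x - algebraMap ℂ A c) (by rw [pow_succ, hn, zero_mul])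
      refine ⟨A', e, hA', ?_⟩
      have h1 : (1 : A') ∈ sqSpan A' := Submodule.subset_span (Or.inl rfl)
      have := Submodule.add_mem _ h (Submodule.smul_mem _ c h1)
      simpa [Algebra.algebraMap_eq_smul_one] using this) A hA b Finset.univ (fun _ _ => trivial)
  refine ⟨A', e, hA', fun a => ?_⟩
  rw [← b.sum_repr a, map_sum]
  exact Submodule.sum_mem _ fun i _ => by
    rw [map_smul]; exact Submodule.smul_mem _ _ (h i (Finset.mem_univ i))

end Pool.Agent.Lib.MP_9053f7_an
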