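import Pool.Agent.Lib.MP_9053f7_an.PTensor

namespace Pool.Agent.Lib.MP_9053f7_an

open scoped TensorProduct
open Filter Topology PT WeakDual

universe v

theorem exists_projTensor (A : Type v) [NormedCommRing A] [NormedAlgebra ℂ A] :
    ∃ (B : Type v) (_ : NormedCommRing B) (_ : NormedAlgebra ℂ B) (_ : CompleteSpace B)
      (j : A ⊗[ℂ] A →ₐ[ℂ] B), IsProjTensor j := by
  refine ⟨UniformSpace.Completion (A ⊗[ℂ] A), inferInstance, inferInstance, inferInstance,
    { UniformSpace.Completion.coeRingHom with commutes' := fun c => rfl }, ?_, fun t => ?_⟩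
  · exact UniformSpace.Completion.denseRange_coe
  · exact UniformSpace.Completion.norm_coe t

variable {A B : Type*} [NormedCommRing A] [NormedAlgebra ℂ A] [CompleteSpace A]
  [NormedCommRing B] [NormedAlgebra ℂ B] [CompleteSpace B] {j : A ⊗[ℂ] A →ₐ[ℂ] B}

omit [CompleteSpace A] [CompleteSpace B] in
lemma IsProjTensor.exists_ext (hj : IsProjTensor j) {G : Type*} [NormedAddCommGroup G]
    [NormedSpace ℂ G] [CompleteSpace G] (L : A ⊗[ℂ] A →ₗ[ℂ] G) {C : ℝ} (hC : 0 ≤ C)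
    (h : ∀ a b, ‖L (a ⊗ₜ[ℂ] b)‖ ≤ C * (‖a‖ * ‖b‖)) :
    ∃ L' : B →L[ℂ] G, (∀ t, L' (j t) = L t) ∧ ∀ x, ‖L' x‖ ≤ C * ‖x‖ := by
  have hn : ∀ t, ‖L t‖ ≤ C * ‖j.toLinearMap t‖ := fun t => by
    rw [AlgHom.toLinearMap_apply, hj.2]; exact norm_map_le L hC h t
  have hd : DenseRange j.toLinearMap := hj.1
  exact ⟨L.extendOfNorm j.toLinearMap, fun t => LinearMap.extendOfNorm_eq hd ⟨C, hn⟩ t,
    fun x => LinearMap.norm_extendOfNorm_apply_le hd C hn x⟩

omit [CompleteSpace A] [CompleteSpace B] in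
lemma IsProjTensor.clm_ext (hj : IsProjTensor j) {G : Type*} [NormedAddCommGroup G]
    [NormedSpace ℂ G] (L₁ L₂ : B →L[ℂ] G)
    (h : ∀ a b, L₁ (j (a ⊗ₜ[ℂ] b)) = L₂ (j (a ⊗ₜ[ℂ] b))) (x : B) : L₁ x = L₂ x := by
  refine hj.1.induction_on x (isClosed_eq L₁.continuous L₂.continuous) fun t => ?_
  induction t using TensorProduct.induction_on with
  | zero => simp
  | tmul a b => exact h a b
  | add s t hs ht => simp [hs, ht]

omit [CompleteSpace A] [CompleteSpace B] in
lemma IsProjTensor.norm_tmul_le (hj : IsProjTensor j) (a b : A) :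
    ‖j (a ⊗ₜ[ℂ] b)‖ ≤ ‖a‖ * ‖b‖ := by
  rw [hj.2]; exact Pool.Agent.Lib.MP_9053f7_an.norm_tmul_le a b

omit [CompleteSpace B] in
lemma IsProjTensor.exists_slice (hj : IsProjTensor j) (ψ : characterSpace ℂ A) :
    ∃ σ : B →ₐ[ℂ] A, Continuous σ ∧ ∀ a b, σ (j (a ⊗ₜ[ℂ] b)) = ψ b • a := by
  let L : A ⊗[ℂ] A →ₐ[ℂ] A := Algebra.TensorProduct.lift (AlgHom.id ℂ A)
    ((Algebra.ofId ℂ A).comp (CharacterSpace.equivAlgHom ψ)) (fun _ _ => Commute.all _ _)
  have hL : ∀ a b, L (a ⊗ₜ[ℂ] b) = ψ b • a := fun a b => by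
    simp [L, Algebra.ofId_apply, Algebra.smul_def, mul_comm]
  obtain ⟨L', h1, -⟩ := hj.exists_ext L.toLinearMap (C := ‖(1 : A)‖) (norm_nonneg _) (fun a b => by
    rw [AlgHom.toLinearMap_apply, hL, norm_smul]
    have := AlgHom.norm_apply_le_self_mul_norm_one ψ b
    calc ‖ψ b‖ * ‖a‖ ≤ (‖b‖ * ‖(1 : A)‖) * ‖a‖ := by gcongr
      _ = _ := by ring)
  have hmul : ∀ x y, L' (x * y) = L' x * L' y := by
    intro x y
    refine hj.1.induction_on₂ (p := fun x y => L' (x * y) = L' x * L' y) ?_ ?_ x y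
    · exact isClosed_eq (by fun_prop) (by fun_prop)
    · intro s t
      rw [← map_mul, h1, h1, h1]
      simp
  have hone : L' 1 = 1 := by rw [← map_one j, h1]; simp
  refine ⟨AlgHom.ofLinearMap L'.toLinearMap hone hmul, L'.continuous, fun a b => ?_⟩
  change L' _ = _
  rw [h1]; exact hL a b

theorem IsProjTensor.semisimple (hj : IsProjTensor j) (hA : IsSemisimpleBA A)
    (S : ℕ → A →L[ℂ] A) {C : ℝ} (hC : ∀ N, ‖S N‖ ≤ C)
    (hS : ∀ a, Tendsto (fun N => S N a) atTop (𝓝 a))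
    (hfin : ∀ N, ∃ (n : ℕ) (l : Fin n → A →L[ℂ] ℂ) (x : Fin n → A),
      ∀ a, S N a = ∑ i, l i a • x i) : IsSemisimpleBA B := by
  intro t ht
  have hC0 : 0 ≤ C := (norm_nonneg _).trans (hC 0)
  have hR : ∀ l : A →L[ℂ] ℂ, ∃ R : B →L[ℂ] A, (∀ a b, R (j (a ⊗ₜ[ℂ] b)) = l a • b) ∧ R t = 0 := by
    intro l
    obtain ⟨R, h1, -⟩ := hj.exists_ext (TensorProduct.lift (LinearMap.mk₂ ℂ (fun a b => l a • b)
      (by intros; simp [add_smul]) (by intros; simp [mul_smul]) (by intros; simp)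
      (by intros; rw [smul_comm]))) (C := ‖l‖) (norm_nonneg _) (fun a b => by
        simp only [TensorProduct.lift.tmul, LinearMap.mk₂_apply, norm_smul, ← mul_assoc]
        gcongr
        exact l.le_opNorm a)
    have h2 : ∀ a b, R (j (a ⊗ₜ[ℂ] b)) = l a • b := fun a b => by rw [h1]; simp
    refine ⟨R, h2, hA _ fun ψ => ?_⟩
    obtain ⟨σ, hσ, hσ'⟩ := hj.exists_slice ψ
    have h3 : σ t = 0 := hA _ fun φ =>
      ht (CharacterSpace.equivAlgHom.symm ((CharacterSpace.equivAlgHom φ).comp σ))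
    let σ' : B →L[ℂ] A := ⟨σ.toLinearMap, hσ⟩
    have hσ'' : ∀ x, σ' x = σ x := fun x => rfl
    have := hj.clm_ext ((CharacterSpace.toCLM ψ).comp R) (l.comp σ')
      (fun a b => by simp [h2, hσ', hσ'', mul_comm]) t
    simpa [h3, hσ''] using this
  have hM : ∀ N, ∃ M : B →L[ℂ] B, (∀ a b, M (j (a ⊗ₜ[ℂ] b)) = j (S N a ⊗ₜ[ℂ] b)) ∧
      (∀ x, ‖M x‖ ≤ C * ‖x‖) ∧ M t = 0 := by
    intro N
    obtain ⟨M, h1, h2⟩ := hj.exists_ext
      (j.toLinearMap ∘ₗ TensorProduct.map (S N).toLinearMap LinearMap.id) hC0 (fun a b => by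
        simp only [LinearMap.comp_apply, TensorProduct.map_tmul, AlgHom.toLinearMap_apply]
        refine (hj.norm_tmul_le _ _).trans ?_
        rw [← mul_assoc]
        gcongr
        · exact ((S N).le_opNorm a).trans (by gcongr; exact hC N)
        · simp)
    have h3 : ∀ a b, M (j (a ⊗ₜ[ℂ] b)) = j (S N a ⊗ₜ[ℂ] b) := fun a b => by rw [h1]; simp
    refine ⟨M, h3, h2, ?_⟩
    obtain ⟨n, l, x, hx⟩ := hfin N
    choose R hR1 hR2 using hR
    let T : A → A →L[ℂ] B := fun a => LinearMap.mkContinuous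
      (j.toLinearMap ∘ₗ TensorProduct.mk ℂ A A a) ‖a‖ (fun b => hj.norm_tmul_le a b)
    have hT : ∀ a b, T a b = j (a ⊗ₜ[ℂ] b) := fun a b => rfl
    have := hj.clm_ext M (∑ i, (T (x i)).comp (R (l i))) (fun a b => by
      simp only [h3, hx, sum_apply, ContinuousLinearMap.comp_apply, hR1, hT,
        TensorProduct.sum_tmul, map_sum, TensorProduct.smul_tmul]) t
    simpa [hR2] using this
  choose M hM1 hM2 hM3 using hM
  have hconv : ∀ x, Tendsto (fun N => M N x) atTop (𝓝 x) := by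
    have h0 : ∀ s, Tendsto (fun N => M N (j s)) atTop (𝓝 (j s)) := by
      intro s
      induction s using TensorProduct.induction_on with
      | zero => simp
      | tmul a b =>
        simp only [hM1]
        rw [tendsto_iff_norm_sub_tendsto_zero]
        have := (tendsto_iff_norm_sub_tendsto_zero.1 (hS a)).mul_const ‖b‖
        rw [zero_mul] at this
        refine squeeze_zero (fun N => norm_nonneg _) (fun N => ?_) this
        rw [← map_sub, ← TensorProduct.sub_tmul]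
        exact hj.norm_tmul_le _ _
      | add s s' hs hs' => simpa using hs.add hs'
    intro x
    rw [Metric.tendsto_nhds]
    intro ε hε
    obtain ⟨s, hs⟩ := hj.1.exists_dist_lt x (ε := ε / 2 / (C + 1)) (by positivity)
    filter_upwards [Metric.tendsto_nhds.1 (h0 s) (ε / 2) (by positivity)] with N hN
    rw [dist_eq_norm] at hs hN ⊢
    have e : M N x - x = M N (x - j s) + (M N (j s) - j s) - (x - j s) := by
      rw [map_sub]; abel
    have h1 := hM2 N (x - j s)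
    have h2 : (C + 1) * ‖x - j s‖ ≤ ε / 2 := by
      rw [lt_div_iff₀ (by positivity)] at hs; linarith
    rw [e]
    calc _ ≤ ‖M N (x - j s)‖ + ‖M N (j s) - j s‖ + ‖x - j s‖ :=
          (norm_sub_le _ _).trans (by gcongr; exact norm_add_le _ _)
      _ < ε := by linarith
  have := hconv t
  simp only [hM3] at this
  exact (tendsto_nhds_unique tendsto_const_nhds this).symm

theorem IsProjTensor.not_spectral (hj : IsProjTensor j) (χ : characterSpace ℂ A) (b : A)
    (hb : χ b = 0)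
    (hcl : b ∉ closure {a : A | ∀ᶠ ψ : characterSpace ℂ A in 𝓝 χ, ψ a = 0}) :
    ¬ IsSpectralSet B (diagonal j) := by
  intro hs
  obtain ⟨σ, hσ, hσ'⟩ := hj.exists_slice χ
  have h1 : j (b ⊗ₜ[ℂ] 1) - j (1 ⊗ₜ[ℂ] b) ∈ {u : B | ∀ χ ∈ diagonal j, gelfand u χ = 0} := by
    rintro _ ⟨φ, hφ⟩
    rw [gelfand, map_sub, hφ, hφ]; ring
  rw [← hs] at h1
  have h2 := map_mem_closure hσ h1
    (t := {a : A | ∀ᶠ ψ : characterSpace ℂ A in 𝓝 χ, ψ a = 0}) (by
      intro u hu
      let ρ : characterSpace ℂ A → characterSpace ℂ B := fun φ =>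
        CharacterSpace.equivAlgHom.symm ((CharacterSpace.equivAlgHom φ).comp σ)
      have hρ : ∀ φ x, ρ φ x = φ (σ x) := fun φ x => rfl
      have hρc : Continuous ρ := by
        refine Continuous.subtype_mk (WeakDual.continuous_of_continuous_eval fun x => ?_) _
        exact (WeakDual.eval_continuous (σ x)).comp continuous_subtype_val
      have h3 : ρ χ ∈ diagonal j := ⟨χ, fun a a' => by rw [hρ, hσ']; simp [mul_comm]⟩
      have h4 : ρ χ ∉ tsupport (gelfand u) :=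
        fun h => Set.disjoint_left.1 hu h h3
      rw [notMem_tsupport_iff_eventuallyEq] at h4
      exact (hρc.tendsto χ).eventually h4)
  rw [map_sub, hσ', hσ', hb] at h2
  simp only [map_one, one_smul, zero_smul, sub_zero] at h2
  exact hcl h2

end Pool.Agent.Lib.MP_9053f7_an
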