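import Mathlib

namespace Pool.Agent.Lib.MP_9053f7_an

open AddMonoidAlgebra

variable {A : Type} [NormedCommRing A] [NormedAlgebra ℂ A] {S : Type} [AddCommMonoid S]

structure Weight (S : Type) [AddCommMonoid S] where
  w : S → ℝ
  nonneg : ∀ s, 0 ≤ w s
  zero : w 0 = 1
  add_le : ∀ s t, w (s + t) ≤ w s * w t

noncomputable def l1 (ω : Weight S) (f : AddMonoidAlgebra A S) : ℝ :=
  f.coeff.sum fun s a => ‖a‖ * ω.w s

omit [NormedAlgebra ℂ A] in
lemma l1_eq_sum (ω : Weight S) (f : AddMonoidAlgebra A S) {F : Finset S}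
    (hF : f.coeff.support ⊆ F) : l1 ω f = ∑ s ∈ F, ‖f.coeff s‖ * ω.w s :=
  Finsupp.sum_of_support_subset _ hF _ (by simp)

omit [NormedAlgebra ℂ A] in
lemma l1_add_le (ω : Weight S) (f g : AddMonoidAlgebra A S) :
    l1 ω (f + g) ≤ l1 ω f + l1 ω g := by
  classical
  rw [l1_eq_sum ω (f + g) (F := f.coeff.support ∪ g.coeff.support) Finsupp.support_add,
    l1_eq_sum ω f (F := f.coeff.support ∪ g.coeff.support) Finset.subset_union_left,
    l1_eq_sum ω g (F := f.coeff.support ∪ g.coeff.support) Finset.subset_union_right,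
    ← Finset.sum_add_distrib]
  refine Finset.sum_le_sum fun s _ => ?_
  rw [← add_mul]
  exact mul_le_mul_of_nonneg_right (norm_add_le _ _) (ω.nonneg s)

lemma l1_smul_le (ω : Weight S) (c : ℂ) (f : AddMonoidAlgebra A S) :
    l1 ω (c • f) ≤ ‖c‖ * l1 ω f := by
  rw [l1_eq_sum ω (c • f) (F := f.coeff.support) Finsupp.support_smul,
    l1_eq_sum ω f subset_rfl, Finset.mul_sum]
  refine Finset.sum_le_sum fun s _ => ?_
  rw [← mul_assoc, coeff_smul_apply, norm_smul]

omit [NormedAlgebra ℂ A] in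
lemma l1_single (ω : Weight S) (s : S) (a : A) : l1 ω (single s a) = ‖a‖ * ω.w s := by
  unfold l1
  rw [coeff_single, Finsupp.sum_single_index (by simp)]

noncomputable def l1Seminorm (ω : Weight S) : Seminorm ℂ (AddMonoidAlgebra A S) :=
  .ofSMulLE (l1 ω) (by simp [l1]) (l1_add_le ω) (l1_smul_le ω)

noncomputable abbrev l1Group (ω : Weight S) : SeminormedAddCommGroup (AddMonoidAlgebra A S) :=
  AddGroupSeminorm.toSeminormedAddCommGroup (l1Seminorm ω).toAddGroupSeminorm

omit [NormedAlgebra ℂ A] in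
lemma norm_map_le_l1 (ω : Weight S) {G : Type*} [SeminormedAddCommGroup G]
    (L : AddMonoidAlgebra A S →+ G) {C : ℝ}
    (h : ∀ s a, ‖L (single s a)‖ ≤ C * (‖a‖ * ω.w s)) (f : AddMonoidAlgebra A S) :
    ‖L f‖ ≤ C * l1 ω f := by
  conv_lhs => rw [← sum_coeff_single f]
  rw [l1, Finsupp.sum, Finsupp.sum, map_sum, Finset.mul_sum]
  exact norm_sum_le_of_le _ fun s _ => h _ _

lemma l1_mul_le (ω : Weight S) (f g : AddMonoidAlgebra A S) :
    l1 ω (f * g) ≤ l1 ω f * l1 ω g := by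
  let := l1Group (A := A) ω
  have h0 : 0 ≤ l1 ω g := norm_nonneg g
  have h1 : ∀ s a, ‖AddMonoidHom.mulRight g (single s a)‖ ≤ l1 ω g * (‖a‖ * ω.w s) := by
    intro s a
    rw [mul_comm (l1 ω g)]
    apply norm_map_le_l1 ω (AddMonoidHom.mulLeft (single s a))
    intro s' a'
    change l1 ω (single s a * single s' a') ≤ _
    rw [single_mul_single, l1_single]
    have := ω.nonneg s
    have := ω.nonneg s'
    have := ω.nonneg (s + s')
    calc ‖a * a'‖ * ω.w (s + s') ≤ (‖a‖ * ‖a'‖) * (ω.w s * ω.w s') := by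
          gcongr
          · exact norm_mul_le _ _
          · exact ω.add_le _ _
      _ = _ := by ring
  have := norm_map_le_l1 ω (AddMonoidHom.mulRight g) h1 f
  rwa [mul_comm (l1 ω g)] at this

noncomputable abbrev l1Ring (ω : Weight S) : SeminormedCommRing (AddMonoidAlgebra A S) :=
  { (inferInstance : CommRing (AddMonoidAlgebra A S)), l1Group ω with
    norm_mul_le := l1_mul_le ω }

noncomputable def TT (t : S → A) : AddMonoidAlgebra A S →ₗ[A] A :=
  Finsupp.linearCombination A t ∘ₗ (coeffLinearEquiv A).toLinearMap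

omit [NormedAlgebra ℂ A] [AddCommMonoid S] in
@[simp] lemma TT_single (t : S → A) (s : S) (a : A) : TT t (single s a) = a * t s := by
  simp [TT]

theorem exists_ext_of_weight (ω : Weight S) (t : S → A) (h0 : t 0 = 1)
    (ht : ∀ s, ‖t s‖ ≤ ω.w s) :
    ∃ (A' : Type) (_ : NormedCommRing A') (_ : NormedAlgebra ℂ A')
      (π : AddMonoidAlgebra A S →ₐ[ℂ] A') (T : A' →ₗ[ℂ] A), Function.Surjective π ∧
      (∀ s a, ‖π (single s a)‖ ≤ ‖a‖ * ω.w s) ∧ (∀ x, ‖T x‖ ≤ ‖x‖) ∧
      (∀ a, T (π (single 0 a)) = a) ∧ ∀ x, (∀ f, TT t (x * f) = 0) → π x = 0 := by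
  let := l1Ring (A := A) ω
  let : NormedAlgebra ℂ (AddMonoidAlgebra A S) :=
    { (inferInstance : Algebra ℂ (AddMonoidAlgebra A S)) with norm_smul_le := l1_smul_le ω }
  have hT : ∀ f, ‖TT t f‖ ≤ 1 * ‖f‖ := norm_map_le_l1 ω (TT t).toAddMonoidHom (fun s a => by
    change ‖TT t _‖ ≤ _
    rw [TT_single, one_mul]
    exact (norm_mul_le _ _).trans (by gcongr; exact ht s))
  have hTc : Continuous (TT t) := AddMonoidHomClass.continuous_of_bound (TT t) 1 hT
  let I : Ideal (AddMonoidAlgebra A S) :=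
    { carrier := {x | ∀ f, TT t (x * f) = 0}
      add_mem' := fun {x y} hx hy f => by rw [add_mul, map_add, hx f, hy f, add_zero]
      zero_mem' := fun f => by simp
      smul_mem' := fun c x hx f => by rw [smul_eq_mul, mul_comm c x, mul_assoc, hx] }
  have hI : IsClosed (I : Set (AddMonoidAlgebra A S)) := by
    have : (I : Set (AddMonoidAlgebra A S)) = ⋂ f, {x | TT t (x * f) = 0} := by
      ext x; simp [I]
    rw [this]
    exact isClosed_iInter fun f => isClosed_eq (hTc.comp (continuous_mul_const f)) continuous_const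
  let T₀ : AddMonoidAlgebra A S →ₗ[ℂ] A := (TT t).restrictScalars ℂ
  let T : (AddMonoidAlgebra A S ⧸ I) →ₗ[ℂ] A :=
    (I.restrictScalars ℂ).liftQ T₀ (fun x hx => by simpa [T₀] using hx 1) ∘ₗ
      (Submodule.Quotient.restrictScalarsEquiv ℂ I).symm.toLinearMap
  have hTπ : ∀ f, T (Ideal.Quotient.mkₐ ℂ I f) = TT t f := fun f => rfl
  refine ⟨AddMonoidAlgebra A S ⧸ I, inferInstance, inferInstance, Ideal.Quotient.mkₐ ℂ I, T,
    Ideal.Quotient.mkₐ_surjective ℂ I, fun s a => ?_, fun x => ?_, fun a => ?_, fun x hx => ?_⟩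
  · exact (Ideal.Quotient.norm_mk_le I _).trans (l1_single ω s a).le
  · refine le_of_forall_pos_le_add fun ε hε => ?_
    obtain ⟨f, rfl, hf⟩ := Ideal.Quotient.norm_mk_lt x hε
    have := hT f
    rw [← hTπ, one_mul] at this
    exact this.trans hf.le
  · rw [hTπ, TT_single, h0, mul_one]
  · exact Ideal.Quotient.eq_zero_iff_mem.2 hx

end Pool.Agent.Lib.MP_9053f7_an
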