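import Pool.Agent.Lib.MP_9053f7_an.Defs

namespace Pool.Agent.Lib.MP_9053f7_an

open scoped TensorProduct

section Basic

variable {E F : Type*} [NormedAddCommGroup E] [NormedSpace ℂ E]
  [NormedAddCommGroup F] [NormedSpace ℂ F]

lemma projSet_nonempty (t : E ⊗[ℂ] F) : {r : ℝ | ∃ (n : ℕ) (a : Fin n → E) (b : Fin n → F),
    t = ∑ i, a i ⊗ₜ[ℂ] b i ∧ r = ∑ i, ‖a i‖ * ‖b i‖}.Nonempty := by
  obtain ⟨n, a, b, h⟩ := TensorProduct.exists_sum_tmul_eq t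
  exact ⟨_, n, a, b, h, rfl⟩

lemma projSet_bddBelow (t : E ⊗[ℂ] F) : BddBelow {r : ℝ | ∃ (n : ℕ) (a : Fin n → E) (b : Fin n → F),
    t = ∑ i, a i ⊗ₜ[ℂ] b i ∧ r = ∑ i, ‖a i‖ * ‖b i‖} := by
  refine ⟨0, ?_⟩
  rintro r ⟨n, a, b, -, rfl⟩
  positivity

lemma projNorm_nonneg (t : E ⊗[ℂ] F) : 0 ≤ projNorm t := by
  apply le_csInf (projSet_nonempty t)
  rintro r ⟨n, a, b, -, rfl⟩
  positivity

lemma projNorm_sum_tmul_le {ι : Type*} [Fintype ι] (a : ι → E) (b : ι → F) :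
    projNorm (∑ i, a i ⊗ₜ[ℂ] b i) ≤ ∑ i, ‖a i‖ * ‖b i‖ := by
  apply csInf_le (projSet_bddBelow _)
  let e := Fintype.equivFin ι
  refine ⟨Fintype.card ι, fun i => a (e.symm i), fun i => b (e.symm i), ?_, ?_⟩
  · exact (Equiv.sum_comp e.symm (fun i => a i ⊗ₜ[ℂ] b i)).symm
  · exact (Equiv.sum_comp e.symm (fun i => ‖a i‖ * ‖b i‖)).symm

lemma le_mul_projNorm {t : E ⊗[ℂ] F} {x C : ℝ} (hC : 0 ≤ C)
    (h : ∀ (n : ℕ) (a : Fin n → E) (b : Fin n → F), t = ∑ i, a i ⊗ₜ[ℂ] b i →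
      x ≤ C * ∑ i, ‖a i‖ * ‖b i‖) : x ≤ C * projNorm t := by
  rcases hC.eq_or_lt with rfl | hC
  · obtain ⟨n, a, b, ht⟩ := TensorProduct.exists_sum_tmul_eq t
    simpa using h n a b ht
  · rw [← div_le_iff₀' hC]
    apply le_csInf (projSet_nonempty t)
    rintro r ⟨n, a, b, ht, rfl⟩
    rw [div_le_iff₀' hC]
    exact h n a b ht

lemma projNorm_add_le (s t : E ⊗[ℂ] F) : projNorm (s + t) ≤ projNorm s + projNorm t := by
  have h1 : ∀ (n : ℕ) (a : Fin n → E) (b : Fin n → F), s = ∑ i, a i ⊗ₜ[ℂ] b i →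
      projNorm (s + t) - projNorm t ≤ 1 * ∑ i, ‖a i‖ * ‖b i‖ := by
    intro n a b hs
    have h2 : ∀ (m : ℕ) (c : Fin m → E) (d : Fin m → F), t = ∑ i, c i ⊗ₜ[ℂ] d i →
        projNorm (s + t) - ∑ i, ‖a i‖ * ‖b i‖ ≤ 1 * ∑ i, ‖c i‖ * ‖d i‖ := by
      intro m c d ht
      have := projNorm_sum_tmul_le (ι := Fin n ⊕ Fin m) (Sum.elim a c) (Sum.elim b d)
      simp only [Fintype.sum_sum_type, Sum.elim_inl, Sum.elim_inr] at this
      rw [← hs, ← ht] at this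
      linarith
    have := le_mul_projNorm zero_le_one h2
    linarith
  have := le_mul_projNorm zero_le_one h1
  linarith

lemma projNorm_smul_le (c : ℂ) (t : E ⊗[ℂ] F) : projNorm (c • t) ≤ ‖c‖ * projNorm t := by
  apply le_mul_projNorm (norm_nonneg c)
  intro n a b ht
  have := projNorm_sum_tmul_le (fun i => c • a i) b
  simp only [norm_smul, mul_assoc, ← Finset.mul_sum, ← TensorProduct.smul_tmul',
    ← Finset.smul_sum] at this
  rwa [ht]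

lemma projNorm_zero : projNorm (0 : E ⊗[ℂ] F) = 0 := by
  have := projNorm_smul_le (0 : ℂ) (0 : E ⊗[ℂ] F)
  simp only [smul_zero, norm_zero, zero_mul] at this
  exact le_antisymm this (projNorm_nonneg _)

variable (E F) in
noncomputable def projSeminorm : Seminorm ℂ (E ⊗[ℂ] F) :=
  .ofSMulLE projNorm projNorm_zero projNorm_add_le projNorm_smul_le

namespace PT

noncomputable scoped instance instSeminormedAddCommGroup : SeminormedAddCommGroup (E ⊗[ℂ] F) :=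
  AddGroupSeminorm.toSeminormedAddCommGroup (projSeminorm E F).toAddGroupSeminorm

noncomputable scoped instance instNormedSpace : NormedSpace ℂ (E ⊗[ℂ] F) :=
  ⟨projNorm_smul_le⟩

end PT

open PT

lemma norm_eq_projNorm (t : E ⊗[ℂ] F) : ‖t‖ = projNorm t := rfl

lemma norm_tmul_le (a : E) (b : F) : ‖a ⊗ₜ[ℂ] b‖ ≤ ‖a‖ * ‖b‖ := by
  have := projNorm_sum_tmul_le (ι := Unit) (fun _ => a) (fun _ => b)
  simpa [norm_eq_projNorm] using this

lemma norm_map_le {G : Type*} [SeminormedAddCommGroup G] [NormedSpace ℂ G]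
    (L : E ⊗[ℂ] F →ₗ[ℂ] G) {C : ℝ} (hC : 0 ≤ C) (h : ∀ a b, ‖L (a ⊗ₜ[ℂ] b)‖ ≤ C * (‖a‖ * ‖b‖))
    (t : E ⊗[ℂ] F) : ‖L t‖ ≤ C * ‖t‖ := by
  apply le_mul_projNorm hC
  intro n a b ht
  rw [ht, map_sum, Finset.mul_sum]
  exact norm_sum_le_of_le _ fun i _ => h _ _

end Basic

section Alg

open PT

variable {A B : Type*} [NormedCommRing A] [NormedAlgebra ℂ A] [NormedCommRing B] [NormedAlgebra ℂ B]

lemma tensor_norm_mul_le (s t : A ⊗[ℂ] B) : ‖s * t‖ ≤ ‖s‖ * ‖t‖ := by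
  have h1 : ∀ (a : A) (b : B), ‖(a ⊗ₜ[ℂ] b) * t‖ ≤ ‖t‖ * (‖a‖ * ‖b‖) := by
    intro a b
    rw [mul_comm ‖t‖]
    apply norm_map_le (LinearMap.mulLeft ℂ (a ⊗ₜ[ℂ] b)) (by positivity)
    intro c d
    simp only [LinearMap.mulLeft_apply, Algebra.TensorProduct.tmul_mul_tmul]
    refine (norm_tmul_le _ _).trans ?_
    calc ‖a * c‖ * ‖b * d‖ ≤ (‖a‖ * ‖c‖) * (‖b‖ * ‖d‖) := by
          gcongr <;> exact norm_mul_le _ _
      _ = _ := by ring
  have := norm_map_le (LinearMap.mulRight ℂ t) (norm_nonneg t) h1 s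
  rwa [mul_comm ‖t‖] at this

namespace PT

noncomputable scoped instance instSeminormedCommRing : SeminormedCommRing (A ⊗[ℂ] B) :=
  { (inferInstance : CommRing (A ⊗[ℂ] B)), (inferInstance : SeminormedAddCommGroup (A ⊗[ℂ] B)) with
    norm_mul_le := tensor_norm_mul_le }

noncomputable scoped instance instNormedAlgebra : NormedAlgebra ℂ (A ⊗[ℂ] B) :=
  { (inferInstance : Algebra ℂ (A ⊗[ℂ] B)) with
    norm_smul_le := projNorm_smul_le }

end PT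

end Alg

end Pool.Agent.Lib.MP_9053f7_an
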