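import Pool.Agent.Lib.MP_9053f7_an.ProjAlg

/-! Idempotents that are relative units at points: regularity, spectral points, and a criterion
for a non-spectral diagonal. -/

namespace Pool.Agent.Lib.MP_9053f7_an.S73

open scoped TensorProduct
open Filter Topology WeakDual

variable {A B : Type*} [NormedCommRing A] [NormedAlgebra ℂ A] [CompleteSpace A] [NormOneClass A]
  [NormedCommRing B] [NormedAlgebra ℂ B] [CompleteSpace B] {j : A ⊗[ℂ] A →ₐ[ℂ] B}

/-- Idempotents from `M` are relative units at every point of the spectrum. -/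
def Ditkin (M : Set A) : Prop :=
  ∀ (χ : characterSpace ℂ A) (b : A), χ b = 0 → ∀ ε : ℝ, 0 < ε →
    ∃ E ∈ M, E * E = E ∧ χ E = 1 ∧ ‖E * b‖ ≤ ε

lemma idem_val {R : Type*} [NormedCommRing R] [NormedAlgebra ℂ R] (ψ : characterSpace ℂ R) {E : R}
    (hE : E * E = E) (h : ψ E ≠ 0) : ψ E = 1 := by
  have := congrArg ψ hE
  rw [map_mul] at this
  exact mul_left_cancel₀ h (by rw [this, mul_one])

lemma cont_ev {R : Type*} [NormedCommRing R] [NormedAlgebra ℂ R] (E : R) :
    Continuous fun ψ : characterSpace ℂ R => ψ E :=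
  (WeakDual.eval_continuous E).comp continuous_subtype_val

lemma Ditkin.sep {M : Set A} (h : Ditkin M) {φ ψ : characterSpace ℂ A} (hne : ψ ≠ φ) :
    ∃ E ∈ M, E * E = E ∧ φ E = 1 ∧ ψ E = 0 := by
  obtain ⟨b, hb⟩ : ∃ b, ψ b ≠ φ b := by
    by_contra hc
    push Not at hc
    exact hne (CharacterSpace.ext hc)
  have h0 : 0 < ‖ψ b - φ b‖ := norm_pos_iff.2 (sub_ne_zero.2 hb)
  obtain ⟨E, h1, h2, h3, h4⟩ := h φ (b - algebraMap ℂ A (φ b))
    (by rw [map_sub, AlgHomClass.commutes]; exact sub_self _) _ (half_pos h0)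
  refine ⟨E, h1, h2, h3, ?_⟩
  by_contra hc
  have h5 := AlgHom.norm_apply_le_self ψ (E * (b - algebraMap ℂ A (φ b)))
  rw [map_mul, idem_val ψ h2 hc, one_mul, map_sub, AlgHomClass.commutes] at h5
  simp only [Algebra.algebraMap_self, RingHom.id_apply] at h5
  linarith

lemma exists_prod_kill {R ι : Type*} [NormedCommRing R] [NormedAlgebra ℂ R] [CompleteSpace R]
    {K : Set (characterSpace ℂ R)} (hK : IsClosed K) (E : ι → R) (hE : ∀ i, E i * E i = E i)
    (h : ∀ ψ ∈ K, ∃ i, ψ (E i) = 0) : ∃ F : Finset ι, ∀ ψ ∈ K, ψ (∏ i ∈ F, E i) = 0 := by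
  obtain ⟨F, hF⟩ := hK.isCompact.elim_finite_subcover
    (fun i => {ψ : characterSpace ℂ R | ψ (E i) ≠ 1})
    (fun i => isOpen_ne_fun (cont_ev _) continuous_const) (fun ψ hψ => by
      obtain ⟨i, hi⟩ := h ψ hψ
      exact Set.mem_iUnion.2 ⟨i, by simp [hi]⟩)
  refine ⟨F, fun ψ hψ => ?_⟩
  have := hF hψ
  simp only [Set.mem_iUnion, Set.mem_ofPred_eq] at this
  obtain ⟨i, hi, hi'⟩ := this
  rw [map_prod]
  refine Finset.prod_eq_zero hi ?_
  by_contra hc
  exact hi' (idem_val ψ (hE i) hc)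

theorem Ditkin.regular {M : Set A} (h : Ditkin M) : IsRegularBA A := by
  intro K hK φ hφ
  choose E _ h2 h3 h4 using fun ψ : K => h.sep (φ := φ) (ψ := ψ.1) fun hc => hφ (hc ▸ ψ.2)
  obtain ⟨F, hF⟩ := exists_prod_kill hK E h2 fun ψ hψ => ⟨⟨ψ, hψ⟩, h4 ⟨ψ, hψ⟩⟩
  exact ⟨_, by simp [map_prod, h3], hF⟩

omit [NormOneClass A] [CompleteSpace A] in
theorem Ditkin.spectral {M : Set A} (h : Ditkin M) (φ : characterSpace ℂ A) :
    IsSpectralSet A {φ} := by
  refine Set.Subset.antisymm (closure_minimal (fun u hu χ hχ => ?_) ?_) fun u hu => ?_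
  · exact image_eq_zero_of_notMem_tsupport fun hc => Set.disjoint_left.1 hu hc hχ
  · simp only [Set.mem_singleton_iff, forall_eq]
    exact isClosed_eq (map_continuous φ) continuous_const
  · refine Metric.mem_closure_iff.2 fun ε hε => ?_
    obtain ⟨E, -, h2, h3, h4⟩ := h φ u (hu φ rfl) _ (half_pos hε)
    refine ⟨u - E * u, ?_, by rw [dist_eq_norm, sub_sub_cancel]; linarith⟩
    rw [Set.mem_ofPred_eq, Set.disjoint_singleton_right, notMem_tsupport_iff_eventuallyEq]
    have h5 : ∀ᶠ ψ : characterSpace ℂ A in 𝓝 φ, ψ E ≠ 0 :=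
      (cont_ev E).continuousAt.eventually_ne (by rw [h3]; exact one_ne_zero)
    filter_upwards [h5] with ψ hψ
    simp [gelfand, idem_val ψ h2 hψ]

theorem Ditkin.not_spectral {M : Set A} (h : Ditkin M) (hj : IsProjTensor j)
    (hB : IsSemisimpleBA B) (L : B →L[ℂ] ℂ)
    (hL : ∀ E ∈ M, ∀ a b, L (j ((E * a) ⊗ₜ[ℂ] b)) = L (j (a ⊗ₜ[ℂ] (E * b)))) (b : A)
    (hb : L (j (b ⊗ₜ[ℂ] 1)) ≠ L (j (1 ⊗ₜ[ℂ] b))) : ¬ IsSpectralSet B (diagonal j) := by
  intro hs
  have h1 : j (b ⊗ₜ[ℂ] 1) - j (1 ⊗ₜ[ℂ] b) ∈ {u : B | ∀ χ ∈ diagonal j, gelfand u χ = 0} := by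
    rintro _ ⟨φ, hφ⟩
    rw [gelfand, map_sub, hφ, hφ]; ring
  rw [← hs] at h1
  let l : A →ₐ[ℂ] B := j.comp Algebra.TensorProduct.includeLeft
  let r : A →ₐ[ℂ] B := j.comp Algebra.TensorProduct.includeRight
  have hlr : ∀ a b, j (a ⊗ₜ[ℂ] b) = l a * r b := fun a b => by
    simp [l, r, ← map_mul]
  let N : Submonoid A :=
    { carrier := {E | E * E = E ∧ ∀ x, L (l E * x) = L (r E * x)}
      one_mem' := ⟨one_mul _, fun x => by simp⟩
      mul_mem' := fun {E E'} hE hE' => ⟨by linear_combination E' * E' * hE.1 + E * hE'.1,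
        fun x => by
          rw [map_mul l, map_mul r, mul_assoc, hE.2, mul_left_comm, hE'.2, mul_left_comm,
            mul_assoc]⟩ }
  have hMN : ∀ E ∈ M, E * E = E → E ∈ N := fun E hE hE' => ⟨hE', fun x =>
    hj.clm_ext (L.comp (ContinuousLinearMap.mul ℂ B (l E)))
      (L.comp (ContinuousLinearMap.mul ℂ B (r E))) (fun a b => by
        have := hL E hE a b
        simp only [hlr, map_mul] at this
        simp only [ContinuousLinearMap.comp_apply, ContinuousLinearMap.mul_apply', hlr]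
        rw [← mul_assoc, this, mul_left_comm]) x⟩
  have key : ∀ u ∈ {u : B | Disjoint (tsupport (gelfand u)) (diagonal j)}, L u = 0 := by
    intro u hu
    let I : Ideal A :=
      { carrier := {a | ∀ x, L (l a * (u * x)) = 0}
        zero_mem' := fun x => by simp
        add_mem' := fun {a a'} ha ha' x => by rw [map_add, add_mul, map_add, ha, ha', add_zero]
        smul_mem' := fun c a ha x => by
          have := ha (l c * x)
          rw [smul_eq_mul, map_mul l, ← this]
          congr 1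
          ring }
    have hI : I = ⊤ := by
      by_contra hI
      obtain ⟨m, hm, hIm⟩ := Ideal.exists_le_maximal I hI
      let φ := m.toCharacterSpace
      have hsep : ∀ χ : tsupport (gelfand u), ∃ E ∈ N, φ E = 1 ∧ χ.1 (l E * r E) = 0 := by
        intro χ
        let ψ₁ : characterSpace ℂ A :=
          CharacterSpace.equivAlgHom.symm ((CharacterSpace.equivAlgHom χ.1).comp l)
        let ψ₂ : characterSpace ℂ A :=
          CharacterSpace.equivAlgHom.symm ((CharacterSpace.equivAlgHom χ.1).comp r)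
        have e1 : ∀ a, ψ₁ a = χ.1 (l a) := fun a => rfl
        have e2 : ∀ a, ψ₂ a = χ.1 (r a) := fun a => rfl
        by_cases a1 : ψ₁ = φ
        · by_cases a2 : ψ₂ = φ
          · refine absurd ⟨φ, fun a b => ?_⟩ (Set.disjoint_left.1 hu χ.2)
            rw [hlr, map_mul, ← e1, ← e2, a1, a2]
          · obtain ⟨E, b1, b2, b3, b4⟩ := h.sep a2
            exact ⟨E, hMN E b1 b2, b3, by rw [map_mul, ← e2, b4, mul_zero]⟩
        · obtain ⟨E, b1, b2, b3, b4⟩ := h.sep a1
          exact ⟨E, hMN E b1 b2, b3, by rw [map_mul, ← e1, b4, zero_mul]⟩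
      choose E b1 b2 b3 using hsep
      obtain ⟨F, hF⟩ := exists_prod_kill (isClosed_tsupport (gelfand u)) (fun χ => l (E χ) * r (E χ))
        (fun χ => by rw [mul_mul_mul_comm, ← map_mul, ← map_mul, (b1 χ).1])
        fun χ hχ => ⟨⟨χ, hχ⟩, b3 ⟨χ, hχ⟩⟩
      have c1 : ∏ χ ∈ F, E χ ∈ N := N.prod_mem fun χ _ => b1 χ
      have c2 : l (∏ χ ∈ F, E χ) * r (∏ χ ∈ F, E χ) * u = 0 := hB _ fun χ => by
        rw [map_mul χ]
        by_cases hχ : χ ∈ tsupport (gelfand u)
        · have := hF χ hχ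
          rw [Finset.prod_mul_distrib, ← map_prod l, ← map_prod r] at this
          rw [this, zero_mul]
        · have : χ u = 0 := image_eq_zero_of_notMem_tsupport (f := gelfand u) hχ
          rw [this, mul_zero]
      have c3 : ∏ χ ∈ F, E χ ∈ I := fun x => by
        rw [← c1.1, map_mul l, mul_assoc, c1.2, ← mul_assoc, ← mul_assoc, mul_comm (r _), c2,
          zero_mul, map_zero]
      have c4 := m.toCharacterSpace_apply_eq_zero_of_mem (hIm c3)
      rw [map_prod, Finset.prod_eq_one fun χ _ => b2 χ] at c4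
      exact one_ne_zero c4
    have : (1 : A) ∈ I := hI ▸ trivial
    simpa using this 1
  have h2 : L _ = 0 := closure_minimal key (isClosed_eq L.continuous continuous_const) h1
  rw [map_sub, sub_eq_zero] at h2
  exact hb h2

end Pool.Agent.Lib.MP_9053f7_an.S73
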