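import Pool.Agent.Lib.MP_9053f7_an.Uniform

/-! Extensions that only add nilpotent elements; algebras with a contractive semisimple part. -/

namespace Pool.Agent.Lib.MP_9053f7_an.S73

open AddMonoidAlgebra Complex Filter Topology PT Algebra.TensorProduct
open scoped TensorProduct

/-- Elements that are in the image up to a nilpotent. -/
def nilSub {A A' : FDAlg} (e : Ext A A') : Subalgebra ℂ A' where
  carrier := {x | ∃ a : A, IsNilpotent (x - e.ι a)}
  mul_mem' := by
    rintro x y ⟨c, hc⟩ ⟨d, hd⟩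
    refine ⟨c * d, ?_⟩
    have : x * y - e.ι (c * d) = (x - e.ι c) * y + e.ι c * (y - e.ι d) := by
      rw [map_mul]; ring
    rw [this]
    exact (Commute.all _ _).isNilpotent_add ((Commute.all _ _).isNilpotent_mul_right hc)
      ((Commute.all _ _).isNilpotent_mul_left hd)
  add_mem' := by
    rintro x y ⟨c, hc⟩ ⟨d, hd⟩
    refine ⟨c + d, ?_⟩
    have : x + y - e.ι (c + d) = (x - e.ι c) + (y - e.ι d) := by
      rw [map_add]; ring
    rw [this]
    exact (Commute.all _ _).isNilpotent_add hc hd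
  algebraMap_mem' := fun c => ⟨algebraMap ℂ A c, by simp⟩

/-- The extension adds only nilpotent elements. -/
def NilExt {A A' : FDAlg} (e : Ext A A') : Prop := ∀ x : A', x ∈ nilSub e

lemma loc_le_nilSub {A A' : FDAlg} (e : Ext A A') {x : A'} (hx : x ∈ locSub A') :
    x ∈ nilSub e := by
  obtain ⟨c, hc⟩ := hx
  exact ⟨algebraMap ℂ A c, by simpa using hc⟩

/-- A contractive copy of the functions on a finite set, complementary to the nilpotents. -/
structure Part (A : FDAlg) where
  X : Type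
  [fin : Fintype X]
  p : (X → ℂ) →ₐ[ℂ] A
  q : A →ₐ[ℂ] (X → ℂ)
  norm_p : ∀ c, ‖p c‖ ≤ ‖c‖
  qp : ∀ c, q (p c) = c
  nil : ∀ a, IsNilpotent (a - p (q a))

attribute [instance] Part.fin

lemma Part.q_nil {A : FDAlg} (P : Part A) {a : A} (ha : IsNilpotent a) : P.q a = 0 :=
  (ha.map P.q).eq_zero

lemma Part.norm_q {A : FDAlg} (P : Part A) (a : A) : ‖P.q a‖ ≤ ‖a‖ :=
  (pi_norm_le_iff_of_nonneg (norm_nonneg a)).2 fun x =>
    AlgHom.norm_apply_le_self ((Pi.evalAlgHom ℂ (fun _ : P.X => ℂ) x).comp P.q) a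

lemma Part.of_nil {A A' : FDAlg} (P : Part A) {e : Ext A A'} (h : NilExt e) :
    Nonempty (Part A') := by
  choose g hg using h
  have key : ∀ x a, IsNilpotent (x - e.ι a) → P.q (g x) = P.q a := by
    intro x a ha
    have h1 : IsNilpotent (e.ι (g x - a)) := by
      have : e.ι (g x - a) = (x - e.ι a) - (x - e.ι (g x)) := by rw [map_sub]; ring
      rw [this]
      exact (Commute.all _ _).isNilpotent_sub ha (hg x)
    obtain ⟨n, hn⟩ := h1
    rw [← map_pow] at hn
    have h2 : (g x - a) ^ n = 0 := by rw [← norm_eq_zero, ← e.norm_ι, hn, norm_zero]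
    have := P.q_nil ⟨n, h2⟩
    rwa [map_sub, sub_eq_zero] at this
  have hι : ∀ a, P.q (g (e.ι a)) = P.q a := fun a => key _ a (by simp)
  let q' : A' →ₐ[ℂ] (P.X → ℂ) :=
    { toFun := fun x => P.q (g x)
      map_one' := by simpa using hι 1
      map_zero' := by simpa using hι 0
      map_mul' := fun x y => by
        rw [← map_mul]
        refine key _ _ ?_
        have : x * y - e.ι (g x * g y) = (x - e.ι (g x)) * y + e.ι (g x) * (y - e.ι (g y)) := by
          rw [map_mul]; ring
        rw [this]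
        exact (Commute.all _ _).isNilpotent_add ((Commute.all _ _).isNilpotent_mul_right (hg x))
          ((Commute.all _ _).isNilpotent_mul_left (hg y))
      map_add' := fun x y => by
        rw [← map_add]
        refine key _ _ ?_
        have : x + y - e.ι (g x + g y) = (x - e.ι (g x)) + (y - e.ι (g y)) := by
          rw [map_add]; ring
        rw [this]
        exact (Commute.all _ _).isNilpotent_add (hg x) (hg y)
      commutes' := fun c => by simpa using hι (algebraMap ℂ A c) }
  refine ⟨{ X := P.X, p := e.ι.comp P.p, q := q', norm_p := fun c => ?_, qp := fun c => ?_,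
            nil := fun x => ?_ }⟩
  · exact (e.norm_ι_le _).trans (P.norm_p c)
  · exact (hι _).trans (P.qp c)
  · have : x - (e.ι.comp P.p) (q' x) = (x - e.ι (g x)) + e.ι (g x - P.p (P.q (g x))) := by
      simp only [AlgHom.comp_apply, map_sub]
      change x - e.ι (P.p (P.q (g x))) = _
      ring
    rw [this]
    exact (Commute.all _ _).isNilpotent_add (hg x) ((P.nil _).map e.ι)

/-- The invariant of the construction. -/
def HP (A : FDAlg) : Prop := Nonempty (Part A)

lemma HP.of_nil {A A' : FDAlg} (h : HP A) {e : Ext A A'} (he : NilExt e) : HP A' :=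
  h.elim fun P => P.of_nil he

theorem ext_nil_step (A : FDAlg) (y : A) (n : ℕ) (hy : y ^ (n + 2) = 0) :
    ∃ (A' : FDAlg) (e : Ext A A') (w : A'), NilExt e ∧ w * w = 0 ∧ (e.ι y - w) ^ (n + 1) = 0 := by
  let ω : Weight ℕ := ⟨fun k => ‖y‖ ^ k, fun k => by positivity, by simp, fun s t => by
    rw [pow_add]⟩
  let t : ℕ → A := fun k => if k = 0 then 1 else if k = 1 then ((n + 1 : ℂ)⁻¹) • y else 0
  have hsq : ∀ f, TT t (single 1 1 * single 1 1 * f) = 0 := by
    intro f
    induction f using AddMonoidAlgebra.induction_linear with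
    | zero => simp
    | add f g hf hg => rw [mul_add, map_add, hf, hg, add_zero]
    | single s a =>
      simp only [single_mul_single, TT_single, t]
      rw [if_neg (by omega), if_neg (by omega), mul_zero]
  have hpow : ∀ (R : Type) [CommRing R] [Algebra ℂ R] (π : AddMonoidAlgebra A ℕ →ₐ[ℂ] R),
      (∀ x, (∀ f, TT t (x * f) = 0) → π x = 0) → ∀ s, π (single s 1) ∈ locSub R := by
    intro R _ _ π hπ s
    have h1 : π (single s 1) = π (single 1 1) ^ s := by
      rw [← map_pow, single_pow]; simp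
    rw [h1]
    refine Subalgebra.pow_mem _ (mem_locSub_of_nilpotent ⟨2, ?_⟩) s
    rw [pow_two, ← map_mul]
    exact hπ _ hsq
  obtain ⟨A', e, π, hι, -, hker, hgen⟩ := exists_fdext A ω t (by simp [t]) (fun s => by
    simp only [t, ω]
    split_ifs with h1 h2
    · simp [h1]
    · rw [h2, norm_smul, norm_inv, pow_one]
      have : (1 : ℝ) ≤ ‖(n + 1 : ℂ)‖ := by
        rw [show (n + 1 : ℂ) = ((n + 1 : ℕ) : ℂ) by push_cast; rfl, Complex.norm_natCast]
        exact_mod_cast Nat.succ_pos n
      exact mul_le_of_le_one_left (norm_nonneg _) (inv_le_one_of_one_le₀ this)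
    · simp) (fun R _ _ π hπ s => locSub_le_integralClosure R (hpow R π hπ s))
  have hw : π (single 1 1) * π (single 1 1) = 0 := by rw [← map_mul]; exact hker _ hsq
  refine ⟨A', e, π (single 1 1), 
    hgen (nilSub e) (fun a => ⟨a, by simp⟩) (fun s => loc_le_nilSub e (hpow A' π hker s)), hw, ?_⟩
  have hexp : ∀ m : ℕ, (e.ι y - π (single 1 1)) ^ (m + 1) =
      e.ι y ^ (m + 1) - (m + 1 : A') * e.ι y ^ m * π (single 1 1) := by
    intro m
    induction m with
    | zero => simp
    | succ m ih =>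
      rw [pow_succ, ih]
      push_cast
      linear_combination ((m + 1 : A') * e.ι y ^ m) * hw
  have hx : e.ι y ^ (n + 1) - (n + 1 : A') * e.ι y ^ n * π (single 1 1) =
      π (single 0 (y ^ (n + 1)) - single 1 ((n + 1 : A) * y ^ n)) := by
    have : single 1 ((n + 1 : A) * y ^ n) = single 0 ((n + 1 : A) * y ^ n) * single 1 (1 : A) := by
      simp [single_mul_single]
    rw [map_sub, this, map_mul, hι, hι]
    simp
  rw [hexp, hx]
  apply hker
  intro f
  induction f using AddMonoidAlgebra.induction_linear with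
  | zero => simp
  | add f g hf hg => rw [mul_add, map_add, hf, hg, add_zero]
  | single s a =>
    have hn : (n + 1 : A) * ((n + 1 : ℂ)⁻¹ • y) = y := by
      have h1 : (n + 1 : A) = algebraMap ℂ A (n + 1) := by simp
      have h2 : (n + 1 : ℂ) ≠ 0 := by exact_mod_cast Nat.succ_ne_zero n
      rw [h1, ← Algebra.smul_def, smul_smul, mul_inv_cancel₀ h2, one_smul]
    simp only [sub_mul, single_mul_single, map_sub, TT_single, zero_add, t]
    rcases s with _ | _ | s
    · simp only [add_zero, if_true, one_ne_zero, if_false]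
      linear_combination (-(y ^ n * a)) * hn
    · simp only [zero_add, one_ne_zero, if_false, if_true]
      rw [if_neg (by omega), if_neg (by omega), mul_smul_comm]
      have : y ^ (n + 1) * a * y = 0 := by linear_combination a * hy
      simp [this]
    · rw [if_neg (by omega), if_neg (by omega), if_neg (by omega), if_neg (by omega)]
      simp

theorem ext_nil (n : ℕ) : ∀ (A : FDAlg), HP A → ∀ y : A, y ^ (n + 1) = 0 →
    ∃ (A' : FDAlg) (e : Ext A A'), HP A' ∧ e.ι y ∈ sqSpan A' := by
  induction n with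
  | zero =>
    intro A hA y hy
    refine ⟨A, Ext.refl A, hA, ?_⟩
    have : y = 0 := by simpa using hy
    simp [this]
  | succ n ih =>
    intro A hA y hy
    obtain ⟨A', e, w, hA', hw, hy'⟩ := ext_nil_step A y n hy
    obtain ⟨A'', e', hA'', h⟩ := ih A' (hA.of_nil hA') _ hy'
    refine ⟨A'', e.trans e', hA'', ?_⟩
    have h2 : e'.ι w ∈ sqSpan A'' := Submodule.subset_span (Or.inr (by rw [← map_mul, hw, map_zero]))
    have := Submodule.add_mem _ h h2
    simpa using this

theorem ext_diag_sq (A : FDAlg) (w : A) (hw : w * w = 0) (hw1 : ‖w‖ ≤ 1) {ε : ℝ}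
    (hε : 0 < ε) : ∃ (A' : FDAlg) (e : Ext A A'), NilExt e ∧ ∃ D : A' ⊗[ℂ] A',
      lmul' ℂ D = 1 ∧ ‖D‖ ≤ 1 + ε ∧ ‖dl (e.ι w) * D‖ ≤ ε := by
  wlog hε1 : ε ≤ 1 generalizing ε
  · obtain ⟨A', e, h1, D, h2, h3, h4⟩ := this one_pos le_rfl
    exact ⟨A', e, h1, D, h2, by linarith, by linarith⟩
  have hε' : 0 < ε / 8 := by positivity
  obtain ⟨d, hd⟩ := exists_dim (δ := ε / 8 / 2 / (1 + 1 / (ε / 8))) (by positivity)
  set r : ℕ := Fintype.card (Ix d) with hr
  have hr0 : 0 < r := Fintype.card_pos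
  obtain ⟨N, hN⟩ := exists_nat_gt (r * 3 ^ r * 16 / (ε / 2) : ℝ)
  have hN0' : (0 : ℝ) < N := lt_of_le_of_lt (by positivity) hN
  have hN0 : 0 < N := by exact_mod_cast hN0'
  have hlog : 0 < Real.log (1 + ε) := Real.log_pos (by linarith)
  set c : ℝ := Real.log (1 + ε) / (4 * N * r) with hc
  have hc0 : 0 < c := by positivity
  set θ : ℝ := Real.exp (2 * c) with hθ
  have hθ1 : 1 ≤ θ := Real.one_le_exp (by positivity)
  have hθr : (θ ^ (2 * N)) ^ r = 1 + ε := by
    rw [← pow_mul, hθ, ← Real.exp_nat_mul, ← Real.exp_log (by linarith : 0 < 1 + ε)]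
    congr 1
    rw [hc]; push_cast; field_simp; norm_num
  have hθN : θ ^ (2 * N) ≤ 2 :=
    (le_self_pow₀ (one_le_pow₀ hθ1) hr0.ne').trans (by rw [hθr]; linarith)
  have hθ2 : θ ≤ 2 := (le_self_pow₀ hθ1 (by omega)).trans hθN
  obtain ⟨t, ⟨hX, M, hM⟩, ht0, ht⟩ := exists_unipotent_t hw hw1 hε' hd hc0
  let ω : Weight (Mon d) := ⟨fun x => om c x ^ 2, fun x => by positivity, by simp [om],
    fun x y => by
      rw [← mul_pow]
      unfold om
      rw [← Real.exp_add, ← mul_add, ← Finset.sum_add_distrib]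
      gcongr with i
      simpa using abs_add_le _ _⟩
  have hloc : ∀ (R : Type) [CommRing R] [Algebra ℂ R] (π : AddMonoidAlgebra A (Mon d) →ₐ[ℂ] R),
      (∀ x, (∀ f, TT t (x * f) = 0) → π x = 0) → ∀ s, π (single s 1) ∈ locSub R := by
    intro R _ _ π hπ
    have h1 : ∀ i, IsNilpotent (π (gg A i) - 1) := fun i =>
      ⟨M, by simpa using hπ _ (hM M le_rfl i)⟩
    refine gen_mem π hε'.ne' (hπ _ hX) (locSub R)
      (mem_locSub_map (π.comp singleZeroAlgHom) (mem_locSub_of_nilpotent ⟨2, by rw [pow_two, hw]⟩))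
      (fun i => ⟨1, by simpa using h1 i⟩)
      fun i => ⟨1, ?_⟩
    have : π (gi A i) - algebraMap ℂ R 1 = -π (gi A i) * (π (gg A i) - 1) := by
      have := congrArg π (gg_mul_gi (A := A) i)
      rw [map_mul, map_one] at this
      rw [map_one]
      linear_combination this
    rw [this]
    exact (Commute.all _ _).isNilpotent_mul_left (h1 i)
  obtain ⟨A', e, π, hι, hn, hker, hgen⟩ := exists_fdext A ω t ht0 ht
    (fun R _ _ π hπ s => locSub_le_integralClosure R (hloc R π hπ s))
  have hng : ∀ i, ‖π (gg A i)‖ ≤ θ := fun i => (hn _).trans (le_of_eq (by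
    simp only [ω, om, hθ]
    rw [← Real.exp_nat_mul, Finset.sum_eq_single i (fun k _ hk => by simp [Pi.single_eq_of_ne hk])
      (by simp)]
    simp))
  have hng' : ∀ i, ‖π (gi A i)‖ ≤ θ := fun i => (hn _).trans (le_of_eq (by
    simp only [ω, om, hθ]
    rw [← Real.exp_nat_mul, Finset.sum_eq_single i (fun k _ hk => by simp [Pi.single_eq_of_ne hk])
      (by simp)]
    simp))
  choose dd hd1 hd2 hd3 using fun i => exists_unit_diag (π (gg A i)) (π (gi A i))
    (by rw [← map_mul, gg_mul_gi, map_one]) hθ1 (hng i) (hng' i) hN0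
  obtain ⟨D, hD1, hD2, hD3⟩ := exists_prod_diag (fun i => π (gg A i)) dd (one_le_pow₀ hθ1)
    hd1 hd2 hd3
  rw [← hr, hθr] at hD2 hD3
  refine ⟨A', e, hgen (nilSub e) (fun a => ⟨a, by simp⟩)
    (fun s => loc_le_nilSub e (hloc A' π hker s)), D, hD1, hD2, ?_⟩
  have hD4 : ∀ i, ‖dl (π (gg A i)) * D‖ ≤ 16 / N := fun i => (hD3 i).trans (by
    calc _ ≤ 2 * 2 * 2 / (N : ℝ) * 2 := by gcongr; linarith
      _ = _ := by ring)
  have hP : ‖dl (π (PP A d)) * D‖ ≤ r * 3 ^ r * (16 / N) := by
    rw [PP, map_prod]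
    refine norm_dl_prod_le Finset.univ _ D (by norm_num) (by positivity) (fun i _ => ?_)
      (fun i _ => ?_)
    · rw [map_add, map_mul, AlgHom.commutes, AlgHom.commutes, ← Algebra.smul_def]
      refine (norm_add_le _ _).trans ?_
      rw [norm_algebraMap', norm_smul]
      have h1 := norm_ca_le i
      have h2 : ‖cb i‖ * ‖π (gg A i)‖ ≤ 1 * 2 := by
        gcongr
        · exact norm_cb_le i
        · exact (hng i).trans hθ2
      linarith
    · rw [map_add, map_mul, AlgHom.commutes, AlgHom.commutes, ← Algebra.smul_def,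
        Algebra.algebraMap_eq_smul_one, map_add, map_smul, map_smul, dl_one, smul_zero, zero_add,
        smul_mul_assoc, norm_smul]
      exact (mul_le_of_le_one_left (norm_nonneg _) (norm_cb_le i)).trans (hD4 i)
  have hZ : ‖e.ι w - π (PP A d)‖ ≤ ε / 8 := by
    rw [← hι, sub_PP_eq π (hker _ hX), norm_smul, Complex.norm_real, Real.norm_of_nonneg hε'.le]
    refine mul_le_of_le_one_right hε'.le ((hn _).trans (le_of_eq ?_))
    simp [ω, om]
  have e1 : dl (e.ι w) * D = dl (π (PP A d)) * D + dl (e.ι w - π (PP A d)) * D := by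
    rw [map_sub]; ring
  rw [e1]
  refine (norm_add_le _ _).trans ?_
  have h1 : ‖dl (e.ι w - π (PP A d)) * D‖ ≤ 2 * (ε / 8) * 2 :=
    (norm_mul_le _ _).trans (by
      gcongr
      · exact (norm_dl_le _).trans (by gcongr)
      · linarith)
  have h2 : (r : ℝ) * 3 ^ r * (16 / N) ≤ ε / 2 := by
    rw [div_lt_iff₀ (by positivity)] at hN
    rw [← mul_div_assoc, div_le_iff₀ hN0']
    linarith
  linarith

end Pool.Agent.Lib.MP_9053f7_an.S73
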