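import Pool.Agent.Lib.MP_9053f7_an.S73Spec

/-! Amenability, the functional on the tensor square, and the final theorem. -/

namespace Pool.Agent.Lib.MP_9053f7_an.S73

open Filter Topology WeakDual PT Algebra.TensorProduct
open scoped TensorProduct

namespace Tower

variable {T : Tower}

variable (T) in
lemma D_norm2 (n : ℕ) : ‖T.D n‖ ≤ 2 := by
  have h : 1 / (n + 2 : ℝ) ≤ 1 := by
    rw [div_le_one (by positivity)]; linarith [Nat.cast_nonneg (α := ℝ) n]
  linarith [T.D_norm n]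

variable (T) in
noncomputable def SS (N : ℕ) : T.Alg →L[ℂ] T.Alg :=
  LinearMap.mkContinuous (LinearMap.mulRight ℂ (T.cut N) +
    T.sig N ∘ₗ (T.k N).T ∘ₗ (T.co N).toLinearMap) 3 fun b => by
      change ‖b * T.cut N + T.sig N ((T.k N).T (T.co N b))‖ ≤ _
      have h1 : ‖b * T.cut N‖ ≤ ‖b‖ * 1 := (norm_mul_le _ _).trans (by gcongr; exact norm_cut_le N)
      have h2 := norm_sig_le N ((T.k N).T (T.co N b))
      have h3 := (T.k N).norm_T_le (T.co N b)
      linarith [norm_co_le N b, norm_add_le (b * T.cut N) (T.sig N ((T.k N).T (T.co N b)))]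

lemma SS_apply (N : ℕ) (b : T.Alg) :
    T.SS N b = b * T.cut N + T.sig N ((T.k N).T (T.co N b)) := rfl

lemma norm_SS_le (N : ℕ) : ‖T.SS N‖ ≤ 3 := LinearMap.mkContinuous_norm_le _ (by norm_num) _

lemma tendsto_SS (b : T.Alg) : Tendsto (fun N => T.SS N b) atTop (𝓝 b) := by
  rw [Metric.tendsto_nhds]
  intro ε hε
  obtain ⟨x, N₀, hx, hb⟩ := co_approx b (ε := ε / 5) (by positivity)
  filter_upwards [eventually_ge_atTop N₀, eventually_eps_mul_le (‖b‖ + ε / 5) (ε := ε / 5)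
    (by positivity)] with N hN hN'
  obtain ⟨h1, h2⟩ := norm_tail_sub_sig (N := N) (fun n hn => hx n (hN.trans hn))
    (fun n hn => hb n (hN.trans hn))
  have e : T.SS N b - b = T.sig N ((T.k N).T (T.co N b - (T.k N).ι (x N))) -
      (b * (1 - T.cut N) - T.sig N (x N)) := by
    rw [SS_apply, map_sub, (T.k N).T_ι, map_sub]; ring
  have h3 := norm_sig_le N ((T.k N).T (T.co N b - (T.k N).ι (x N)))
  have h4 := (T.k N).norm_T_le (T.co N b - (T.k N).ι (x N))
  have h5 : 1 / (N + 2 : ℝ) * ‖x N‖ ≤ 1 / (N + 2 : ℝ) * (‖b‖ + ε / 5) := by gcongr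
  rw [dist_eq_norm, e]
  refine (norm_sub_le _ _).trans_lt ?_
  linarith [hb N hN]

lemma finite_rank_SS (N : ℕ) : ∃ (n : ℕ) (l : Fin n → T.Alg →L[ℂ] ℂ) (x : Fin n → T.Alg),
    ∀ a, T.SS N a = ∑ i, l i a • x i := by
  let α : T.Alg →L[ℂ] (∀ n : Fin (N + 1), T.C n) := ContinuousLinearMap.pi fun n =>
    LinearMap.mkContinuous (T.co n).toLinearMap 1 fun b => by simpa using norm_co_le n b
  refine finite_rank_of_ker_le _ α fun b hb => ?_
  have h : ∀ n ≤ N, T.co n b = 0 := fun n hn => congrFun hb ⟨n, Nat.lt_succ_of_le hn⟩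
  rw [SS_apply, h N le_rfl, map_zero, map_zero, add_zero]
  refine ext_co fun n => ?_
  rw [map_mul, co_cut]
  split_ifs with hn
  · simp [h n hn.le]
  · simp

lemma exists_head_diag (N : ℕ) : ∃ D : T.Alg ⊗[ℂ] T.Alg, lmul' ℂ D = T.cut N ∧ ‖D‖ ≤ 1 ∧
    ∀ b, ‖dl b * D‖ ≤ 0 := by
  choose m G hG hG' using exists_lift_gens (T := T)
  let g : (Σ n : Fin N, Option (Fin (m n))) → T.Alg := fun p =>
    p.2.elim (T.lift p.1 (-1)) (G p.1)
  have hg : ∀ p, g p * g p = 1 ∧ ‖g p‖ ≤ 1 := by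
    rintro ⟨n, _ | i⟩
    · exact ⟨lift_mul_self (by simp), norm_lift_le (by simp)⟩
    · exact hG n i
  obtain ⟨D, h1, h2, h3⟩ := exists_prod_diag g (fun p => (1 / 2 : ℂ) • (1 + g p ⊗ₜ[ℂ] g p))
    (B := 1) (η := 0) le_rfl (fun p => by
      rw [map_smul, map_add, map_one, lmul'_apply_tmul, (hg p).1]
      module) (fun p => by
      rw [norm_smul]
      have a1 := norm_add_le (1 : T.Alg ⊗[ℂ] T.Alg) (g p ⊗ₜ[ℂ] g p)
      have a2 := norm_tmul_le (g p) (g p)
      have a3 := mul_le_one₀ (hg p).2 (norm_nonneg _) (hg p).2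
      rw [norm_one] at a1
      norm_num
      linarith) (fun p => by
      rw [mul_smul_comm, dl_apply, mul_add, mul_one, sub_mul, tmul_mul_tmul, tmul_mul_tmul,
        (hg p).1]
      simp)
  rw [one_pow] at h2
  let U : Subalgebra ℂ T.Alg :=
    { carrier := {x | ‖dl x * D‖ ≤ 0}
      mul_mem' := fun {x y} hx hy => by
        refine (norm_dl_mul_le x y D).trans ?_
        have a1 := mul_nonpos_of_nonneg_of_nonpos (norm_nonneg x) hy
        have a2 := mul_nonpos_of_nonneg_of_nonpos (norm_nonneg y) hx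
        linarith
      add_mem' := fun {x y} hx hy => by
        change ‖dl (x + y) * D‖ ≤ 0
        rw [map_add, add_mul]
        exact (norm_add_le _ _).trans (add_nonpos hx hy)
      algebraMap_mem' := fun c => by
        change ‖dl (algebraMap ℂ _ c) * D‖ ≤ 0
        rw [Algebra.algebraMap_eq_smul_one, map_smul, dl_one]; simp }
  have hU : ∀ p, g p ∈ U := fun p => by
    have := h3 p
    rwa [zero_mul] at this
  have hU1 : ∀ n : Fin N, T.sing n 1 ∈ U := fun n => by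
    have e : T.sing n 1 = (1 / 2 : ℂ) • (1 - g ⟨n, none⟩) := by
      simp only [g, Option.elim, lift, map_neg]
      module
    rw [e]
    exact U.smul_mem (U.sub_mem U.one_mem (hU _)) _
  have hU2 : ∀ b, b * T.cut N ∈ U := fun b => by
    rw [cut, Finset.mul_sum]
    refine U.sum_mem fun n hn => ?_
    obtain ⟨c, hc⟩ := hG' n b
    rw [hc]
    exact U.sum_mem fun i _ => U.smul_mem (U.mul_mem (hU1 ⟨n, Finset.mem_range.1 hn⟩)
      (hU ⟨⟨n, Finset.mem_range.1 hn⟩, some i⟩)) _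
  have hc : ‖T.cut N ⊗ₜ[ℂ] T.cut N‖ ≤ 1 := (norm_tmul_le _ _).trans
    (mul_le_one₀ (norm_cut_le N) (norm_nonneg _) (norm_cut_le N))
  refine ⟨(T.cut N ⊗ₜ[ℂ] T.cut N) * D, ?_, ?_, fun b => ?_⟩
  · rw [map_mul, h1, lmul'_apply_tmul, cut_mul_cut, mul_one]
  · exact (norm_mul_le _ _).trans (mul_le_one₀ hc (norm_nonneg _) h2)
  · have e : dl b * (T.cut N ⊗ₜ[ℂ] T.cut N) = (T.cut N ⊗ₜ[ℂ] T.cut N) * dl (b * T.cut N) := by
      simp only [dl_apply, sub_mul, mul_sub, tmul_mul_tmul, one_mul, mul_one]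
      rw [mul_left_comm (T.cut N) b, cut_mul_cut]
    rw [← mul_assoc, e, mul_assoc]
    exact (norm_mul_le _ _).trans (mul_nonpos_of_nonneg_of_nonpos (norm_nonneg _) (hU2 b))

lemma norm_map_sig_le (N : ℕ) (t : T.A N ⊗[ℂ] T.A N) :
    ‖TensorProduct.map (T.sig N) (T.sig N) t‖ ≤ 4 * ‖t‖ :=
  norm_map_le _ (by norm_num) (fun a b => by
    rw [TensorProduct.map_tmul]
    refine (norm_tmul_le _ _).trans ?_
    calc _ ≤ (2 * ‖a‖) * (2 * ‖b‖) := by gcongr <;> exact norm_sig_le _ _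
      _ = _ := by ring) t

lemma norm_lmul'_map_sig_le (N : ℕ) (t : T.A N ⊗[ℂ] T.A N) :
    ‖lmul' ℂ (TensorProduct.map (T.sig N) (T.sig N) t) - T.sig N (lmul' ℂ t)‖ ≤
      4 * (1 / (N + 2 : ℝ)) * ‖t‖ :=
  norm_map_le ((lmul' ℂ (S := T.Alg)).toLinearMap ∘ₗ TensorProduct.map (T.sig N) (T.sig N) -
    T.sig N ∘ₗ (lmul' ℂ (S := T.A N)).toLinearMap) (by positivity) (fun a b => by
      rw [LinearMap.sub_apply, norm_sub_rev]
      simpa using norm_sig_mul_le N a b) t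

lemma norm_dl_map_sig_le (N : ℕ) (b : T.Alg) (a : T.A N) {η : ℝ} (hη : 0 ≤ η)
    (h : ∀ u, ‖b * T.sig N u - T.sig N (a * u)‖ ≤ η * ‖u‖) (t : T.A N ⊗[ℂ] T.A N) :
    ‖dl b * TensorProduct.map (T.sig N) (T.sig N) t -
      TensorProduct.map (T.sig N) (T.sig N) (dl a * t)‖ ≤ 4 * η * ‖t‖ :=
  norm_map_le (LinearMap.mulLeft ℂ (dl b) ∘ₗ TensorProduct.map (T.sig N) (T.sig N) -
    TensorProduct.map (T.sig N) (T.sig N) ∘ₗ LinearMap.mulLeft ℂ (dl a)) (by positivity)
    (fun u v => by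
      have e : dl b * TensorProduct.map (T.sig N) (T.sig N) (u ⊗ₜ[ℂ] v) -
          TensorProduct.map (T.sig N) (T.sig N) (dl a * (u ⊗ₜ[ℂ] v)) =
          (b * T.sig N u - T.sig N (a * u)) ⊗ₜ[ℂ] T.sig N v -
            T.sig N u ⊗ₜ[ℂ] (b * T.sig N v - T.sig N (a * v)) := by
        simp only [dl_apply, sub_mul, tmul_mul_tmul, TensorProduct.map_tmul, map_sub, one_mul,
          TensorProduct.sub_tmul, TensorProduct.tmul_sub]
        abel
      change ‖dl b * TensorProduct.map (T.sig N) (T.sig N) (u ⊗ₜ[ℂ] v) -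
          TensorProduct.map (T.sig N) (T.sig N) (dl a * (u ⊗ₜ[ℂ] v))‖ ≤ _
      rw [e]
      refine (norm_sub_le _ _).trans ?_
      calc _ ≤ (η * ‖u‖) * (2 * ‖v‖) + (2 * ‖u‖) * (η * ‖v‖) := by
            refine add_le_add ((norm_tmul_le _ _).trans ?_) ((norm_tmul_le _ _).trans ?_)
            · gcongr; exacts [h u, norm_sig_le _ _]
            · gcongr; exacts [norm_sig_le _ _, h v]
        _ = _ := by ring) t

theorem amenable : IsAmenableBA T.Alg := by
  choose D₀ h1 h2 h3 using exists_head_diag (T := T)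
  refine amenable_of_diag
    (fun k => D₀ (k + 1) + TensorProduct.map (T.sig (k + 1)) (T.sig (k + 1)) (T.D k)) (C := 9)
    (fun k => ?_) ?_ fun b => ?_
  · have := norm_map_sig_le (k + 1) (T.D k)
    linarith [norm_add_le (D₀ (k + 1))
      (TensorProduct.map (T.sig (k + 1)) (T.sig (k + 1)) (T.D k)), h2 (k + 1), T.D_norm2 k]
  · rw [tendsto_iff_norm_sub_tendsto_zero]
    have := tendsto_eps.const_mul 9
    rw [mul_zero] at this
    refine squeeze_zero (fun k => norm_nonneg _) (fun k => ?_) this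
    have a1 := norm_lmul'_map_sig_le (k + 1) (T.D k)
    have a2 := (norm_tail_sub_sig (T := T) (b := 1) (x := 1) (N := k + 1) (ε := 0)
      (fun n _ => by simp) (fun n _ => by simp)).1
    rw [T.D_mul] at a1
    simp only [Pi.one_apply, one_mul, norm_one, mul_one, zero_add] at a2
    have a3 := eps_anti (Nat.le_succ k)
    have a4 : 4 * (1 / ((k + 1 : ℕ) + 2 : ℝ)) * ‖T.D k‖ ≤ 4 * (1 / (k + 2 : ℝ)) * 2 := by
      gcongr
      exact T.D_norm2 k
    have e : lmul' ℂ (D₀ (k + 1) + TensorProduct.map (T.sig (k + 1)) (T.sig (k + 1)) (T.D k)) - 1 =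
        (lmul' ℂ (TensorProduct.map (T.sig (k + 1)) (T.sig (k + 1)) (T.D k)) - T.sig (k + 1) 1) -
          (1 - T.cut (k + 1) - T.sig (k + 1) 1) := by
      rw [map_add, h1]; ring
    rw [e]
    refine (norm_sub_le _ _).trans ?_
    linarith
  · rw [Metric.tendsto_nhds]
    intro ε hε
    obtain ⟨x, N₀, hx, hb⟩ := co_approx b (ε := ε / 100) (by positivity)
    filter_upwards [eventually_ge_atTop N₀, eventually_eps_mul_le (‖b‖ + ε / 100) (ε := ε / 100)
      (by positivity)] with k hk hk'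
    have hk1 : N₀ ≤ k + 1 := hk.trans (Nat.le_succ k)
    obtain ⟨a1, a2⟩ := norm_tail_sub_sig (N := k + 1) (fun n hn => hx n (hk1.trans hn))
      (fun n hn => hb n (hk1.trans hn))
    have a3 : 1 / ((k + 1 : ℕ) + 2 : ℝ) * ‖x (k + 1)‖ ≤ ε / 100 := by
      refine le_trans ?_ hk'
      gcongr
      exact Nat.le_succ k
    have a4 : ∀ u, ‖b * T.sig (k + 1) u - T.sig (k + 1) (x (k + 1) * u)‖ ≤ 8 * (ε / 100) * ‖u‖ := by
      intro u
      have e : b * T.sig (k + 1) u - T.sig (k + 1) (x (k + 1) * u) =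
          (b * (1 - T.cut (k + 1)) - T.sig (k + 1) (x (k + 1))) * T.sig (k + 1) u -
          (T.sig (k + 1) (x (k + 1) * u) - T.sig (k + 1) (x (k + 1)) * T.sig (k + 1) u) := by
        linear_combination b * cut_mul_sig (k + 1) u
      have b1 : ‖(b * (1 - T.cut (k + 1)) - T.sig (k + 1) (x (k + 1))) * T.sig (k + 1) u‖ ≤
          (2 * (ε / 100)) * (2 * ‖u‖) := (norm_mul_le _ _).trans (by
        gcongr
        · linarith
        · exact norm_sig_le _ _)
      have b2 := norm_sig_mul_le (k + 1) (x (k + 1)) u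
      have b3 : 4 * (1 / ((k + 1 : ℕ) + 2 : ℝ)) * (‖x (k + 1)‖ * ‖u‖) ≤ 4 * (ε / 100) * ‖u‖ := by
        calc _ = 4 * (1 / ((k + 1 : ℕ) + 2 : ℝ) * ‖x (k + 1)‖) * ‖u‖ := by ring
          _ ≤ _ := by gcongr
      rw [e]
      refine (norm_sub_le _ _).trans ?_
      linarith
    have a5 := norm_dl_map_sig_le (k + 1) b (x (k + 1)) (by positivity) a4 (T.D k)
    have a6 := norm_map_sig_le (k + 1) (dl (x (k + 1)) * T.D k)
    have a7 : ‖dl (x (k + 1)) * T.D k‖ ≤ ε / 100 := by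
      have := T.D_dl k (x k)
      rw [← hx k hk] at this
      refine this.trans (le_trans ?_ hk')
      gcongr
      rwa [hx k hk, Ext.norm_ι] at a2
    have a8 : 4 * (8 * (ε / 100)) * ‖T.D k‖ ≤ 4 * (8 * (ε / 100)) * 2 := by
      gcongr; exact T.D_norm2 k
    rw [Real.dist_eq, sub_zero, abs_norm, ← dl_apply, mul_add]
    have a9 := norm_le_norm_add_norm_sub'
      (dl b * TensorProduct.map (T.sig (k + 1)) (T.sig (k + 1)) (T.D k))
      (TensorProduct.map (T.sig (k + 1)) (T.sig (k + 1)) (dl (x (k + 1)) * T.D k))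
    refine (norm_add_le _ _).trans_lt ?_
    linarith [h3 (k + 1) b]


variable (T) in
/-- The projection onto the semisimple part. -/
noncomputable def pr (n : ℕ) : T.A n →ₐ[ℂ] T.A n := (T.part n).p.comp (T.part n).q

lemma norm_pr_le (n : ℕ) (a : T.A n) : ‖T.pr n a‖ ≤ ‖a‖ :=
  ((T.part n).norm_p _).trans ((T.part n).norm_q a)

lemma pr_nil {n : ℕ} {a : T.A n} (h : IsNilpotent a) : T.pr n a = 0 := by
  change (T.part n).p ((T.part n).q a) = 0
  rw [(T.part n).q_nil h, map_zero]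

lemma pr_idem {n : ℕ} {z : T.A n} (h : z * z = z) : T.pr n z = z := by
  have h1 : T.pr n z * T.pr n z = T.pr n z := by rw [← map_mul, h]
  obtain ⟨m, hm⟩ : IsNilpotent (z - T.pr n z) := (T.part n).nil z
  have h3 : (z - T.pr n z) * (z - T.pr n z) * (z - T.pr n z) = z - T.pr n z := by
    linear_combination (z + 1 - 3 * T.pr n z) * h - (T.pr n z + 1 - 3 * z) * h1
  have h4 : ∀ k : ℕ, (z - T.pr n z) ^ (2 * k) * (z - T.pr n z) = z - T.pr n z := by
    intro k
    induction k with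
    | zero => simp
    | succ k ih => linear_combination (z - T.pr n z) ^ (2 * k) * h3 + ih
  have h5 := h4 m
  rw [two_mul, pow_add, hm, zero_mul, zero_mul] at h5
  exact (sub_eq_zero.1 h5.symm).symm

variable (T) in
/-- The asymptotically multiplicative map to the `n`-th stage. -/
noncomputable def rho (n : ℕ) : T.Alg →ₗ[ℂ] T.A n := (T.k n).T ∘ₗ (T.co n).toLinearMap

lemma norm_rho_le (n : ℕ) (b : T.Alg) : ‖T.rho n b‖ ≤ ‖b‖ :=
  ((T.k n).norm_T_le _).trans (norm_co_le n b)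

lemma rho_one (n : ℕ) : T.rho n 1 = 1 := by
  change (T.k n).T (T.co n 1) = 1
  rw [map_one, ← map_one (T.k n).ι, (T.k n).T_ι]

lemma rho_mul {E : T.Alg} (hE : E ∈ T.Gd) (a : T.Alg) {ε : ℝ} (hε : 0 < ε) :
    ∀ᶠ n in atTop, T.pr n (T.rho n E) = T.rho n E ∧
      ‖T.rho n (E * a) - T.rho n E * T.rho n a‖ ≤ ε := by
  obtain ⟨x, N, -, hx⟩ := co_approx a (ε := ε / (2 * (‖E‖ + 1))) (by positivity)
  filter_upwards [hE, eventually_ge_atTop N] with n ⟨z, hz, hz'⟩ hn
  have h1 : T.rho n E = z := by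
    change (T.k n).T (T.co n E) = z
    rw [hz', (T.k n).T_ι]
  refine ⟨by rw [h1, pr_idem hz], ?_⟩
  have h2 : T.rho n (E * a) - T.rho n E * T.rho n a =
      (T.k n).T (T.co n E * (T.co n a - (T.k n).ι (x n))) -
        T.rho n E * (T.k n).T (T.co n a - (T.k n).ι (x n)) := by
    rw [h1]
    change (T.k n).T (T.co n (E * a)) - z * (T.k n).T (T.co n a) = _
    rw [map_mul, mul_sub, map_sub, map_sub, hz', ← map_mul (T.k n).ι z (x n), (T.k n).T_ι,
      (T.k n).T_ι]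
    ring
  have h3 : ‖(T.k n).T (T.co n E * (T.co n a - (T.k n).ι (x n)))‖ ≤
      ‖E‖ * (ε / (2 * (‖E‖ + 1))) :=
    ((T.k n).norm_T_le _).trans ((norm_mul_le _ _).trans (by
      gcongr
      exacts [norm_co_le n E, hx n hn]))
  have h4 : ‖T.rho n E * (T.k n).T (T.co n a - (T.k n).ι (x n))‖ ≤
      ‖E‖ * (ε / (2 * (‖E‖ + 1))) :=
    (norm_mul_le _ _).trans (by
      gcongr
      exacts [norm_rho_le n E, ((T.k n).norm_T_le _).trans (hx n hn)])
  have h5 : ‖E‖ * (ε / (2 * (‖E‖ + 1))) ≤ ε / 2 := by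
    rw [← mul_div_assoc, div_le_div_iff₀ (by positivity) (by positivity)]
    nlinarith [norm_nonneg E]
  rw [h2]
  exact (norm_sub_le _ _).trans (by linarith)

theorem exists_functional {B : Type*} [NormedCommRing B] [NormedAlgebra ℂ B] [CompleteSpace B]
    {j : T.Alg ⊗[ℂ] T.Alg →ₐ[ℂ] B} (hj : IsProjTensor j) : ∃ (L : B →L[ℂ] ℂ) (b : T.Alg),
      (∀ E ∈ T.Gd, ∀ a b, L (j ((E * a) ⊗ₜ[ℂ] b)) = L (j (a ⊗ₜ[ℂ] (E * b)))) ∧
        L (j (b ⊗ₜ[ℂ] 1)) ≠ L (j (1 ⊗ₜ[ℂ] b)) := by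
  have hy : ∀ n, ‖T.emb 0 n (Nat.zero_le n) T.y‖ = 1 := fun n => by rw [T.norm_emb, T.y_norm]
  choose Λ hΛ hΛ' using fun n => exists_dual_vector ℂ (T.emb 0 n (Nat.zero_le n) T.y)
    (by rw [hy]; exact one_ne_zero)
  have hΛn : ∀ n x, ‖Λ n x‖ ≤ ‖x‖ := fun n x => by simpa [hΛ] using (Λ n).le_opNorm x
  have hex : ∀ n, ∃ L : B →L[ℂ] ℂ, ‖L‖ ≤ 1 ∧
      ∀ a b, L (j (a ⊗ₜ[ℂ] b)) = Λ n (T.pr n (T.rho n a) * T.rho n b) := by
    intro n
    let Φ : T.Alg ⊗[ℂ] T.Alg →ₗ[ℂ] ℂ := TensorProduct.lift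
      (LinearMap.mk₂ ℂ (fun a b => Λ n (T.pr n (T.rho n a) * T.rho n b))
        (by intros; simp [add_mul]) (by intros; simp) (by intros; simp [mul_add])
        (by intros; simp))
    have hΦ : ∀ a b, Φ (a ⊗ₜ[ℂ] b) = Λ n (T.pr n (T.rho n a) * T.rho n b) := fun a b => by
      simp [Φ]
    obtain ⟨L, h1, h2⟩ := hj.exists_ext Φ zero_le_one fun a b => by
      rw [hΦ, one_mul]
      refine (hΛn _ _).trans ((norm_mul_le _ _).trans ?_)
      gcongr
      exacts [(norm_pr_le _ _).trans (norm_rho_le _ _), norm_rho_le _ _]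
    exact ⟨L, L.opNorm_le_bound zero_le_one h2, fun a b => by rw [h1, hΦ]⟩
  choose Ln hLn hLn' using hex
  obtain ⟨L, hL⟩ := exists_weak_limit Ln hLn
  have hU : (hyperfilter ℕ : Filter ℕ) ≤ atTop := by
    rw [← Nat.cofinite_eq_atTop]; exact hyperfilter_le_cofinite
  have key : ∀ (u : B) (c : ℂ), (∀ ε > 0, ∀ᶠ n in atTop, ‖Ln n u - c‖ ≤ ε) → L u = c := by
    intro u c h
    refine tendsto_nhds_unique (hL u) (Tendsto.mono_left ?_ hU)
    rw [Metric.tendsto_nhds]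
    intro ε hε
    filter_upwards [h _ (half_pos hε)] with n hn
    rw [dist_eq_norm]; linarith
  have hb : ∀ ε > 0, ∀ᶠ n in atTop,
      ‖T.rho n (T.sig 0 T.y) - T.emb 0 n (Nat.zero_le n) T.y‖ ≤ ε := by
    intro ε hε
    filter_upwards [eventually_eps_mul_le 1 hε] with n hn
    have e : T.rho n (T.sig 0 T.y) - T.emb 0 n (Nat.zero_le n) T.y =
        (T.k n).T (T.φ n (T.emb 0 n (Nat.zero_le n) T.y) -
          (T.k n).ι (T.emb 0 n (Nat.zero_le n) T.y)) := by
      rw [map_sub, (T.k n).T_ι, ← co_sig_of_le (Nat.zero_le n)]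
      rfl
    rw [e]
    refine ((T.k n).norm_T_le _).trans ((T.φ_close _ _).trans ?_)
    rwa [hy]
  refine ⟨L, T.sig 0 T.y, fun E hE a b => ?_, ?_⟩
  · rw [← sub_eq_zero, ← map_sub]
    refine key _ 0 fun ε hε => ?_
    set δ := ε / (‖a‖ + ‖b‖ + 1) with hδ
    have hδ0 : 0 < δ := by positivity
    filter_upwards [rho_mul hE a hδ0, rho_mul hE b hδ0] with n ⟨h1, h2⟩ ⟨_, h3⟩
    have e : T.pr n (T.rho n (E * a)) * T.rho n b - T.pr n (T.rho n a) * T.rho n (E * b) =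
        T.pr n (T.rho n (E * a) - T.rho n E * T.rho n a) * T.rho n b -
          T.pr n (T.rho n a) * (T.rho n (E * b) - T.rho n E * T.rho n b) := by
      rw [map_sub, map_mul (T.pr n), h1]; ring
    rw [sub_zero, map_sub, hLn', hLn', ← map_sub, e]
    refine (hΛn _ _).trans ((norm_sub_le _ _).trans ?_)
    have a1 : ‖T.pr n (T.rho n (E * a) - T.rho n E * T.rho n a) * T.rho n b‖ ≤ δ * ‖b‖ :=
      (norm_mul_le _ _).trans (by
        gcongr
        exacts [(norm_pr_le _ _).trans h2, norm_rho_le _ _])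
    have a2 : ‖T.pr n (T.rho n a) * (T.rho n (E * b) - T.rho n E * T.rho n b)‖ ≤ ‖a‖ * δ :=
      (norm_mul_le _ _).trans (by
        gcongr
        exact (norm_pr_le _ _).trans (norm_rho_le _ _))
    have a3 : δ * (‖a‖ + ‖b‖ + 1) = ε := by rw [hδ]; field_simp
    nlinarith
  · rw [key _ 0 fun ε hε => ?_, key _ 1 fun ε hε => ?_]
    · exact zero_ne_one
    · filter_upwards [hb ε hε] with n hn
      have e : (1 : ℂ) = Λ n (T.emb 0 n (Nat.zero_le n) T.y) := by rw [hΛ', hy]; simp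
      rw [hLn', rho_one, map_one, one_mul, e, ← map_sub]
      exact (hΛn _ _).trans hn
    · filter_upwards [hb ε hε] with n hn
      have e : T.pr n (T.emb 0 n (Nat.zero_le n) T.y) = 0 :=
        pr_nil ⟨2, by rw [pow_two, ← map_mul, T.y_sq, map_zero]⟩
      rw [hLn', rho_one, mul_one, sub_zero, ← sub_zero (T.pr n _), ← e, ← map_sub]
      exact (hΛn _ _).trans ((norm_pr_le _ _).trans hn)

end Tower

theorem exists_counterexample : ∃ (A : Type) (_ : NormedCommRing A) (_ : NormedAlgebra ℂ A)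
    (_ : CompleteSpace A) (B : Type) (_ : NormedCommRing B) (_ : NormedAlgebra ℂ B)
    (_ : CompleteSpace B) (j : A ⊗[ℂ] A →ₐ[ℂ] B), IsProjTensor j ∧ IsSemisimpleBA A ∧
      IsRegularBA A ∧ IsSemisimpleBA B ∧ IsAmenableBA A ∧
      (∀ φ : characterSpace ℂ A, IsSpectralSet A {φ}) ∧ ¬ IsSpectralSet B (diagonal j) := by
  obtain ⟨T⟩ := exists_tower
  obtain ⟨B, _, _, _, j, hj⟩ := exists_projTensor T.Alg
  obtain ⟨L, b, h1, h2⟩ := Tower.exists_functional hj
  have hB : IsSemisimpleBA B := hj.semisimple Tower.semisimple T.SS Tower.norm_SS_le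
    Tower.tendsto_SS Tower.finite_rank_SS
  exact ⟨T.Alg, _, _, inferInstance, B, _, _, inferInstance, j, hj, Tower.semisimple,
    Tower.ditkin.regular, hB, Tower.amenable, Tower.ditkin.spectral,
    Tower.ditkin.not_spectral hj hB L h1 b h2⟩

end Pool.Agent.Lib.MP_9053f7_an.S73
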