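import Pool.Agent.Lib.MP_9053f7_an.S73Alg
import Pool.Agent.Lib.MP_9053f7_an.S73Abs
import Pool.Agent.Lib.MP_9053f7_an.Final

/-! Semisimplicity and relative units at all points of the spectrum. -/

namespace Pool.Agent.Lib.MP_9053f7_an.S73

open Filter Topology WeakDual

namespace Tower

variable {T : Tower}

theorem semisimple : IsSemisimpleBA T.Alg := by
  intro b hb
  refine ext_co fun n => ?_
  obtain ⟨m, h, h1, h2⟩ := exists_inv_gens (T.C n)
  obtain ⟨q, hq1, hq2, hq3⟩ := exists_eigen_decomp h (fun i => (h1 i).1) (invSub (T.C n))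
    (fun i => Algebra.subset_adjoin (h1 i))
  obtain ⟨c, hc⟩ := h2 _ (co_mem n b)
  rw [map_zero, ← mul_one (T.co n b), ← hq1, Finset.mul_sum]
  refine Finset.sum_eq_zero fun σ _ => ?_
  choose s hs using hq3 σ
  have h3 : T.co n b * q σ = (∑ i, c i * s i) • q σ := by
    rw [hc, Finset.sum_mul, Finset.sum_smul]
    exact Finset.sum_congr rfl fun i _ => by rw [smul_mul_assoc, hs, smul_smul]
  by_cases hq : q σ = 0
  · rw [hq, mul_zero]
  have h4 : (b - algebraMap ℂ _ (∑ i, c i * s i)) * T.sing n ⟨q σ, hq2 σ⟩ = 0 := by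
    refine ext_co fun k => ?_
    rcases eq_or_ne k n with rfl | hk
    · rw [map_mul, co_sing_self, map_sub, AlgHom.commutes, sub_mul, h3, Algebra.smul_def]
      simp
    · simp [co_sing_ne hk]
  have h5 : ¬ IsUnit (b - algebraMap ℂ _ (∑ i, c i * s i)) := by
    intro hu
    have := congrArg (T.co n) (hu.mul_right_eq_zero.1 h4)
    rw [co_sing_self, map_zero] at this
    exact hq this
  obtain ⟨φ, hφ⟩ := CharacterSpace.exists_apply_eq_zero h5
  rw [map_sub, hb, AlgHomClass.commutes, zero_sub, neg_eq_zero] at hφ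
  rw [h3]
  exact smul_eq_zero_of_left hφ _

variable (T) in
/-- Lift of an element of the `n`-th fibre, equal to `1` in the other fibres. -/
noncomputable def lift (n : ℕ) (β : invSub (T.C n)) : T.Alg := 1 - T.sing n 1 + T.sing n β

lemma co_lift_self (n : ℕ) (β : invSub (T.C n)) : T.co n (T.lift n β) = β := by
  simp [lift, co_sing_self]

lemma co_lift_ne {n m : ℕ} (h : m ≠ n) (β : invSub (T.C n)) : T.co m (T.lift n β) = 1 := by
  simp [lift, co_sing_ne h]

lemma lift_mul_self {n : ℕ} {β : invSub (T.C n)} (h : β.1 * β.1 = 1) :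
    T.lift n β * T.lift n β = 1 := ext_co fun m => by
  rcases eq_or_ne m n with rfl | hm
  · simp [co_lift_self, h]
  · simp [co_lift_ne hm]

lemma norm_lift_le {n : ℕ} {β : invSub (T.C n)} (h : ‖β.1‖ ≤ 1) : ‖T.lift n β‖ ≤ 1 :=
  norm_le_of_co fun m => by
    rcases eq_or_ne m n with rfl | hm
    · simpa [co_lift_self] using h
    · simp [co_lift_ne hm]

lemma exists_lift_gens (n : ℕ) : ∃ (m : ℕ) (G : Fin m → T.Alg),
    (∀ i, G i * G i = 1 ∧ ‖G i‖ ≤ 1) ∧
      ∀ b : T.Alg, ∃ c : Fin m → ℂ, b * T.sing n 1 = ∑ i, c i • (T.sing n 1 * G i) := by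
  obtain ⟨m, h, h1, h2⟩ := exists_inv_gens (T.C n)
  refine ⟨m, fun i => T.lift n ⟨h i, Algebra.subset_adjoin (h1 i)⟩,
    fun i => ⟨lift_mul_self (h1 i).1, norm_lift_le (h1 i).2⟩, fun b => ?_⟩
  obtain ⟨c, hc⟩ := h2 _ (co_mem n b)
  refine ⟨c, ext_co fun k => ?_⟩
  rcases eq_or_ne k n with rfl | hk
  · simp [co_sing_self, co_lift_self, hc]
  · simp [co_sing_ne hk]

lemma emb_mem {N n : ℕ} (h : N ≤ n) {z : T.A N} (hz : z ∈ invSub (T.A N)) :
    T.emb N n h z ∈ invSub (T.A n) := by
  induction n, h using Nat.le_induction with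
  | base => rwa [emb_self]
  | succ n h ih => rw [emb_succ T h]; exact mem_invSub_map _ ih

/-- Exact lift of an element of the span of the involutions. -/
noncomputable def tau {N : ℕ} (z : T.A N) (hz : z ∈ invSub (T.A N)) : T.Alg :=
  mkEl (fun n => if h : N ≤ n then (T.k n).ι (T.emb N n h z) else 0)
    (fun n => by
      split_ifs with h
      exacts [mem_invSub_map _ (emb_mem h hz), Subalgebra.zero_mem _]) (c := ‖z‖)
    (fun n => by
      split_ifs with h
      · rw [Ext.norm_ι, T.norm_emb]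
      · simp)
    (fun ε hε => ⟨fun n => if h : N ≤ n then T.emb N n h z else 0, by
      filter_upwards [eventually_ge_atTop N] with n hn
      rw [dif_pos hn, dif_pos (hn.trans (Nat.le_succ n)), T.emb_succ hn], by
      filter_upwards [eventually_ge_atTop N] with n hn
      rw [dif_pos hn, dif_pos hn, sub_self, norm_zero]
      exact hε.le⟩)

lemma co_tau_of_le {N n : ℕ} (h : N ≤ n) (z : T.A N) (hz) :
    T.co n (tau z hz) = (T.k n).ι (T.emb N n h z) := dif_pos h

lemma co_tau_of_lt {N n : ℕ} (h : n < N) (z : T.A N) (hz) : T.co n (tau z hz) = 0 :=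
  dif_neg (not_le.2 h)

variable (T) in
/-- Elements that are eventually images of idempotents. -/
def Gd : Set T.Alg := {E | ∀ᶠ n in atTop, ∃ z : T.A n, z * z = z ∧ T.co n E = (T.k n).ι z}

lemma ditkin_inf {χ : characterSpace ℂ T.Alg} (hχ : ∀ n, χ (T.sing n 1) = 0) {b : T.Alg}
    (hb : χ b = 0) {ε : ℝ} (hε : 0 < ε) : ∃ E ∈ T.Gd, E * E = E ∧ χ E = 1 ∧ ‖E * b‖ ≤ ε := by
  obtain ⟨x, N₀, hx, hb'⟩ := co_approx b (ε := ε / 4) (by positivity)
  obtain ⟨N, hN, hN'⟩ := ((eventually_ge_atTop N₀).and (eventually_eps_mul_le (‖b‖ + ε / 4)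
    (ε := ε / 4) (by positivity))).exists
  have hxN := (norm_tail_sub_sig (N := N) (fun n hn => hx n (hN.trans hn))
    (fun n hn => hb' n (hN.trans hn))).2
  obtain ⟨κ, _, z, h1, h2, h3⟩ := T.small N
  have e1 : ∀ i, z i = (1 / 2 : ℂ) • (1 - (1 - (2 : ℂ) • z i)) := fun i => by module
  have hz : ∀ i, z i ∈ invSub (T.A (N + 1)) := fun i => by
    have hinv : (1 - (2 : ℂ) • z i) * (1 - (2 : ℂ) • z i) = 1 := by
      simp only [mul_sub, sub_mul, one_mul, mul_one, smul_mul_smul_comm, (h2 i).1]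
      module
    have hmem : (1 - (2 : ℂ) • z i) ∈ invSub (T.A (N + 1)) :=
      Algebra.subset_adjoin (And.intro hinv (h2 i).2)
    rw [e1 i]
    exact Subalgebra.smul_mem _ (Subalgebra.sub_mem _ (Subalgebra.one_mem _) hmem) _
  have hzn : ∀ i, ‖z i‖ ≤ 1 := fun i => by
    rw [e1 i, norm_smul]
    have := norm_sub_le (1 : T.A (N + 1)) (1 - (2 : ℂ) • z i)
    rw [norm_one] at this
    norm_num at this ⊢
    rw [norm_smul] at this
    have h4 := (h2 i).2
    norm_num at this
    rw [norm_smul]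
    norm_num
    linarith
  have hsum : ∑ i, tau (z i) (hz i) = 1 - T.cut (N + 1) := ext_co fun n => by
    rw [map_sum, map_sub, co_cut, map_one]
    split_ifs with hn
    · simp [co_tau_of_lt hn]
    · simp only [co_tau_of_le (not_lt.1 hn), ← map_sum, h1, map_one, sub_zero]
  have hidem : ∀ i, tau (z i) (hz i) * tau (z i) (hz i) = tau (z i) (hz i) := fun i =>
    ext_co fun n => by
      rcases lt_or_ge n (N + 1) with hn | hn
      · simp [co_tau_of_lt hn]
      · rw [map_mul, co_tau_of_le hn, ← map_mul, ← map_mul, (h2 i).1]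
  obtain ⟨i, hi⟩ : ∃ i, χ (tau (z i) (hz i)) ≠ 0 := by
    by_contra hc
    push Not at hc
    have := congrArg χ hsum
    rw [map_sum, map_sub, map_one, cut, map_sum] at this
    simp [hc, hχ] at this
  have hi1 := idem_val χ (hidem i) hi
  obtain ⟨c, hc⟩ := h3 (x N) i
  have h5 : ‖tau (z i) (hz i) * (b - algebraMap ℂ _ c)‖ ≤ ε / 2 := norm_le_of_co fun n => by
    rcases lt_or_ge n (N + 1) with hn | hn
    · simp only [map_mul, co_tau_of_lt hn, zero_mul, norm_zero]; positivity
    · have a1 : T.emb (N + 1) n hn ((T.e N).ι (x N)) = x n := by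
        rw [← hx N hN]
        exact T.emb_coh (fun m hm => hx m (by omega)) hn
      have a2 : T.co n (tau (z i) (hz i) * (b - algebraMap ℂ _ c)) =
          (T.k n).ι (T.emb (N + 1) n hn (z i)) * (T.co n b - (T.k n).ι (x n)) +
          (T.k n).ι (T.emb (N + 1) n hn (z i * ((T.e N).ι (x N) - algebraMap ℂ _ c))) := by
        simp only [map_mul, map_sub, co_tau_of_le hn, a1, AlgHom.commutes]
        ring
      rw [a2]
      refine (norm_add_le _ _).trans ?_
      rw [Ext.norm_ι, T.norm_emb]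
      have a3 := norm_mul_le ((T.k n).ι (T.emb (N + 1) n hn (z i))) (T.co n b - (T.k n).ι (x n))
      rw [Ext.norm_ι, T.norm_emb] at a3
      have a4 := mul_le_of_le_one_left (norm_nonneg (T.co n b - (T.k n).ι (x n))) (hzn i)
      have a5 : 1 / (N + 2 : ℝ) * ‖x N‖ ≤ 1 / (N + 2 : ℝ) * (‖b‖ + ε / 4) := by gcongr
      linarith [hb' n (by omega)]
  have h6 := AlgHom.norm_apply_le_self χ (tau (z i) (hz i) * (b - algebraMap ℂ _ c))
  rw [map_mul, hi1, one_mul, map_sub, hb, AlgHomClass.commutes, zero_sub, norm_neg] at h6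
  have h7 : ‖tau (z i) (hz i)‖ ≤ 1 := norm_le_of_co fun n => by
    rcases lt_or_ge n (N + 1) with hn | hn
    · simp [co_tau_of_lt hn]
    · rw [co_tau_of_le hn, Ext.norm_ι, T.norm_emb]; exact hzn i
  refine ⟨_, ?_, hidem i, hi1, ?_⟩
  · filter_upwards [eventually_ge_atTop (N + 1)] with n hn
    exact ⟨_, by rw [← map_mul, (h2 i).1], co_tau_of_le hn _ _⟩
  · have e2 : tau (z i) (hz i) * b =
        tau (z i) (hz i) * (b - algebraMap ℂ _ c) + c • tau (z i) (hz i) := by
      rw [Algebra.smul_def]; ring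
    rw [e2]
    refine (norm_add_le _ _).trans ?_
    rw [norm_smul]
    have h8 : ‖c‖ ≤ ε / 2 := h6.trans h5
    have h9 := mul_le_of_le_one_right (norm_nonneg c) h7
    linarith

theorem ditkin : Ditkin T.Gd := by
  intro φ b hb ε hε
  by_cases h : ∀ n, φ (T.sing n 1) = 0
  · exact ditkin_inf h hb hε
  obtain ⟨n, hn⟩ := not_forall.1 h
  have hone : φ (T.sing n 1) = 1 := idem_val φ (ext_co fun m => by
    rcases eq_or_ne m n with rfl | hm
    · simp [co_sing_self]
    · simp [co_sing_ne hm]) hn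
  obtain ⟨m, G, hG, hG'⟩ := exists_lift_gens (T := T) n
  have hsq : ∀ i, φ (G i) * φ (G i) = 1 := fun i => by rw [← map_mul, (hG i).1, map_one]
  set E := T.sing n 1 * ∏ i, (1 / 2 : ℂ) • (1 + φ (G i) • G i) with hE
  have h1 : φ E = 1 := by
    rw [hE, map_mul, hone, one_mul, map_prod]
    refine Finset.prod_eq_one fun i _ => ?_
    rw [map_smul, map_add, map_smul, map_one, smul_eq_mul, smul_eq_mul, hsq]
    norm_num
  have h2 : ∀ i, T.sing n 1 * G i * ∏ i, (1 / 2 : ℂ) • (1 + φ (G i) • G i) = φ (G i) • E := by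
    intro i
    rw [hE, ← Finset.mul_prod_erase _ _ (Finset.mem_univ i), ← mul_smul_comm, mul_assoc,
      ← mul_assoc (G i), ← smul_mul_assoc]
    congr 2
    simp only [mul_smul_comm, mul_add, mul_one, (hG i).1, smul_add, smul_smul]
    rw [mul_comm (φ (G i)) (1 / 2 * φ (G i)), mul_assoc, hsq]
    module
  have h3 : ∀ a, E * a = φ a • E := by
    intro a
    obtain ⟨c, hc⟩ := hG' a
    have a1 := congrArg φ hc
    simp only [map_mul, map_sum, map_smul, hone, mul_one, one_mul, smul_eq_mul] at a1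
    rw [a1, Finset.sum_smul, mul_comm, hE, ← mul_assoc, hc, Finset.sum_mul]
    refine Finset.sum_congr rfl fun i _ => ?_
    rw [smul_mul_assoc, h2, smul_smul]
  refine ⟨E, ?_, by rw [h3, h1, one_smul], h1, by rw [h3, hb, zero_smul, norm_zero]; exact hε.le⟩
  filter_upwards [eventually_gt_atTop n] with k hk
  exact ⟨0, mul_zero _, by rw [hE, map_mul, co_sing_ne hk.ne', zero_mul, map_zero]⟩

end Tower

end Pool.Agent.Lib.MP_9053f7_an.S73
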