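import Pool.Agent.Lib.MP_9053f7_an.S73Uni

/-! The splitting step: new idempotents that make the radical small. -/

namespace Pool.Agent.Lib.MP_9053f7_an.S73

open AddMonoidAlgebra

theorem exists_ext_weight {A : Type} [NormedCommRing A] [NormedAlgebra ℂ A] {S : Type}
    [AddCommMonoid S] (ω : Weight S) (t : S → A)
    (ht : ∀ s, ‖t s‖ ≤ ω.w s) :
    ∃ (A' : Type) (_ : NormedCommRing A') (_ : NormedAlgebra ℂ A')
      (π : AddMonoidAlgebra A S →ₐ[ℂ] A') (T : A' →ₗ[ℂ] A), Function.Surjective π ∧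
      (∀ s a, ‖π (single s a)‖ ≤ ‖a‖ * ω.w s) ∧ (∀ x, ‖T x‖ ≤ ‖x‖) ∧
      (∀ f, T (π f) = TT t f) ∧ ∀ x, (∀ f, TT t (x * f) = 0) → π x = 0 := by
  let := l1Ring (A := A) ω
  let : NormedAlgebra ℂ (AddMonoidAlgebra A S) :=
    { (inferInstance : Algebra ℂ (AddMonoidAlgebra A S)) with norm_smul_le := l1_smul_le ω }
  have hT : ∀ f, ‖TT t f‖ ≤ 1 * ‖f‖ := norm_map_le_l1 ω (TT t).toAddMonoidHom (fun s a => by
    change ‖TT t _‖ ≤ _
    rw [TT_single, one_mul]
    exact (norm_mul_le _ _).trans (by gcongr; exact ht s))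
  have hTc : Continuous (TT t) := AddMonoidHomClass.continuous_of_bound (TT t) 1 hT
  let I : Ideal (AddMonoidAlgebra A S) :=
    { carrier := {x | ∀ f, TT t (x * f) = 0}
      add_mem' := fun {x y} hx hy f => by rw [add_mul, map_add, hx f, hy f, add_zero]
      zero_mem' := fun f => by simp
      smul_mem' := fun c x hx f => by rw [smul_eq_mul, mul_comm c x, mul_assoc, hx] }
  have hI : IsClosed (I : Set (AddMonoidAlgebra A S)) := by
    have : (I : Set (AddMonoidAlgebra A S)) = ⋂ f, {x | TT t (x * f) = 0} := by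
      ext x; simp [I]
    rw [this]
    exact isClosed_iInter fun f => isClosed_eq (hTc.comp (continuous_mul_const f)) continuous_const
  let T₀ : AddMonoidAlgebra A S →ₗ[ℂ] A := (TT t).restrictScalars ℂ
  let T : (AddMonoidAlgebra A S ⧸ I) →ₗ[ℂ] A :=
    (I.restrictScalars ℂ).liftQ T₀ (fun x hx => by simpa [T₀] using hx 1) ∘ₗ
      (Submodule.Quotient.restrictScalarsEquiv ℂ I).symm.toLinearMap
  have hTπ : ∀ f, T (Ideal.Quotient.mkₐ ℂ I f) = TT t f := fun f => rfl
  refine ⟨AddMonoidAlgebra A S ⧸ I, inferInstance, inferInstance, Ideal.Quotient.mkₐ ℂ I, T,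
    Ideal.Quotient.mkₐ_surjective ℂ I, fun s a => ?_, fun x => ?_, hTπ, fun x hx => ?_⟩
  · exact (Ideal.Quotient.norm_mk_le I _).trans (l1_single ω s a).le
  · refine le_of_forall_pos_le_add fun ε hε => ?_
    obtain ⟨f, rfl, hf⟩ := Ideal.Quotient.norm_mk_lt x hε
    have := hT f
    rw [← hTπ, one_mul] at this
    exact this.trans hf.le
  · exact Ideal.Quotient.eq_zero_iff_mem.2 hx

theorem exists_renorm (A : FDAlg) {V : Type} [CommRing V] [Algebra ℂ V] [Algebra A V]
    [IsScalarTower ℂ A V] [FiniteDimensional ℂ V] (T : V →ₗ[A] A) (hT1 : T 1 = 1)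
    (G : Submonoid V) (hG : ∀ g ∈ G, ‖T g‖ ≤ 1) (hspan : Submodule.span A (G : Set V) = ⊤)
    (hf : ∀ v, (∀ w, T (v * w) = 0) → v = 0) :
    ∃ (A' : FDAlg) (e : Ext A A') (π : V ≃ₐ[ℂ] A'),
      (∀ a, π (algebraMap A V a) = e.ι a) ∧ ∀ g ∈ G, ‖π g‖ ≤ 1 := by
  let ω : Weight (Additive G) := ⟨fun _ => 1, fun _ => zero_le_one, rfl, fun _ _ => by simp⟩
  let t : Additive G → A := fun s => T (s.toMul : G)
  obtain ⟨A', _, _, π, T', hsurj, hn, hT', hTπ, hker⟩ :=
    exists_ext_weight ω t (fun s => hG _ (s.toMul : G).2)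
  let ev : AddMonoidAlgebra A (Additive G) →ₐ[A] V := AddMonoidAlgebra.lift A V (Additive G)
    { toFun := fun s => (s.toAdd.toMul : G), map_one' := rfl, map_mul' := fun _ _ => rfl }
  have hev : ∀ s a, ev (single s a) = a • ((s.toMul : G) : V) := fun s a => by simp [ev]
  have hTT : ∀ f, TT t f = T (ev f) := by
    intro f
    induction f using AddMonoidAlgebra.induction_linear with
    | zero => simp
    | add f g hf hg => simp only [map_add, hf, hg]
    | single s a => rw [TT_single, hev, map_smul, smul_eq_mul]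
  have hevs : Function.Surjective (ev.restrictScalars ℂ) := by
    intro v
    have : v ∈ LinearMap.range ev.toLinearMap := by
      refine (Submodule.span_le.2 ?_ : Submodule.span A (G : Set V) ≤ _) (hspan ▸ trivial)
      intro g hg
      exact ⟨single (Additive.ofMul ⟨g, hg⟩) 1, by simp [hev]⟩
    exact this
  have hk : RingHom.ker (ev.restrictScalars ℂ) = RingHom.ker π := by
    ext x
    simp only [RingHom.mem_ker]
    constructor
    · intro hx
      refine hker x fun f => ?_
      have hx' : ev x = 0 := hx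
      rw [hTT, map_mul, hx', zero_mul, map_zero]
    · intro hx
      refine hf _ fun w => ?_
      obtain ⟨f, rfl⟩ := hevs w
      change T (ev x * ev f) = 0
      rw [← map_mul, ← hTT, ← hTπ, map_mul, hx, zero_mul, map_zero]
  let ψ : V ≃ₐ[ℂ] A' := (Ideal.quotientKerAlgEquivOfSurjective hevs).symm.trans
    ((Ideal.quotientEquivAlgOfEq ℂ hk).trans (Ideal.quotientKerAlgEquivOfSurjective hsurj))
  have hψ : ∀ f, ψ (ev f) = π f := by
    intro f
    have h1 : (Ideal.quotientKerAlgEquivOfSurjective hevs).symm (ev f) =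
        Ideal.Quotient.mk _ f := by
      rw [AlgEquiv.symm_apply_eq]; rfl
    simp only [ψ, AlgEquiv.trans_apply, h1]
    rfl
  let ι : A →ₐ[ℂ] A' := π.comp singleZeroAlgHom
  have hι : ∀ a, π (single 0 a) = ι a := fun a => rfl
  have hTι : ∀ a, T' (ι a) = a := fun a => by
    rw [← hι, hTπ, TT_single]
    change a * T 1 = a
    rw [hT1, mul_one]
  have hιn : ∀ a, ‖ι a‖ ≤ ‖a‖ := fun a => by simpa [ω, hι] using hn 0 a
  have h1 : NormOneClass A' := ⟨le_antisymm (by simpa using hιn 1) (by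
    have := hT' (ι 1)
    rwa [hTι, map_one, norm_one] at this)⟩
  have h5 : FiniteDimensional ℂ A' := ψ.toLinearEquiv.finiteDimensional
  refine ⟨⟨A'⟩, ⟨ι, T', hιn, hT', hTι⟩, ψ, fun a => ?_, fun g hg => ?_⟩
  · have : ev (single 0 a) = algebraMap A V a := by
      rw [hev, Algebra.algebraMap_eq_smul_one]; rfl
    rw [← this, hψ]; rfl
  · have : ev (single (Additive.ofMul ⟨g, hg⟩) 1) = g := by simp [hev]
    rw [← this, hψ]
    simpa [ω] using hn (Additive.ofMul ⟨g, hg⟩) 1

/-- The generators of the unit ball in the splitting step. -/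
def gens {A : FDAlg} (P : Part A) (M : ℕ) (K : ℝ) : Submonoid (Fin M → A) where
  carrier := {g | (∃ c : Fin M → P.X → ℂ, (∀ i, ‖c i‖ ≤ 1) ∧ g = fun i => P.p (c i)) ∨
    ∃ i k r, r ∈ nilradical A ^ (k + 1) ∧ ‖r‖ ≤ K ^ (k + 1) ∧ g = Pi.single i r}
  one_mem' := Or.inl ⟨1, fun i => (pi_norm_le_iff_of_nonneg zero_le_one).2 fun _ => by simp,
    by funext i; simp⟩
  mul_mem' := by
    have key : ∀ (c : Fin M → P.X → ℂ), (∀ i, ‖c i‖ ≤ 1) → ∀ (i : Fin M) k (r : A),
        r ∈ nilradical A ^ (k + 1) → ‖r‖ ≤ K ^ (k + 1) →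
        ∃ i' k' r', r' ∈ nilradical A ^ (k' + 1) ∧ ‖r'‖ ≤ K ^ (k' + 1) ∧
          (fun i => P.p (c i)) * Pi.single i r = (Pi.single i' r' : Fin M → A) := by
      intro c hc i k r h1 h2
      refine ⟨i, k, P.p (c i) * r, Ideal.mul_mem_left _ _ h1, ?_, ?_⟩
      · exact (norm_mul_le _ _).trans
          ((mul_le_of_le_one_left (norm_nonneg _) ((P.norm_p _).trans (hc i))).trans h2)
      · funext j
        by_cases hj : j = i
        · subst hj; simp
        · simp [Pi.single_eq_of_ne hj]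
    rintro _ _ (⟨c, hc, rfl⟩ | ⟨i, k, r, h1, h2, rfl⟩) (⟨c', hc', rfl⟩ | ⟨i', k', r', h1', h2', rfl⟩)
    · refine Or.inl ⟨c * c', fun i => (norm_mul_le _ _).trans
        (mul_le_one₀ (hc i) (norm_nonneg _) (hc' i)), ?_⟩
      funext i; simp
    · exact Or.inr (key c hc i' k' r' h1' h2')
    · rw [mul_comm]; exact Or.inr (key c' hc' i k r h1 h2)
    · by_cases hi : i = i'
      · subst hi
        refine Or.inr ⟨i, k + k' + 1, r * r', ?_, ?_, by rw [Pi.single_mul]⟩
        · rw [show k + k' + 1 + 1 = (k + 1) + (k' + 1) by ring, pow_add]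
          exact Ideal.mul_mem_mul h1 h1'
        · rw [show k + k' + 1 + 1 = (k + 1) + (k' + 1) by ring, pow_add]
          exact (norm_mul_le _ _).trans
            (mul_le_mul h2 h2' (norm_nonneg _) ((norm_nonneg _).trans h2))
      · refine Or.inr ⟨i, k, 0, Ideal.zero_mem _, ?_, ?_⟩
        · rw [norm_zero]; exact (norm_nonneg _).trans h2
        · funext j
          by_cases hj : j = i
          · subst hj; simp [Pi.single_eq_of_ne hi]
          · simp [Pi.single_eq_of_ne hj]

/-- A partition of unity that makes the elements of `A` almost scalar. -/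
def Small {A A' : FDAlg} (e : Ext A A') (ε : ℝ) : Prop :=
  ∃ (κ : Type) (_ : Fintype κ) (z : κ → A'), ∑ i, z i = 1 ∧
    (∀ i, z i * z i = z i ∧ ‖1 - (2 : ℂ) • z i‖ ≤ 1) ∧
      ∀ a i, ∃ c : ℂ, ‖z i * (e.ι a - algebraMap ℂ A' c)‖ ≤ ε * ‖a‖

theorem ext_split (A : FDAlg) (hA : HP A) {ε : ℝ} (hε : 0 < ε) :
    ∃ (A' : FDAlg) (e : Ext A A'), HP A' ∧ Small e ε := by
  classical
  obtain ⟨P⟩ := hA
  obtain ⟨ν, hν⟩ : IsNilpotent (nilradical A) := by
    have : IsNoetherianRing A := IsNoetherianRing.of_finite ℂ A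
    exact IsNoetherianRing.isNilpotent_nilradical A
  set K : ℝ := 1 + 2 / ε with hK
  have hK1 : 1 ≤ K := le_add_of_nonneg_right (by positivity)
  obtain ⟨M, hM⟩ := exists_nat_ge (K ^ ν)
  have hM1 : (1 : ℝ) ≤ M := (one_le_pow₀ hK1).trans hM
  have hM0 : (M : ℂ) ≠ 0 := by
    have : (M : ℝ) ≠ 0 := by linarith
    exact_mod_cast this
  let T : (Fin M → A) →ₗ[A] A :=
    { toFun := fun v => (M : ℂ)⁻¹ • ∑ i, v i
      map_add' := fun v w => by simp [Finset.sum_add_distrib]
      map_smul' := fun a v => by simp [Finset.mul_sum, Finset.smul_sum] }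
  have hT : ∀ v, T v = (M : ℂ)⁻¹ • ∑ i, v i := fun v => rfl
  have hTn : ∀ v, ‖∑ i, v i‖ ≤ M → ‖T v‖ ≤ 1 := fun v hv => by
    rw [hT, norm_smul, norm_inv, Complex.norm_natCast, inv_mul_le_iff₀ (by linarith), mul_one]
    exact hv
  have hs1 : ∀ i : Fin M, (Pi.single i 1 : Fin M → A) ∈ gens P M K := fun i =>
    Or.inl ⟨Pi.single i 1, fun j => (pi_norm_le_iff_of_nonneg zero_le_one).2 fun x => by
      by_cases hj : j = i
      · subst hj; simp
      · simp [Pi.single_eq_of_ne hj], by
      funext j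
      by_cases hj : j = i
      · subst hj; simp
      · simp [Pi.single_eq_of_ne hj]⟩
  obtain ⟨A', e, π, hι, hn⟩ := exists_renorm A T (by
      rw [hT]
      simp only [Pi.one_apply, Finset.sum_const, Finset.card_univ, Fintype.card_fin]
      rw [← Nat.cast_smul_eq_nsmul ℂ, smul_smul, inv_mul_cancel₀ hM0, one_smul])
    (gens P M K) (by
      rintro _ (⟨c, hc, rfl⟩ | ⟨i, k, r, h1, h2, rfl⟩)
      · refine hTn _ ((norm_sum_le_of_le _ fun i _ => (P.norm_p _).trans (hc i)).trans ?_)
        simp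
      · refine hTn _ ?_
        rw [Finset.sum_pi_single', if_pos (Finset.mem_univ i)]
        rcases le_or_gt ν (k + 1) with h | h
        · have := Ideal.pow_le_pow_right (I := nilradical A) h h1
          rw [hν] at this
          rw [(Submodule.mem_bot _).1 this, norm_zero]
          linarith
        · exact h2.trans ((pow_le_pow_right₀ hK1 h.le).trans hM))
    (by
      refine eq_top_iff.2 fun v _ => ?_
      have : v = ∑ i, v i • (Pi.single i 1 : Fin M → A) := by
        funext j; simp [Finset.sum_apply, Pi.single_apply]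
      rw [this]
      exact Submodule.sum_mem _ fun i _ => Submodule.smul_mem _ _ (Submodule.subset_span (hs1 i)))
    (fun v hv => by
      funext i
      have := hv (Pi.single i 1)
      rw [hT, smul_eq_zero_iff_right (inv_ne_zero hM0), Finset.sum_eq_single i
        (fun j _ hj => by simp [Pi.single_eq_of_ne hj]) (by simp)] at this
      simpa using this)
  let p' : (Fin M × P.X → ℂ) →ₐ[ℂ] (Fin M → A) := AlgHom.pi fun i =>
    P.p.comp (AlgHom.pi fun x => Pi.evalAlgHom ℂ (fun _ => ℂ) (i, x))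
  have hp' : ∀ c i, p' c i = P.p fun x => c (i, x) := fun c i => rfl
  let q' : (Fin M → A) →ₐ[ℂ] (Fin M × P.X → ℂ) := AlgHom.pi fun y =>
    (Pi.evalAlgHom ℂ (fun _ => ℂ) y.2).comp (P.q.comp (Pi.evalAlgHom ℂ (fun _ => A) y.1))
  have hq' : ∀ v y, q' v y = P.q (v y.1) y.2 := fun c i => rfl
  have hpn1 : ∀ c, ‖c‖ ≤ 1 → ‖π (p' c)‖ ≤ 1 := fun c hc => hn _ (Or.inl ⟨fun i x => c (i, x),
    fun i => (pi_norm_le_iff_of_nonneg zero_le_one).2 fun x => (norm_le_pi_norm c _).trans hc, rfl⟩)
  let P' : Part A' :=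
    { X := Fin M × P.X
      p := (π : (Fin M → A) →ₐ[ℂ] A').comp p'
      q := q'.comp (π.symm : A' →ₐ[ℂ] (Fin M → A))
      norm_p := fun c => by
        rcases eq_or_ne c 0 with rfl | hc
        · simp
        have h0 : ‖c‖ ≠ 0 := norm_ne_zero_iff.2 hc
        have h1 : ((‖c‖ : ℝ) : ℂ) ≠ 0 := by exact_mod_cast h0
        have h2 := hpn1 (((‖c‖ : ℝ) : ℂ)⁻¹ • c) (by
          rw [norm_smul, norm_inv, Complex.norm_real, norm_norm, inv_mul_cancel₀ h0])
        rw [map_smul, map_smul, norm_smul, norm_inv, Complex.norm_real, norm_norm,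
          inv_mul_le_iff₀ (by positivity), mul_one] at h2
        exact h2
      qp := fun c => by
        funext y
        simp [hq', hp', P.qp]
      nil := fun a => by
        obtain ⟨v, rfl⟩ := π.surjective a
        have h1 : IsNilpotent (v - p' (q' v)) := ⟨ν, by
          funext i
          have h2 : (v i - P.p (P.q (v i))) ^ ν ∈ nilradical A ^ ν :=
            Ideal.pow_mem_pow (mem_nilradical.2 (P.nil _)) ν
          rw [hν] at h2
          exact (Submodule.mem_bot _).1 h2⟩
        simpa using h1.map π }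
  refine ⟨A', e, ⟨P'⟩, Fin M × P.X, inferInstance, fun y => P'.p (Pi.single y 1), ?_,
    fun y => ⟨?_, (@Part.src_single A' P' (inferInstanceAs (DecidableEq (Fin M × P.X))) y).2⟩, fun a y => ⟨P.q a y.2, ?_⟩⟩
  · rw [← map_sum, Finset.univ_sum_single]
    exact map_one P'.p
  · rw [← map_mul, ← Pi.single_mul, one_mul]
  · obtain ⟨i, x⟩ := y
    set r : A := a - P.p (P.q a) with hr
    have hrn : ‖r‖ ≤ 2 * ‖a‖ := by
      linarith [norm_sub_le a (P.p (P.q a)), P.norm_p (P.q a), P.norm_q a]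
    have h1 : p' (Pi.single (i, x) 1) * (algebraMap A (Fin M → A) a - algebraMap ℂ _ (P.q a x)) =
        p' (Pi.single (i, x) 1) * Pi.single i r := by
      funext j
      simp only [Pi.mul_apply, hp', Pi.sub_apply, Pi.algebraMap_apply, Algebra.algebraMap_self,
        RingHom.id_apply]
      by_cases hj : j = i
      · subst hj
        rw [Pi.single_eq_same, hr, mul_sub, mul_sub, ← map_mul, ← P.p.commutes, ← map_mul]
        congr 2
        funext x'
        by_cases hx : x' = x
        · subst hx; simp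
        · simp [hx]
      · have : (fun x' => (Pi.single (i, x) 1 : Fin M × P.X → ℂ) (j, x')) = 0 := by
          funext x'; simp [hj]
        simp [this]
    have h2 : ‖π (Pi.single i r)‖ ≤ ε / 2 * ‖r‖ := by
      rcases eq_or_ne r 0 with h | h
      · simp [h]
      have h0 : 0 < ‖r‖ := norm_pos_iff.2 h
      have h3 := hn (Pi.single i (((K / ‖r‖ : ℝ) : ℂ) • r)) (Or.inr ⟨i, 0, _, by
        rw [zero_add, pow_one, Algebra.smul_def]
        exact Ideal.mul_mem_left _ _ (mem_nilradical.2 (P.nil a)), by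
        rw [norm_smul, Complex.norm_real, Real.norm_of_nonneg (by positivity), zero_add, pow_one,
          div_mul_cancel₀ _ h0.ne'], rfl⟩)
      rw [Pi.single_smul, map_smul, norm_smul, Complex.norm_real,
        Real.norm_of_nonneg (by positivity), div_mul_eq_mul_div, div_le_one h0] at h3
      have h4 : ε / 2 * K = ε / 2 + 1 := by rw [hK]; field_simp
      nlinarith [norm_nonneg (π (Pi.single i r)), mul_le_mul_of_nonneg_left h3 (half_pos hε).le]
    have h5 : ‖π (p' (Pi.single (i, x) 1))‖ ≤ 1 := hpn1 _ (by rw [Pi.norm_single, norm_one])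
    change ‖π (p' (Pi.single (i, x) 1)) * _‖ ≤ _
    rw [← hι, ← π.commutes, ← map_sub, ← map_mul, h1, map_mul]
    refine (norm_mul_le _ _).trans ((mul_le_of_le_one_left (norm_nonneg _) h5).trans (h2.trans ?_))
    nlinarith

end Pool.Agent.Lib.MP_9053f7_an.S73
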