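import Pool.Agent.Lib.MP_9053f7_an.S73Ext

/-! Uniform approximation by involutions and approximate diagonals, over a semisimple part. -/

namespace Pool.Agent.Lib.MP_9053f7_an.S73

open Filter Topology PT Algebra.TensorProduct
open scoped TensorProduct

/-- Involutions and square-zero elements of norm at most one. -/
def Src (A : FDAlg) (w : A) : Prop := (w * w = 1 ∨ w * w = 0) ∧ ‖w‖ ≤ 1

lemma Src.map (A A' : FDAlg) (e : Ext A A') (x : A) (h : Src A x) : Src A' (e.ι x) := by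
  obtain ⟨h, h'⟩ := h
  refine ⟨?_, (e.norm_ι_le x).trans h'⟩
  rcases h with h | h
  · left; rw [← map_mul, h, map_one]
  · right; rw [← map_mul, h, map_zero]

lemma sqSpan_le (A : FDAlg) : sqSpan A ≤ Submodule.span ℂ {w : A | Src A w} := by
  refine Submodule.span_le.2 ?_
  rintro w (hw | hw)
  · exact Submodule.subset_span ⟨Or.inl (by simp [hw]), by simp [hw]⟩
  · have h1 : ((‖w‖ + 1 : ℝ) : ℂ) ≠ 0 := by
      exact_mod_cast (by positivity : (‖w‖ + 1 : ℝ) ≠ 0)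
    have h2 : w = ((‖w‖ + 1 : ℝ) : ℂ) • ((‖w‖ + 1 : ℝ) : ℂ)⁻¹ • w := by
      rw [smul_smul, mul_inv_cancel₀ h1, one_smul]
    rw [h2]
    refine Submodule.smul_mem _ _ (Submodule.subset_span ⟨Or.inr ?_, ?_⟩)
    · rw [smul_mul_smul_comm, hw, smul_zero]
    · rw [norm_smul, norm_inv, Complex.norm_real, Real.norm_of_nonneg (by positivity),
        inv_mul_le_iff₀ (by positivity)]
      linarith

lemma Part.src_single {A : FDAlg} (P : Part A) [DecidableEq P.X] (x : P.X) :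
    Src A (1 - (2 : ℂ) • P.p (Pi.single x 1)) := by
  have h : (1 : A) - (2 : ℂ) • P.p (Pi.single x 1) = P.p (1 - (2 : ℂ) • Pi.single x 1) := by simp
  rw [h]
  refine ⟨Or.inl ?_, (P.norm_p _).trans ((pi_norm_le_iff_of_nonneg zero_le_one).2 fun y => ?_)⟩
  · rw [← map_mul, ← map_one P.p]
    congr 1
    funext y
    by_cases hy : y = x
    · subst hy; simp; norm_num
    · simp [Pi.single_eq_of_ne hy]
  · by_cases hy : y = x
    · subst hy; simp; norm_num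
    · simp [Pi.single_eq_of_ne hy]

lemma Part.mem_span {A A' : FDAlg} (P : Part A) (e : Ext A A') (c : P.X → ℂ) :
    e.ι (P.p c) ∈ Submodule.span ℂ {w : A' | Src A' w} := by
  classical
  have h : c = ∑ x, c x • Pi.single x (1 : ℂ) := by
    funext y; simp [Finset.sum_apply, Pi.single_apply]
  rw [h, map_sum, map_sum]
  refine Submodule.sum_mem _ fun x _ => ?_
  rw [map_smul, map_smul]
  refine Submodule.smul_mem _ _ ?_
  have h1 : e.ι (P.p (Pi.single x 1)) =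
      (1 / 2 : ℂ) • (1 - e.ι (1 - (2 : ℂ) • P.p (Pi.single x 1))) := by
    simp only [map_sub, map_one, map_smul]; module
  rw [h1]
  exact Submodule.smul_mem _ _ (Submodule.sub_mem _
    (Submodule.subset_span ⟨Or.inl (one_mul _), norm_one.le⟩)
    (Submodule.subset_span (Src.map _ _ e _ (P.src_single x))))

theorem ext_span (A : FDAlg) (hA : HP A) :
    ∃ (A' : FDAlg) (e : Ext A A'), HP A' ∧
      ∀ a, e.ι a ∈ Submodule.span ℂ {w : A' | Src A' w} := by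
  obtain ⟨P⟩ := id hA
  let b := Module.finBasis ℂ A
  obtain ⟨A', e, hA', h⟩ := ext_finset HP (fun _ x => IsNilpotent x)
    (fun A x => x ∈ sqSpan A) (fun _ _ e _ hx => hx.map e.ι)
    (fun _ _ e _ hx => mem_sqSpan_map e.ι hx) (fun A hA x ⟨n, hn⟩ =>
      ext_nil n A hA x (by rw [pow_succ, hn, zero_mul])) A hA
      (fun i => b i - P.p (P.q (b i))) Finset.univ (fun _ _ => P.nil _)
  refine ⟨A', e, hA', fun a => ?_⟩
  rw [← b.sum_repr a, map_sum]
  refine Submodule.sum_mem _ fun i _ => ?_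
  rw [map_smul]
  refine Submodule.smul_mem _ _ ?_
  have := Submodule.add_mem _ (sqSpan_le A' (h i (Finset.mem_univ i))) (P.mem_span e (P.q (b i)))
  simpa using this

theorem ext_coef (A : FDAlg) (hA : HP A) : ∃ (A' : FDAlg) (e : Ext A A'), HP A' ∧
    ∃ (n : ℕ) (v : Fin n → A') (c : A →ₗ[ℂ] Fin n → ℂ) (K : ℝ), 0 < K ∧ (∀ i, Src A' (v i)) ∧
      (∀ a, e.ι a = ∑ i, c a i • v i) ∧ ∀ a, ∑ i, ‖c a i‖ ≤ K * ‖a‖ := by
  obtain ⟨A', e, hA', h⟩ := ext_span A hA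
  obtain ⟨n, v, hv, hspan⟩ := exists_finite_span {w : A' | Src A' w}
  let Φ := Fintype.linearCombination ℂ v
  have hmem : ∀ a, e.ι.toLinearMap a ∈ LinearMap.range Φ := fun a => by
    rw [Fintype.range_linearCombination, hspan]; exact h a
  obtain ⟨c, hc⟩ := Module.projective_lifting_property Φ.rangeRestrict
    (e.ι.toLinearMap.codRestrict _ hmem) Φ.surjective_rangeRestrict
  let c' := LinearMap.toContinuousLinearMap c
  refine ⟨A', e, hA', n, v, c, n * ‖c'‖ + 1, by positivity, hv, fun a => ?_, fun a => ?_⟩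
  · have := congrArg Subtype.val (LinearMap.congr_fun hc a)
    simpa [Φ, Fintype.linearCombination_apply] using this.symm
  · have h1 : ∀ i, ‖c a i‖ ≤ ‖c'‖ * ‖a‖ := fun i =>
      (norm_le_pi_norm (c a) i).trans (c'.le_opNorm a)
    refine (Finset.sum_le_sum fun i _ => h1 i).trans ?_
    simp only [Finset.sum_const, Finset.card_univ, Fintype.card_fin, nsmul_eq_mul]
    nlinarith [norm_nonneg a]

theorem ext_inv (A : FDAlg) (hA : HP A) {ε : ℝ} (hε : 0 < ε) :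
    ∃ (C : FDAlg) (e : Ext A C) (φ : A →ₗ[ℂ] C), (∀ a, φ a ∈ invSub C) ∧
      ∀ a, ‖φ a - e.ι a‖ ≤ ε * ‖a‖ := by
  obtain ⟨A', e, -, n, v, c, K, hK, hv, hc, hcK⟩ := ext_coef A hA
  obtain ⟨C, e', -, h⟩ := ext_finset (fun _ => True) Src
    (fun A x => ∃ b ∈ invSub A, ‖x - b‖ ≤ ε / K) Src.map
    (fun _ _ e x ⟨b, hb, hb'⟩ => ⟨e.ι b, mem_invSub_map e hb, by
      rw [← map_sub]; exact (e.norm_ι_le _).trans hb'⟩)
    (fun A _ x hx => by
      obtain ⟨h1 | h1, h2⟩ := hx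
      · exact ⟨A, Ext.refl A, trivial, x, Algebra.subset_adjoin ⟨h1, h2⟩, by simp; positivity⟩
      · obtain ⟨A', e, h⟩ := ext_inv_sq A x h1 h2 (ε := ε / K) (by positivity)
        exact ⟨A', e, trivial, h⟩) A' trivial v Finset.univ (fun i _ => hv i)
  choose b hb hb' using fun i => h i (Finset.mem_univ i)
  refine ⟨C, e.trans e', Fintype.linearCombination ℂ b ∘ₗ c, fun a => ?_, fun a => ?_⟩
  · simp only [LinearMap.comp_apply, Fintype.linearCombination_apply]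
    exact Subalgebra.sum_mem _ fun i _ => Subalgebra.smul_mem _ (hb i) _
  · simp only [LinearMap.comp_apply, Fintype.linearCombination_apply, Ext.trans_ι, hc, map_sum,
      map_smul, ← Finset.sum_sub_distrib, ← smul_sub]
    refine (norm_sum_le_of_le (n := fun i => ‖c a i‖ * (ε / K)) _ fun i _ => ?_).trans ?_
    · rw [norm_smul, norm_sub_rev]; gcongr; exact hb' i
    · rw [← Finset.sum_mul]
      calc _ ≤ K * ‖a‖ * (ε / K) := by gcongr; exact hcK a
        _ = _ := by field_simp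

lemma inv_diag {R : Type*} [NormedCommRing R] [NormedAlgebra ℂ R] [NormOneClass R] (g : R)
    (h1 : g * g = 1) (h2 : ‖g‖ ≤ 1) :
    lmul' ℂ ((1 / 2 : ℂ) • (1 + g ⊗ₜ[ℂ] g)) = 1 ∧ ‖(1 / 2 : ℂ) • (1 + g ⊗ₜ[ℂ] g)‖ ≤ 1 ∧
      dl g * ((1 / 2 : ℂ) • (1 + g ⊗ₜ[ℂ] g)) = 0 := by
  refine ⟨?_, ?_, ?_⟩
  · rw [map_smul, map_add, map_one, lmul'_apply_tmul, h1]
    module
  · rw [norm_smul]
    have a1 := norm_add_le (1 : R ⊗[ℂ] R) (g ⊗ₜ[ℂ] g)
    have a2 := norm_tmul_le g g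
    have a3 := mul_le_one₀ h2 (norm_nonneg _) h2
    rw [norm_one] at a1
    norm_num
    linarith
  · rw [mul_smul_comm, dl_apply, mul_add, mul_one, sub_mul, tmul_mul_tmul, tmul_mul_tmul, h1]
    simp

theorem ext_diag (A : FDAlg) (hA : HP A) {ε : ℝ} (hε : 0 < ε) :
    ∃ (A' : FDAlg) (e : Ext A A'), HP A' ∧ ∃ D : A' ⊗[ℂ] A', lmul' ℂ D = 1 ∧ ‖D‖ ≤ 1 + ε ∧
      ∀ a, ‖dl (e.ι a) * D‖ ≤ ε * ‖a‖ := by
  obtain ⟨A', e, hA', n, v, c, K, hK, hv, hc, hcK⟩ := ext_coef A hA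
  obtain ⟨δ, hδ, hδ1, hδ2⟩ : ∃ δ : ℝ, 0 < δ ∧ (1 + δ) ^ n ≤ 1 + min ε 1 ∧ δ ≤ ε / K / 2 := by
    have h1 : ContinuousAt (fun δ : ℝ => (1 + δ) ^ n) 0 := by fun_prop
    have h2 := h1.eventually_lt continuousAt_const (show (1 + 0 : ℝ) ^ n < 1 + min ε 1 by simp [hε])
    have h3 : ∀ᶠ δ in 𝓝 (0 : ℝ), δ < ε / K / 2 := eventually_lt_nhds (by positivity)
    obtain ⟨δ, ⟨a1, a2⟩, a3⟩ := (((h2.and h3).filter_mono nhdsWithin_le_nhds).and
      (self_mem_nhdsWithin (s := Set.Ioi (0 : ℝ)))).exists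
    exact ⟨δ, a3, a1.le, a2.le⟩
  obtain ⟨C, e', hC, h⟩ := ext_finset HP Src
    (fun A x => ∃ D : A ⊗[ℂ] A, lmul' ℂ D = 1 ∧ ‖D‖ ≤ 1 + δ ∧ ‖dl x * D‖ ≤ δ) Src.map
    (fun _ _ e x ⟨D, h1, h2, h3⟩ => ⟨Algebra.TensorProduct.map e.ι e.ι D,
      by rw [lmul'_map, h1, map_one], (norm_algMap_le _ e.norm_ι_le _).trans h2, by
        rw [← map_dl, ← map_mul]; exact (norm_algMap_le _ e.norm_ι_le _).trans h3⟩)
    (fun A hA x hx => by
      obtain ⟨h1 | h1, h2⟩ := hx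
      · obtain ⟨a1, a2, a3⟩ := inv_diag x h1 h2
        exact ⟨A, Ext.refl A, hA, _, a1, by linarith, by
          rw [Ext.refl_ι, a3, norm_zero]; exact hδ.le⟩
      · obtain ⟨A', e, a1, a2⟩ := ext_diag_sq A x h1 h2 hδ
        exact ⟨A', e, hA.of_nil a1, a2⟩) A' hA' v Finset.univ (fun i _ => hv i)
  choose dd h1 h2 h3 using fun i => h i (Finset.mem_univ i)
  obtain ⟨D, hD1, hD2, hD3⟩ := exists_prod_diag (fun i => e'.ι (v i)) dd (by linarith) h1 h2 h3
  rw [Fintype.card_fin] at hD2 hD3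
  refine ⟨C, e.trans e', hC, D, hD1, hD2.trans (hδ1.trans (by linarith [min_le_left ε 1])), fun a => ?_⟩
  simp only [Ext.trans_ι, hc, map_sum, map_smul, Finset.sum_mul, smul_mul_assoc]
  refine (norm_sum_le_of_le (n := fun i => ‖c a i‖ * (ε / K)) _ fun i _ => ?_).trans ?_
  · rw [norm_smul]
    gcongr
    refine (hD3 i).trans ?_
    calc δ * (1 + δ) ^ n ≤ ε / K / 2 * 2 := by
          gcongr; linarith [min_le_right ε 1]
      _ = _ := by ring
  · rw [← Finset.sum_mul]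
    calc _ ≤ K * ‖a‖ * (ε / K) := by gcongr; exact hcK a
      _ = _ := by field_simp

end Pool.Agent.Lib.MP_9053f7_an.S73
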