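import Pool.Agent.Lib.MP_9053f7_an.Alg

namespace Pool.Agent.Lib.MP_9053f7_an

open Filter Topology WeakDual

lemma exists_inv_gens (C : FDAlg) : ∃ (m : ℕ) (h : Fin m → C),
    (∀ i, h i * h i = 1 ∧ ‖h i‖ ≤ 1) ∧ ∀ β ∈ invSub C, ∃ c : Fin m → ℂ, β = ∑ i, c i • h i := by
  obtain ⟨m, h, h1, h2⟩ := exists_finite_span {h : C | h * h = 1 ∧ ‖h‖ ≤ 1}
  refine ⟨m, h, h1, fun β hβ => ?_⟩
  let M : Submonoid C :=
    { carrier := {h : C | h * h = 1 ∧ ‖h‖ ≤ 1}
      mul_mem' := fun {a b} ha hb => ⟨by linear_combination b * b * ha.1 + hb.1,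
        (norm_mul_le _ _).trans (mul_le_one₀ ha.2 (norm_nonneg _) hb.2)⟩
      one_mem' := ⟨one_mul _, norm_one.le⟩ }
  have h3 : β ∈ Submodule.span ℂ (M : Set C) := by
    have := Algebra.adjoin_eq_span ℂ (M : Set C)
    rw [Submonoid.closure_eq] at this
    rw [← this]
    exact hβ
  have h4 : β ∈ Submodule.span ℂ (Set.range h) := by rw [h2]; exact h3
  obtain ⟨c, hc⟩ := (Submodule.mem_span_range_iff_exists_fun ℂ).1 h4
  exact ⟨c, hc.symm⟩

lemma exists_eigen_decomp {R : Type*} [CommRing R] [Algebra ℂ R] {m : ℕ} (h : Fin m → R)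
    (hh : ∀ i, h i * h i = 1) (U : Subalgebra ℂ R) (hU : ∀ i, h i ∈ U) :
    ∃ q : (Fin m → Bool) → R, ∑ σ, q σ = 1 ∧ (∀ σ, q σ ∈ U) ∧
      ∀ σ i, ∃ s : ℂ, h i * q σ = s • q σ := by
  classical
  let f : Fin m → Bool → R := fun i b => (1 / 2 : ℂ) • (1 + (if b then (1 : ℂ) else -1) • h i)
  refine ⟨fun σ => ∏ i, f i (σ i), ?_, fun σ => U.prod_mem fun i _ =>
    U.smul_mem (U.add_mem U.one_mem (U.smul_mem (hU i) _)) _, fun σ i => ?_⟩
  · have := Finset.prod_univ_sum (fun _ : Fin m => (Finset.univ : Finset Bool)) f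
    rw [Fintype.piFinset_univ] at this
    rw [← this]
    refine Finset.prod_eq_one fun i _ => ?_
    simp only [Fintype.sum_bool, f, if_true, Bool.false_eq_true, if_false, ← smul_add]
    rw [show (1 + (1 : ℂ) • h i + (1 + (-1 : ℂ) • h i)) = (2 : ℂ) • (1 : R) by
      module, smul_smul]
    norm_num
  · refine ⟨if σ i then 1 else -1, ?_⟩
    beta_reduce
    rw [← Finset.mul_prod_erase _ _ (Finset.mem_univ i), ← mul_assoc, ← smul_mul_assoc]
    congr 1
    simp only [f]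
    split_ifs
    · simp only [one_smul, mul_smul_comm, mul_add, mul_one, hh, add_comm]
    · simp only [mul_smul_comm, mul_add, mul_one, hh]
      module

namespace Tower

variable {T : Tower}

theorem semisimple : IsSemisimpleBA T.Alg := by
  intro b hb
  refine ext_co fun n => ?_
  obtain ⟨m, h, h1, h2⟩ := exists_inv_gens (T.C n)
  obtain ⟨q, hq1, hq2, hq3⟩ := exists_eigen_decomp h (fun i => (h1 i).1) (invSub (T.C n))
    (fun i => Algebra.subset_adjoin (h1 i))
  obtain ⟨c, hc⟩ := h2 _ (co_mem n b)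
  rw [map_zero, ← mul_one (T.co n b), ← hq1, Finset.mul_sum]
  refine Finset.sum_eq_zero fun σ _ => ?_
  choose s hs using hq3 σ
  have h3 : T.co n b * q σ = (∑ i, c i * s i) • q σ := by
    rw [hc, Finset.sum_mul, Finset.sum_smul]
    exact Finset.sum_congr rfl fun i _ => by rw [smul_mul_assoc, hs, smul_smul]
  by_cases hq : q σ = 0
  · rw [hq, mul_zero]
  have h4 : (b - algebraMap ℂ _ (∑ i, c i * s i)) * T.sing n ⟨q σ, hq2 σ⟩ = 0 := by
    refine ext_co fun k => ?_
    rcases eq_or_ne k n with rfl | hk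
    · rw [map_mul, co_sing_self, map_sub, AlgHom.commutes, sub_mul, h3, Algebra.smul_def]
      simp
    · simp [co_sing_ne hk]
  have h5 : ¬ IsUnit (b - algebraMap ℂ _ (∑ i, c i * s i)) := by
    intro hu
    have := congrArg (T.co n) (hu.mul_right_eq_zero.1 h4)
    rw [co_sing_self, map_zero] at this
    exact hq this
  obtain ⟨φ, hφ⟩ := CharacterSpace.exists_apply_eq_zero h5
  rw [map_sub, hb, AlgHomClass.commutes, zero_sub, neg_eq_zero] at hφ
  rw [h3]
  exact smul_eq_zero_of_left hφ _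

/-- Characters at infinity. -/
def AtInf (χ : characterSpace ℂ T.Alg) : Prop := ∀ n, χ (T.sing n 1) = 0

lemma AtInf.norm_le {χ : characterSpace ℂ T.Alg} (hχ : AtInf χ) {b : T.Alg} {c : ℝ}
    (h : ∀ᶠ n in atTop, ‖T.co n b‖ ≤ c) : ‖χ b‖ ≤ c := by
  obtain ⟨N, hN⟩ := eventually_atTop.1 h
  have hc : 0 ≤ c := (norm_nonneg _).trans (hN N le_rfl)
  have h1 : χ (T.cut N) = 0 := by rw [cut, map_sum]; exact Finset.sum_eq_zero fun n _ => hχ n
  have h2 : χ b = χ (b * (1 - T.cut N)) := by simp [h1]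
  rw [h2]
  refine (AlgHom.norm_apply_le_self χ _).trans (norm_le_of_co fun n => ?_)
  rw [map_mul, map_sub, co_cut]
  split_ifs with hn
  · simpa using hc
  · simpa using hN n (not_lt.1 hn)

lemma AtInf.eq_zero {χ : characterSpace ℂ T.Alg} (hχ : AtInf χ) {b : T.Alg} {c : ℝ}
    (h : ∀ᶠ n : ℕ in atTop, ‖T.co n b‖ ≤ 1 / (n + 2 : ℝ) * c) : χ b = 0 := by
  refine norm_le_zero_iff.1 (le_of_forall_pos_le_add fun ε hε => ?_)
  rw [zero_add]
  refine hχ.norm_le ?_
  filter_upwards [h, eventually_eps_mul_le c hε] with n h1 h2 using h1.trans h2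

lemma AtInf.sig_mul {χ : characterSpace ℂ T.Alg} (hχ : AtInf χ) (N : ℕ) (u v : T.A N) :
    χ (T.sig N (u * v)) = χ (T.sig N u) * χ (T.sig N v) := by
  rw [← map_mul χ, ← sub_eq_zero, ← map_sub χ]
  refine hχ.eq_zero (c := 4 * (‖u‖ * ‖v‖)) ?_
  filter_upwards [eventually_ge_atTop N] with n hn
  exact (norm_co_sig_mul_le hn u v).trans (le_of_eq (by ring))

lemma AtInf.sig_one {χ : characterSpace ℂ T.Alg} (hχ : AtInf χ) (N : ℕ) :
    χ (T.sig N 1) = 1 := by
  rw [← map_one χ, ← sub_eq_zero, ← map_sub χ]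
  refine hχ.eq_zero (c := 1) ?_
  filter_upwards [eventually_ge_atTop N] with n hn
  have := T.φ_close n 1
  rw [map_one (T.k n).ι, norm_one] at this
  rwa [map_sub, co_sig_of_le hn, map_one (T.emb N n hn), map_one (T.co n)]

lemma AtInf.sig_nil {χ : characterSpace ℂ T.Alg} (hχ : AtInf χ) (N : ℕ) {u : T.A N}
    (hu : IsNilpotent u) : χ (T.sig N u) = 0 := by
  obtain ⟨M, hM⟩ := hu
  have h : ∀ k, χ (T.sig N (u ^ k)) = χ (T.sig N u) ^ k := by
    intro k
    induction k with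
    | zero => simpa using hχ.sig_one N
    | succ k ih => rw [pow_succ, hχ.sig_mul, ih, pow_succ]
  have := h M
  rw [hM, map_zero, map_zero] at this
  exact pow_eq_zero_iff'.1 this.symm |>.1

lemma AtInf.unique {χ ψ : characterSpace ℂ T.Alg} (hχ : AtInf χ) (hψ : AtInf ψ) : χ = ψ := by
  ext b
  refine sub_eq_zero.1 (norm_le_zero_iff.1 (le_of_forall_pos_le_add fun ε hε => ?_))
  obtain ⟨x, N, hx, hb⟩ := co_approx b (ε := ε / 4) (by positivity)
  obtain ⟨c, hc⟩ := T.loc N (x N)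
  have key : ∀ {χ : characterSpace ℂ T.Alg}, AtInf χ → ‖χ b - c‖ ≤ ε / 2 := by
    intro χ hχ
    have h1 : χ (T.sig N (x N)) = c := by
      have := hχ.sig_nil N hc
      rw [Algebra.algebraMap_eq_smul_one, map_sub, map_smul, map_sub, map_smul, hχ.sig_one,
        sub_eq_zero] at this
      simpa using this
    rw [← h1, ← map_sub]
    refine hχ.norm_le ?_
    filter_upwards [eventually_ge_atTop N, eventually_eps_mul_le ‖x N‖ (ε := ε / 4)
      (by positivity)] with n hn hn'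
    rw [map_sub, co_sig_of_le hn, T.emb_coh hx hn]
    have h2 := T.φ_close n (x n)
    have h3 : ‖x n‖ = ‖x N‖ := by rw [← T.emb_coh hx hn, T.norm_emb]
    rw [norm_sub_rev, h3] at h2
    linarith [norm_sub_le_norm_sub_add_norm_sub (T.co n b) ((T.k n).ι (x n)) (T.φ n (x n)),
      hb n hn]
  have h1 := key hχ
  have h2 := key hψ
  rw [norm_sub_rev] at h2
  linarith [norm_sub_le_norm_sub_add_norm_sub (χ b) c (ψ b)]

lemma exists_atInf : ∃ χ : characterSpace ℂ T.Alg, AtInf χ := by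
  let I : Ideal T.Alg :=
    { carrier := {b | ∀ᶠ n in atTop, T.co n b = 0}
      add_mem' := fun {a b} ha hb => by
        filter_upwards [ha, hb] with n h1 h2
        simp [h1, h2]
      zero_mem' := Eventually.of_forall fun n => map_zero _
      smul_mem' := fun c a ha => by
        filter_upwards [ha] with n h1
        simp [h1] }
  have hI : I ≠ ⊤ := by
    rw [Ideal.ne_top_iff_one]
    intro h
    obtain ⟨n, hn⟩ := Eventually.exists h
    have := congrArg norm hn
    simp at this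
  obtain ⟨M, hM, hIM⟩ := Ideal.exists_le_maximal I hI
  refine ⟨M.toCharacterSpace, fun n => M.toCharacterSpace_apply_eq_zero_of_mem (hIM ?_)⟩
  filter_upwards [eventually_gt_atTop n] with m hm using co_sing_ne hm.ne' _

lemma exists_cut_of_closed {χ : characterSpace ℂ T.Alg} (hχ : AtInf χ)
    {E : Set (characterSpace ℂ T.Alg)} (hE : IsClosed E) (h : χ ∉ E) :
    ∃ N, ∀ ψ ∈ E, ψ (1 - T.cut N) = 0 := by
  obtain ⟨F, hF⟩ := hE.isCompact.elim_finite_subcover
    (fun n => {ψ : characterSpace ℂ T.Alg | ψ (T.sing n 1) ≠ 0})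
    (fun n => isOpen_ne_fun ((WeakDual.eval_continuous _).comp continuous_subtype_val)
      continuous_const) (fun ψ hψ => by
      by_contra hc
      simp only [Set.mem_iUnion, Set.mem_ofPred_eq, not_exists, not_not] at hc
      exact h (hχ.unique hc ▸ hψ))
  obtain ⟨N, hN⟩ := F.exists_nat_subset_range
  refine ⟨N, fun ψ hψ => ?_⟩
  have := hF hψ
  simp only [Set.mem_iUnion, Set.mem_ofPred_eq] at this
  obtain ⟨n, hn, hn'⟩ := this
  have h1 : (1 - T.cut N) * T.sing n 1 = 0 := ext_co fun m => by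
    rcases eq_or_ne m n with rfl | hm
    · simp [co_cut, Finset.mem_range.1 (hN hn)]
    · simp [co_sing_ne hm]
  have h2 := congrArg ψ h1
  rw [map_mul, map_zero] at h2
  exact (mul_eq_zero.1 h2).resolve_right hn'

lemma sing_one_mul_self (n : ℕ) : T.sing n 1 * T.sing n 1 = T.sing n 1 := ext_co fun m => by
  rcases eq_or_ne m n with rfl | hm
  · simp [co_sing_self]
  · simp [co_sing_ne hm]

variable (T) in
/-- Lift of an element of the `n`-th fibre, equal to `1` in the other fibres. -/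
noncomputable def lift (n : ℕ) (β : invSub (T.C n)) : T.Alg := 1 - T.sing n 1 + T.sing n β

lemma co_lift_self (n : ℕ) (β : invSub (T.C n)) : T.co n (T.lift n β) = β := by
  simp [lift, co_sing_self]

lemma co_lift_ne {n m : ℕ} (h : m ≠ n) (β : invSub (T.C n)) : T.co m (T.lift n β) = 1 := by
  simp [lift, co_sing_ne h]

lemma lift_mul_self {n : ℕ} {β : invSub (T.C n)} (h : β.1 * β.1 = 1) :
    T.lift n β * T.lift n β = 1 := ext_co fun m => by
  rcases eq_or_ne m n with rfl | hm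
  · simp [co_lift_self, h]
  · simp [co_lift_ne hm]

lemma norm_lift_le {n : ℕ} {β : invSub (T.C n)} (h : ‖β.1‖ ≤ 1) : ‖T.lift n β‖ ≤ 1 :=
  norm_le_of_co fun m => by
    rcases eq_or_ne m n with rfl | hm
    · simpa [co_lift_self] using h
    · simp [co_lift_ne hm]

lemma exists_lift_gens (n : ℕ) : ∃ (m : ℕ) (G : Fin m → T.Alg),
    (∀ i, G i * G i = 1 ∧ ‖G i‖ ≤ 1) ∧
      ∀ b : T.Alg, ∃ c : Fin m → ℂ, b * T.sing n 1 = ∑ i, c i • (T.sing n 1 * G i) := by
  obtain ⟨m, h, h1, h2⟩ := exists_inv_gens (T.C n)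
  refine ⟨m, fun i => T.lift n ⟨h i, Algebra.subset_adjoin (h1 i)⟩,
    fun i => ⟨lift_mul_self (h1 i).1, norm_lift_le (h1 i).2⟩, fun b => ?_⟩
  obtain ⟨c, hc⟩ := h2 _ (co_mem n b)
  refine ⟨c, ext_co fun k => ?_⟩
  rcases eq_or_ne k n with rfl | hk
  · simp [co_sing_self, co_lift_self, hc]
  · simp [co_sing_ne hk]

theorem regular : IsRegularBA T.Alg := by
  intro E hE φ hφ
  by_cases h : AtInf φ
  · obtain ⟨N, hN⟩ := exists_cut_of_closed h hE hφ
    refine ⟨1 - T.cut N, ?_, hN⟩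
    rw [map_sub, map_one, cut, map_sum, Finset.sum_eq_zero fun n _ => h n, sub_zero]
  obtain ⟨n, hn⟩ := not_forall.1 h
  have hone : ∀ ψ : characterSpace ℂ T.Alg, ψ (T.sing n 1) ≠ 0 → ψ (T.sing n 1) = 1 := by
    intro ψ hψ
    have := congrArg ψ (sing_one_mul_self (T := T) n)
    rw [map_mul] at this
    exact mul_left_cancel₀ hψ (by rw [this, mul_one])
  obtain ⟨m, G, hG, hG'⟩ := exists_lift_gens (T := T) n
  have hsq : ∀ (ψ : characterSpace ℂ T.Alg) i, ψ (G i) * ψ (G i) = 1 := fun ψ i => by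
    rw [← map_mul, (hG i).1, map_one]
  refine ⟨T.sing n 1 * ∏ i, (1 / 2 : ℂ) • (1 + φ (G i) • G i), ?_, fun ψ hψ => ?_⟩
  · rw [map_mul, hone φ hn, one_mul, map_prod]
    refine Finset.prod_eq_one fun i _ => ?_
    rw [map_smul, map_add, map_smul, map_one, smul_eq_mul, smul_eq_mul, hsq]
    norm_num
  · by_contra hc
    rw [map_mul, map_prod] at hc
    have h1 := hone ψ (left_ne_zero_of_mul hc)
    have h2 : ∀ i, ψ (G i) = φ (G i) := fun i => by
      have := Finset.prod_ne_zero_iff.1 (right_ne_zero_of_mul hc) i (Finset.mem_univ i)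
      rw [map_smul, map_add, map_smul, map_one, smul_eq_mul, smul_eq_mul] at this
      have h3 := right_ne_zero_of_mul this
      apply mul_left_cancel₀ h3
      linear_combination φ (G i) * hsq ψ i - ψ (G i) * hsq φ i
    have : ψ = φ := by
      ext b
      obtain ⟨c, hc⟩ := hG' b
      have a1 := congrArg ψ hc
      have a2 := congrArg φ hc
      simp only [map_mul, map_sum, map_smul, h1, hone φ hn, h2, mul_one] at a1 a2
      rw [a1, a2]
    exact hφ (this ▸ hψ)

theorem exists_not_mem_closure : ∃ (χ : characterSpace ℂ T.Alg) (b : T.Alg), χ b = 0 ∧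
    b ∉ closure {a : T.Alg | ∀ᶠ ψ : characterSpace ℂ T.Alg in 𝓝 χ, ψ a = 0} := by
  obtain ⟨χ, hχ⟩ := exists_atInf (T := T)
  refine ⟨χ, T.sig 0 T.y, hχ.sig_nil 0 ⟨2, by rw [pow_two, T.y_sq]⟩, fun h => ?_⟩
  obtain ⟨a, ha, hd⟩ := Metric.mem_closure_iff.1 h (1 / 2) (by norm_num)
  obtain ⟨V, hV1, hV2, hV3⟩ := eventually_nhds_iff.1 ha
  obtain ⟨N, hN⟩ := exists_cut_of_closed hχ hV2.isClosed_compl (fun h => h hV3)
  have h1 : a * (1 - T.cut N) = 0 := semisimple _ fun ψ => by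
    rw [map_mul]
    by_cases hψ : ψ ∈ V
    · rw [hV1 ψ hψ, zero_mul]
    · rw [hN ψ hψ, mul_zero]
  have h2 : T.co N a = 0 := by simpa [co_cut] using congrArg (T.co N) h1
  have h3 := norm_co_le N (T.sig 0 T.y - a)
  rw [map_sub, h2, sub_zero, co_sig_of_le (Nat.zero_le N), ← dist_eq_norm] at h3
  have h4 := T.φ_close N (T.emb 0 N (Nat.zero_le N) T.y)
  have h5 := norm_le_norm_add_norm_sub (T.φ N (T.emb 0 N (Nat.zero_le N) T.y))
    ((T.k N).ι (T.emb 0 N (Nat.zero_le N) T.y))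
  rw [Ext.norm_ι] at h5
  rw [T.norm_emb, T.y_norm] at h4 h5
  have h6 := eps_anti (Nat.zero_le N)
  norm_num at h6 h4
  linarith

end Tower

end Pool.Agent.Lib.MP_9053f7_an
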