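import Pool.Agent.Lib.MP_9053f7_an.Core
import Pool.Agent.Lib.MP_9053f7_an.Diag

namespace Pool.Agent.Lib.MP_9053f7_an

open AddMonoidAlgebra Complex Filter Topology PT Algebra.TensorProduct
open scoped TensorProduct

/-- The subalgebra generated by the involutions of norm at most one. -/
def invSub (R : Type*) [NormedCommRing R] [NormedAlgebra ℂ R] : Subalgebra ℂ R :=
  Algebra.adjoin ℂ {h | h * h = 1 ∧ ‖h‖ ≤ 1}

theorem ext_inv_sq (A : FDAlg) (w : A) (hw : w * w = 0) (hw1 : ‖w‖ ≤ 1) {ε : ℝ} (hε : 0 < ε) :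
    ∃ (A' : FDAlg) (e : Ext A A'), ∃ b ∈ invSub A', ‖e.ι w - b‖ ≤ ε := by
  obtain ⟨d, hd⟩ := exists_dim (δ := ε / 2 / (1 + 1 / ε)) (by positivity)
  obtain ⟨U, -, -, -, h1U, hU⟩ := exists_strip one_pos
  have hp : ∀ α : Ix d → Bool, ‖pp α 1‖ ≤ ε / 2 / (1 + 1 / ε) := fun α =>
    (norm_pp_le α (hU 1 h1U).2.1 (hU 1 h1U).2.2).trans hd
  let ω : Weight (Mon d) := ⟨fun _ => 1, fun _ => zero_le_one, rfl, fun _ _ => by simp⟩
  have hX : ∀ q, TT (T0 w ε d) (X0 w ε d * q) = 0 := fun q => by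
    simp [TT_T0, evH_X0 w ε hε.ne']
  have hg : ∀ i q, TT (T0 w ε d) ((gg A i * gg A i - 1) * q) = 0 := fun i q => by
    rw [TT_T0]
    refine Finset.sum_eq_zero fun α _ => ?_
    rw [map_mul, map_sub, map_mul, evH_gg, chi_one_single]
    split_ifs <;> simp
  have hsq : ∀ (R : Type) [CommRing R] [Algebra ℂ R] (π : AddMonoidAlgebra A (Mon d) →ₐ[ℂ] R),
      (∀ x, (∀ f, TT (T0 w ε d) (x * f) = 0) → π x = 0) → ∀ i, π (gg A i) * π (gg A i) = 1 := by
    intro R _ _ π hπ i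
    have := hπ _ (hg i)
    rwa [map_sub, map_mul, map_one, sub_eq_zero] at this
  obtain ⟨A', e, π, hι, hn, hker, -⟩ := exists_fdext A ω (T0 w ε d) T0_zero (fun x => by
    obtain ⟨j, _ | k⟩ := x
    · exact norm_T0_fst_le hw1 j
    · exact (norm_T0_succ_le hw hw1 hε hp j k).trans (by norm_num [ω])) (fun R _ _ π hπ => by
    have h1 : ∀ i, IsIntegral ℂ (π (gg A i)) := fun i =>
      IsIntegral.of_pow (n := 2) two_pos (by rw [pow_two, hsq R π hπ i]; exact isIntegral_one)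
    refine gen_mem π hε.ne' (hπ _ hX) (integralClosure ℂ R) ?_ h1 fun i => ?_
    · exact (Algebra.IsIntegral.isIntegral w).map (π.comp singleZeroAlgHom)
    · have : π (gi A i) = π (gg A i) := by
        calc π (gi A i) = π (gg A i) * π (gg A i) * π (gi A i) := by rw [hsq R π hπ i, one_mul]
          _ = π (gg A i) := by rw [mul_assoc, ← map_mul, gg_mul_gi, map_one, mul_one]
      rw [this]; exact h1 i)
  refine ⟨A', e, π (PP A d), ?_, ?_⟩
  · rw [PP, map_prod]
    refine Subalgebra.prod_mem _ fun i _ => ?_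
    rw [map_add, map_mul, AlgHom.commutes, AlgHom.commutes]
    exact Subalgebra.add_mem _ (Subalgebra.algebraMap_mem _ _) (Subalgebra.mul_mem _
      (Subalgebra.algebraMap_mem _ _) (Algebra.subset_adjoin ⟨hsq A' π hker i, hn _⟩))
  · rw [← hι, sub_PP_eq π (hker _ hX), norm_smul, Complex.norm_real, Real.norm_of_nonneg hε.le]
    exact mul_le_of_le_one_right hε.le (hn _)

noncomputable def om {d : ℕ} (c : ℝ) (x : Mon d) : ℝ := Real.exp (c * ∑ i, |(x.1 i : ℝ)|)

theorem exists_unipotent_t {A : FDAlg} {w : A} (hw : w * w = 0) (hw1 : ‖w‖ ≤ 1) {ε : ℝ}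
    (hε : 0 < ε) {d : ℕ} (hd : 2 * (3 / 4 : ℝ) ^ d ≤ ε / 2 / (1 + 1 / ε)) {c : ℝ} (hc : 0 < c) :
    ∃ t ∈ WW w ε d, t 0 = 1 ∧ ∀ x, ‖t x‖ ≤ om c x ^ 2 := by
  obtain ⟨U, hU1, hU2, h0U, h1U, hU⟩ := exists_strip hc
  have hC : 1 ≤ 1 + 1 / ε := le_add_of_nonneg_right (by positivity)
  have hp : ∀ α : Ix d → Bool, ∀ s ∈ U, ‖pp α s‖ ≤ ε / 2 / (1 + 1 / ε) := fun α s hs =>
    (norm_pp_le α (hU s hs).2.1 (hU s hs).2.2).trans hd
  have hom : ∀ x : Mon d, 0 < om c x := fun x => Real.exp_pos _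
  have hff : ∀ α : Ix d → Bool, ∀ x, ∀ s ∈ U, ‖ff w ε α x s‖ ≤ (1 + 1 / ε) * om c x := by
    intro α x s hs
    rw [ff, norm_smul, mul_comm]
    gcongr
    · exact norm_zz_pow_le hw hw1 hε ((hp α s hs).trans (div_le_self (by positivity) hC)) _
    · exact norm_chi_le α (hU s hs).1 _
  set κ : ℝ := ∑ α : Ix d → Bool, ‖KK w α‖ with hκ
  have hκ0 : 0 ≤ κ := by positivity
  set m : ℝ := min c (1 / 2) with hm
  have hm0 : 0 < m := by positivity
  set η : ℝ := m / ((κ + 1) * (1 + (1 + 1 / ε))) with hη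
  have hη0 : 0 < η := by positivity
  have happ := fun α : Ix d → Bool => approx_by_jets hU1 hU2 h0U h1U (ff w ε α)
    (fun x => (differentiable_ff w ε α x).differentiableOn) (by positivity) (om c) hom (hff α)
    ((WW w ε d).restrictScalars ℂ) (jet_mem_WW w ε hε.ne' α) hη0
  choose ta hta hta' using happ
  set t : Mon d → A := ∑ α, KK w α • ta α with ht
  have htW : t ∈ WW w ε d := Submodule.sum_mem _ fun α _ => Submodule.smul_mem _ _ (hta α)
  have ht0 : ∀ x, ‖t x - T0 w ε d x‖ ≤ κ * η * om c x := by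
    intro x
    rw [T0_apply, ht, Finset.sum_apply, ← Finset.sum_sub_distrib, hκ, Finset.sum_mul,
      Finset.sum_mul]
    refine norm_sum_le_of_le _ fun α _ => ?_
    rw [Pi.smul_apply, smul_eq_mul, ← mul_sub, mul_assoc]
    exact (norm_mul_le _ _).trans (by gcongr; exact hta' α x)
  let f₀ : Mon d → A := fun x => ff w ε (fun _ => true) x 0
  have hf₀ : f₀ ∈ WW w ε d := by simpa using jet_mem_WW w ε hε.ne' (fun _ => true) 0
  have hom0 : om c (0 : Mon d) = 1 := by simp [om]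
  have hf₀0 : f₀ 0 = 1 := by simp [f₀, ff, chi_zero]
  have hu : ‖1 - t 0‖ ≤ κ * η := by
    have := ht0 0
    rwa [T0_zero, hom0, mul_one, norm_sub_rev] at this
  have hclose : ∀ x, ‖(t + (1 - t 0) • f₀) x‖ ≤ ‖T0 w ε d x‖ + m * om c x := by
    intro x
    have e : (t + (1 - t 0) • f₀) x = T0 w ε d x + ((t x - T0 w ε d x) + (1 - t 0) * f₀ x) := by
      simp only [Pi.add_apply, Pi.smul_apply, smul_eq_mul]; ring
    rw [e]
    refine (norm_add_le _ _).trans (add_le_add le_rfl ((norm_add_le _ _).trans ?_))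
    have h1 : ‖(1 - t 0) * f₀ x‖ ≤ κ * η * ((1 + 1 / ε) * om c x) :=
      (norm_mul_le _ _).trans (by gcongr; exact hff _ x 0 h0U)
    have h2 : (κ + 1) * η * (1 + (1 + 1 / ε)) = m := by rw [hη]; field_simp
    have h3 := hom x
    calc _ ≤ κ * η * om c x + κ * η * ((1 + 1 / ε) * om c x) := add_le_add (ht0 x) h1
      _ = κ * η * (1 + (1 + 1 / ε)) * om c x := by ring
      _ ≤ (κ + 1) * η * (1 + (1 + 1 / ε)) * om c x := by gcongr; linarith
      _ = _ := by rw [h2]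
  have hzero : (t + (1 - t 0) • f₀) 0 = 1 := by simp [hf₀0]
  refine ⟨t + (1 - t 0) • f₀, Submodule.add_mem _ htW (Submodule.smul_mem _ _ hf₀), hzero,
    fun x => ?_⟩
  have hp1 := fun α : Ix d → Bool => hp α 1 h1U
  obtain ⟨j, k⟩ := x
  by_cases hj : j = 0
  · subst hj
    have h1 : om c ((0 : Ix d → ℤ), k) = 1 := by simp [om]
    rcases k with _ | k
    · rw [h1, Prod.mk_zero_zero, hzero]; simp
    · have := hclose (0, k + 1)
      have h2 := norm_T0_succ_le hw hw1 hε hp1 0 k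
      have h3 : m ≤ 1 / 2 := min_le_right _ _
      rw [h1] at this ⊢
      linarith
  · have h1 : ‖T0 w ε d (j, k)‖ ≤ 1 := by
      rcases k with _ | k
      · exact norm_T0_fst_le hw1 j
      · exact (norm_T0_succ_le hw hw1 hε hp1 j k).trans (by norm_num)
    have h2 : 1 + c ≤ om c (j, k) := by
      obtain ⟨i, hi⟩ := Function.ne_iff.1 hj
      have h3 : (1 : ℝ) ≤ |(j i : ℝ)| := by
        rw [← Int.cast_abs]; exact_mod_cast Int.one_le_abs hi
      have h4 : |(j i : ℝ)| ≤ ∑ i, |(j i : ℝ)| :=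
        Finset.single_le_sum (f := fun i => |(j i : ℝ)|) (fun i _ => abs_nonneg _)
          (Finset.mem_univ i)
      have h5 := Real.add_one_le_exp (c * ∑ i, |(j i : ℝ)|)
      have h6 : c * 1 ≤ c * ∑ i, |(j i : ℝ)| := by gcongr; exact h3.trans h4
      unfold om
      linarith
    have h3 : m ≤ c := min_le_left _ _
    have h4 := hclose (j, k)
    have h5 := hom (j, k)
    nlinarith

theorem ext_diag_sq (A : FDAlg) (hA : IsLoc A) (w : A) (hw : w * w = 0) (hw1 : ‖w‖ ≤ 1) {ε : ℝ}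
    (hε : 0 < ε) : ∃ (A' : FDAlg) (e : Ext A A'), IsLoc A' ∧ ∃ D : A' ⊗[ℂ] A',
      lmul' ℂ D = 1 ∧ ‖D‖ ≤ 1 + ε ∧ ‖dl (e.ι w) * D‖ ≤ ε := by
  wlog hε1 : ε ≤ 1 generalizing ε
  · obtain ⟨A', e, h1, D, h2, h3, h4⟩ := this one_pos le_rfl
    exact ⟨A', e, h1, D, h2, by linarith, by linarith⟩
  have hε' : 0 < ε / 8 := by positivity
  obtain ⟨d, hd⟩ := exists_dim (δ := ε / 8 / 2 / (1 + 1 / (ε / 8))) (by positivity)
  set r : ℕ := Fintype.card (Ix d) with hr
  have hr0 : 0 < r := Fintype.card_pos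
  obtain ⟨N, hN⟩ := exists_nat_gt (r * 3 ^ r * 16 / (ε / 2) : ℝ)
  have hN0' : (0 : ℝ) < N := lt_of_le_of_lt (by positivity) hN
  have hN0 : 0 < N := by exact_mod_cast hN0'
  have hlog : 0 < Real.log (1 + ε) := Real.log_pos (by linarith)
  set c : ℝ := Real.log (1 + ε) / (4 * N * r) with hc
  have hc0 : 0 < c := by positivity
  set θ : ℝ := Real.exp (2 * c) with hθ
  have hθ1 : 1 ≤ θ := Real.one_le_exp (by positivity)
  have hθr : (θ ^ (2 * N)) ^ r = 1 + ε := by
    rw [← pow_mul, hθ, ← Real.exp_nat_mul, ← Real.exp_log (by linarith : 0 < 1 + ε)]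
    congr 1
    rw [hc]; push_cast; field_simp; norm_num
  have hθN : θ ^ (2 * N) ≤ 2 :=
    (le_self_pow₀ (one_le_pow₀ hθ1) hr0.ne').trans (by rw [hθr]; linarith)
  have hθ2 : θ ≤ 2 := (le_self_pow₀ hθ1 (by omega)).trans hθN
  obtain ⟨t, ⟨hX, M, hM⟩, ht0, ht⟩ := exists_unipotent_t hw hw1 hε' hd hc0
  let ω : Weight (Mon d) := ⟨fun x => om c x ^ 2, fun x => by positivity, by simp [om],
    fun x y => by
      rw [← mul_pow]
      unfold om
      rw [← Real.exp_add, ← mul_add, ← Finset.sum_add_distrib]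
      gcongr with i
      simpa using abs_add_le _ _⟩
  have hloc : ∀ (R : Type) [CommRing R] [Algebra ℂ R] (π : AddMonoidAlgebra A (Mon d) →ₐ[ℂ] R),
      (∀ x, (∀ f, TT t (x * f) = 0) → π x = 0) → ∀ s, π (single s 1) ∈ locSub R := by
    intro R _ _ π hπ
    have h1 : ∀ i, IsNilpotent (π (gg A i) - 1) := fun i =>
      ⟨M, by simpa using hπ _ (hM M le_rfl i)⟩
    refine gen_mem π hε'.ne' (hπ _ hX) (locSub R)
      (mem_locSub_map (π.comp singleZeroAlgHom) (hA w)) (fun i => ⟨1, by simpa using h1 i⟩)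
      fun i => ⟨1, ?_⟩
    have : π (gi A i) - algebraMap ℂ R 1 = -π (gi A i) * (π (gg A i) - 1) := by
      have := congrArg π (gg_mul_gi (A := A) i)
      rw [map_mul, map_one] at this
      rw [map_one]
      linear_combination this
    rw [this]
    exact (Commute.all _ _).isNilpotent_mul_left (h1 i)
  obtain ⟨A', e, π, hι, hn, hker, hgen⟩ := exists_fdext A ω t ht0 ht
    (fun R _ _ π hπ s => locSub_le_integralClosure R (hloc R π hπ s))
  have hng : ∀ i, ‖π (gg A i)‖ ≤ θ := fun i => (hn _).trans (le_of_eq (by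
    simp only [ω, om, hθ]
    rw [← Real.exp_nat_mul, Finset.sum_eq_single i (fun k _ hk => by simp [Pi.single_eq_of_ne hk])
      (by simp)]
    simp))
  have hng' : ∀ i, ‖π (gi A i)‖ ≤ θ := fun i => (hn _).trans (le_of_eq (by
    simp only [ω, om, hθ]
    rw [← Real.exp_nat_mul, Finset.sum_eq_single i (fun k _ hk => by simp [Pi.single_eq_of_ne hk])
      (by simp)]
    simp))
  choose dd hd1 hd2 hd3 using fun i => exists_unit_diag (π (gg A i)) (π (gi A i))
    (by rw [← map_mul, gg_mul_gi, map_one]) hθ1 (hng i) (hng' i) hN0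
  obtain ⟨D, hD1, hD2, hD3⟩ := exists_prod_diag (fun i => π (gg A i)) dd (one_le_pow₀ hθ1)
    hd1 hd2 hd3
  rw [← hr, hθr] at hD2 hD3
  refine ⟨A', e, hgen _ (fun a => mem_locSub_map _ (hA a)) (hloc A' π hker), D, hD1, hD2, ?_⟩
  have hD4 : ∀ i, ‖dl (π (gg A i)) * D‖ ≤ 16 / N := fun i => (hD3 i).trans (by
    calc _ ≤ 2 * 2 * 2 / (N : ℝ) * 2 := by gcongr; linarith
      _ = _ := by ring)
  have hP : ‖dl (π (PP A d)) * D‖ ≤ r * 3 ^ r * (16 / N) := by
    rw [PP, map_prod]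
    refine norm_dl_prod_le Finset.univ _ D (by norm_num) (by positivity) (fun i _ => ?_)
      (fun i _ => ?_)
    · rw [map_add, map_mul, AlgHom.commutes, AlgHom.commutes, ← Algebra.smul_def]
      refine (norm_add_le _ _).trans ?_
      rw [norm_algebraMap', norm_smul]
      have h1 := norm_ca_le i
      have h2 : ‖cb i‖ * ‖π (gg A i)‖ ≤ 1 * 2 := by
        gcongr
        · exact norm_cb_le i
        · exact (hng i).trans hθ2
      linarith
    · rw [map_add, map_mul, AlgHom.commutes, AlgHom.commutes, ← Algebra.smul_def,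
        Algebra.algebraMap_eq_smul_one, map_add, map_smul, map_smul, dl_one, smul_zero, zero_add,
        smul_mul_assoc, norm_smul]
      exact (mul_le_of_le_one_left (norm_nonneg _) (norm_cb_le i)).trans (hD4 i)
  have hZ : ‖e.ι w - π (PP A d)‖ ≤ ε / 8 := by
    rw [← hι, sub_PP_eq π (hker _ hX), norm_smul, Complex.norm_real, Real.norm_of_nonneg hε'.le]
    refine mul_le_of_le_one_right hε'.le ((hn _).trans (le_of_eq ?_))
    simp [ω, om]
  have e1 : dl (e.ι w) * D = dl (π (PP A d)) * D + dl (e.ι w - π (PP A d)) * D := by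
    rw [map_sub]; ring
  rw [e1]
  refine (norm_add_le _ _).trans ?_
  have h1 : ‖dl (e.ι w - π (PP A d)) * D‖ ≤ 2 * (ε / 8) * 2 :=
    (norm_mul_le _ _).trans (by
      gcongr
      · exact (norm_dl_le _).trans (by gcongr)
      · linarith)
  have h2 : (r : ℝ) * 3 ^ r * (16 / N) ≤ ε / 2 := by
    rw [div_lt_iff₀ (by positivity)] at hN
    rw [← mul_div_assoc, div_le_iff₀ hN0']
    linarith
  linarith

end Pool.Agent.Lib.MP_9053f7_an
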