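import Pool.Agent.Lib.MP_9053f7_an.Steps

namespace Pool.Agent.Lib.MP_9053f7_an

open Filter Topology PT Algebra.TensorProduct
open scoped TensorProduct

lemma exists_finite_span {V : Type*} [AddCommGroup V] [Module ℂ V] [FiniteDimensional ℂ V]
    (s : Set V) : ∃ (n : ℕ) (v : Fin n → V), (∀ i, v i ∈ s) ∧
      Submodule.span ℂ (Set.range v) = Submodule.span ℂ s := by
  obtain ⟨b, hb, hs, hli⟩ := exists_linearIndependent ℂ s
  have hfin : b.Finite := hli.setFinite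
  obtain ⟨n, v, hv⟩ := hfin.fin_param
  exact ⟨n, v, fun i => hb (hv.2 ▸ Set.mem_range_self i), by rw [hv.2, hs]⟩

def Src (A : FDAlg) (w : A) : Prop := w = 1 ∨ (w * w = 0 ∧ ‖w‖ ≤ 1)

lemma Src.map (A A' : FDAlg) (e : Ext A A') (x : A) (h : Src A x) : Src A' (e.ι x) := by
  rcases h with h | ⟨h, h'⟩
  · left; simp [h]
  · right; exact ⟨by rw [← map_mul, h, map_zero], (e.norm_ι_le x).trans h'⟩

theorem ext_coef (A : FDAlg) (hA : IsLoc A) : ∃ (A' : FDAlg) (e : Ext A A'), IsLoc A' ∧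
    ∃ (n : ℕ) (v : Fin n → A') (c : A →ₗ[ℂ] Fin n → ℂ) (K : ℝ), 0 < K ∧ (∀ i, Src A' (v i)) ∧
      (∀ a, e.ι a = ∑ i, c a i • v i) ∧ ∀ a, ∑ i, ‖c a i‖ ≤ K * ‖a‖ := by
  obtain ⟨A', e, hA', h⟩ := ext_sqSpan A hA
  obtain ⟨n, v, hv, hspan⟩ := exists_finite_span {w : A' | Src A' w}
  have hle : sqSpan A' ≤ Submodule.span ℂ {w : A' | Src A' w} := by
    refine Submodule.span_le.2 ?_
    rintro w (hw | hw)
    · exact Submodule.subset_span (Or.inl hw)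
    · have h1 : ((‖w‖ + 1 : ℝ) : ℂ) ≠ 0 := by
        exact_mod_cast (by positivity : (‖w‖ + 1 : ℝ) ≠ 0)
      have h2 : w = ((‖w‖ + 1 : ℝ) : ℂ) • ((‖w‖ + 1 : ℝ) : ℂ)⁻¹ • w := by
        rw [smul_smul, mul_inv_cancel₀ h1, one_smul]
      rw [h2]
      refine Submodule.smul_mem _ _ (Submodule.subset_span (Or.inr ⟨?_, ?_⟩))
      · rw [smul_mul_smul_comm, hw, smul_zero]
      · rw [norm_smul, norm_inv, Complex.norm_real, Real.norm_of_nonneg (by positivity),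
          inv_mul_le_iff₀ (by positivity)]
        linarith
  let Φ := Fintype.linearCombination ℂ v
  have hmem : ∀ a, e.ι.toLinearMap a ∈ LinearMap.range Φ := fun a => by
    rw [Fintype.range_linearCombination, hspan]; exact hle (h a)
  obtain ⟨c, hc⟩ := Module.projective_lifting_property Φ.rangeRestrict
    (e.ι.toLinearMap.codRestrict _ hmem) Φ.surjective_rangeRestrict
  let c' := LinearMap.toContinuousLinearMap c
  refine ⟨A', e, hA', n, v, c, n * ‖c'‖ + 1, by positivity, hv, fun a => ?_, fun a => ?_⟩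
  · have := congrArg Subtype.val (LinearMap.congr_fun hc a)
    simpa [Φ, Fintype.linearCombination_apply] using this.symm
  · have h1 : ∀ i, ‖c a i‖ ≤ ‖c'‖ * ‖a‖ := fun i =>
      (norm_le_pi_norm (c a) i).trans (c'.le_opNorm a)
    refine (Finset.sum_le_sum fun i _ => h1 i).trans ?_
    simp only [Finset.sum_const, Finset.card_univ, Fintype.card_fin, nsmul_eq_mul]
    nlinarith [norm_nonneg a]

lemma mem_invSub_map {A A' : FDAlg} (e : Ext A A') {x : A} (hx : x ∈ invSub A) :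
    e.ι x ∈ invSub A' := by
  have : (invSub A).map e.ι ≤ invSub A' := by
    rw [invSub, AlgHom.map_adjoin]
    refine Algebra.adjoin_mono ?_
    rintro _ ⟨h, ⟨h1, h2⟩, rfl⟩
    exact ⟨by rw [← map_mul, h1, map_one], (e.norm_ι_le h).trans h2⟩
  exact this ⟨x, hx, rfl⟩

theorem ext_inv (A : FDAlg) (hA : IsLoc A) {ε : ℝ} (hε : 0 < ε) :
    ∃ (C : FDAlg) (e : Ext A C) (φ : A →ₗ[ℂ] C), (∀ a, φ a ∈ invSub C) ∧
      ∀ a, ‖φ a - e.ι a‖ ≤ ε * ‖a‖ := by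
  obtain ⟨A', e, -, n, v, c, K, hK, hv, hc, hcK⟩ := ext_coef A hA
  obtain ⟨C, e', -, h⟩ := ext_finset (fun _ => True) Src
    (fun A x => ∃ b ∈ invSub A, ‖x - b‖ ≤ ε / K) Src.map
    (fun _ _ e x ⟨b, hb, hb'⟩ => ⟨e.ι b, mem_invSub_map e hb, by
      rw [← map_sub]; exact (e.norm_ι_le _).trans hb'⟩)
    (fun A _ x hx => by
      rcases hx with rfl | ⟨h1, h2⟩
      · exact ⟨A, Ext.refl A, trivial, 1, Subalgebra.one_mem _, by simp; positivity⟩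
      · obtain ⟨A', e, h⟩ := ext_inv_sq A x h1 h2 (ε := ε / K) (by positivity)
        exact ⟨A', e, trivial, h⟩) A' trivial v Finset.univ (fun i _ => hv i)
  choose b hb hb' using fun i => h i (Finset.mem_univ i)
  refine ⟨C, e.trans e', Fintype.linearCombination ℂ b ∘ₗ c, fun a => ?_, fun a => ?_⟩
  · simp only [LinearMap.comp_apply, Fintype.linearCombination_apply]
    exact Subalgebra.sum_mem _ fun i _ => Subalgebra.smul_mem _ (hb i) _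
  · simp only [LinearMap.comp_apply, Fintype.linearCombination_apply, Ext.trans_ι, hc, map_sum,
      map_smul, ← Finset.sum_sub_distrib, ← smul_sub]
    refine (norm_sum_le_of_le (n := fun i => ‖c a i‖ * (ε / K)) _ fun i _ => ?_).trans ?_
    · rw [norm_smul, norm_sub_rev]; gcongr; exact hb' i
    · rw [← Finset.sum_mul]
      calc _ ≤ K * ‖a‖ * (ε / K) := by gcongr; exact hcK a
        _ = _ := by field_simp

theorem ext_diag (A : FDAlg) (hA : IsLoc A) {ε : ℝ} (hε : 0 < ε) :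
    ∃ (A' : FDAlg) (e : Ext A A'), IsLoc A' ∧ ∃ D : A' ⊗[ℂ] A', lmul' ℂ D = 1 ∧ ‖D‖ ≤ 2 ∧
      ∀ a, ‖dl (e.ι a) * D‖ ≤ ε * ‖a‖ := by
  obtain ⟨A', e, hA', n, v, c, K, hK, hv, hc, hcK⟩ := ext_coef A hA
  obtain ⟨δ, hδ, hδ1, hδ2⟩ : ∃ δ : ℝ, 0 < δ ∧ (1 + δ) ^ n ≤ 2 ∧ δ ≤ ε / K / 2 := by
    have h1 : ContinuousAt (fun δ : ℝ => (1 + δ) ^ n) 0 := by fun_prop
    have h2 := h1.eventually_lt continuousAt_const (show (1 + 0 : ℝ) ^ n < 2 by simp)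
    have h3 : ∀ᶠ δ in 𝓝 (0 : ℝ), δ < ε / K / 2 := eventually_lt_nhds (by positivity)
    obtain ⟨δ, ⟨a1, a2⟩, a3⟩ := (((h2.and h3).filter_mono nhdsWithin_le_nhds).and
      (self_mem_nhdsWithin (s := Set.Ioi (0 : ℝ)))).exists
    exact ⟨δ, a3, a1.le, a2.le⟩
  obtain ⟨C, e', hC, h⟩ := ext_finset (fun A => IsLoc A) Src
    (fun A x => ∃ D : A ⊗[ℂ] A, lmul' ℂ D = 1 ∧ ‖D‖ ≤ 1 + δ ∧ ‖dl x * D‖ ≤ δ) Src.map
    (fun _ _ e x ⟨D, h1, h2, h3⟩ => ⟨Algebra.TensorProduct.map e.ι e.ι D,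
      by rw [lmul'_map, h1, map_one], (norm_algMap_le _ e.norm_ι_le _).trans h2, by
        rw [← map_dl, ← map_mul]; exact (norm_algMap_le _ e.norm_ι_le _).trans h3⟩)
    (fun A hA x hx => by
      rcases hx with rfl | ⟨h1, h2⟩
      · exact ⟨A, Ext.refl A, hA, 1, map_one _, by simp [hδ.le], by simp [dl_one, hδ.le]⟩
      · exact ext_diag_sq A hA x h1 h2 hδ) A' hA' v Finset.univ (fun i _ => hv i)
  choose dd h1 h2 h3 using fun i => h i (Finset.mem_univ i)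
  obtain ⟨D, hD1, hD2, hD3⟩ := exists_prod_diag (fun i => e'.ι (v i)) dd (by linarith) h1 h2 h3
  rw [Fintype.card_fin] at hD2 hD3
  refine ⟨C, e.trans e', hC, D, hD1, hD2.trans hδ1, fun a => ?_⟩
  simp only [Ext.trans_ι, hc, map_sum, map_smul, Finset.sum_mul, smul_mul_assoc]
  refine (norm_sum_le_of_le (n := fun i => ‖c a i‖ * (ε / K)) _ fun i _ => ?_).trans ?_
  · rw [norm_smul]
    gcongr
    refine (hD3 i).trans ?_
    calc δ * (1 + δ) ^ n ≤ ε / K / 2 * 2 := by gcongr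
      _ = _ := by ring
  · rw [← Finset.sum_mul]
    calc _ ≤ K * ‖a‖ * (ε / K) := by gcongr; exact hcK a
      _ = _ := by field_simp

/-- The data from which the counterexample is assembled. -/
structure Tower where
  A : ℕ → FDAlg
  C : ℕ → FDAlg
  e : ∀ n, Ext (A n) (A (n + 1))
  k : ∀ n, Ext (A n) (C n)
  φ : ∀ n, A n →ₗ[ℂ] C n
  D : ∀ n, A (n + 1) ⊗[ℂ] A (n + 1)
  y : A 0
  loc : ∀ n, IsLoc (A n)
  φ_mem : ∀ n a, φ n a ∈ invSub (C n)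
  φ_close : ∀ n a, ‖φ n a - (k n).ι a‖ ≤ 1 / (n + 2 : ℝ) * ‖a‖
  D_mul : ∀ n, lmul' ℂ (D n) = 1
  D_norm : ∀ n, ‖D n‖ ≤ 2
  D_dl : ∀ n a, ‖dl ((e n).ι a) * D n‖ ≤ 1 / (n + 2 : ℝ) * ‖a‖
  y_sq : y * y = 0
  y_norm : ‖y‖ = 1

theorem exists_tower : Nonempty Tower := by
  have h0 : ∃ (A : FDAlg) (y : A), IsLoc A ∧ y * y = 0 ∧ ‖y‖ = 1 := by
    have : FiniteDimensional ℂ (TrivSqZeroExt ℂ ℂ) := inferInstanceAs (FiniteDimensional ℂ (ℂ × ℂ))
    refine ⟨⟨TrivSqZeroExt ℂ ℂ⟩, TrivSqZeroExt.inr 1, fun x => ⟨x.fst, 2, ?_⟩, ?_, ?_⟩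
    · change (x - algebraMap ℂ (TrivSqZeroExt ℂ ℂ) x.fst) ^ 2 = (0 : TrivSqZeroExt ℂ ℂ)
      ext <;> simp [TrivSqZeroExt.algebraMap_eq_inl, pow_two]
    · exact TrivSqZeroExt.inr_mul_inr ℂ (1 : ℂ) 1
    · exact (TrivSqZeroExt.norm_inr (R := ℂ) (1 : ℂ)).trans norm_one
  obtain ⟨A₀, y, hA₀, hy, hy'⟩ := h0
  have hpos : ∀ n : ℕ, (0 : ℝ) < 1 / (n + 2 : ℝ) := fun n => by positivity
  choose nx ex hx D hD1 hD2 hD3 using fun (n : ℕ) (A : {A : FDAlg // IsLoc A}) =>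
    ext_diag A.1 A.2 (hpos n)
  let A : ℕ → {A : FDAlg // IsLoc A} := fun n =>
    Nat.rec ⟨A₀, hA₀⟩ (fun n B => ⟨nx n B, hx n B⟩) n
  choose C k φ h1 h2 using fun n : ℕ => ext_inv (A n).1 (A n).2 (hpos n)
  exact ⟨⟨fun n => (A n).1, C, fun n => ex n (A n), k, φ, fun n => D n (A n), y, fun n => (A n).2,
    h1, h2, fun n => hD1 n (A n), fun n => hD2 n (A n), fun n => hD3 n (A n), hy, hy'⟩⟩

end Pool.Agent.Lib.MP_9053f7_an
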